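import Pool.Agent.Lib.NIL.EA.Defs

/-! G1: signs. -/

namespace Pool.Agent.Lib.NIL.EA

open Finsupp Pointwise

variable {G D : Type} [Group G] [LinearOrder D] [MulAction G D] {I J K L A : Finset D}

theorem τ_self (i : D) : τ i i = 0 := by simp [τ]

theorem τ_swap (i j : D) : τ i j = -τ j i := by
  unfold τ
  rcases lt_trichotomy i j with h | rfl | h
  · simp [h, h.not_gt, h.ne']
  · simp
  · simp [h, h.not_gt, h.ne']

theorem τ_sq {i j : D} (h : i ≠ j) : τ i j * τ i j = 1 := by
  unfold τ
  rcases lt_or_gt_of_ne h with h | h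
  · simp [h.not_gt, h.ne']
  · simp [h]

theorem w_empty_left (K : Finset D) : w ∅ K = 1 := Finset.prod_empty

theorem w_empty_right (J : Finset D) : w J ∅ = 1 := by simp [w]

theorem w_eq_zero (h : ¬ Disjoint J K) : w J K = 0 := by
  obtain ⟨i, hi, hj⟩ := Finset.not_disjoint_iff.1 h
  exact Finset.prod_eq_zero hi (Finset.prod_eq_zero hj (τ_self i))

theorem w_sq (h : Disjoint J K) : w J K * w J K = 1 := by
  unfold w
  rw [← Finset.prod_mul_distrib]
  refine Finset.prod_eq_one fun i hi => ?_
  rw [← Finset.prod_mul_distrib]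
  exact Finset.prod_eq_one fun j hj => τ_sq fun e => Finset.disjoint_left.1 h hi (e ▸ hj)

theorem w_union_left (h : Disjoint J K) (L : Finset D) : w (J ∪ K) L = w J L * w K L :=
  Finset.prod_union h

theorem w_union_right (J : Finset D) (h : Disjoint K L) : w J (K ∪ L) = w J K * w J L := by
  unfold w
  rw [← Finset.prod_mul_distrib]
  exact Finset.prod_congr rfl fun _ _ => Finset.prod_union h

theorem w_unit (h : Disjoint J K) : ∃ s : ℤˣ, w J K = s := by
  rcases Int.eq_one_or_neg_one_of_mul_eq_one (w_sq h) with e | e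
  exacts [⟨1, e⟩, ⟨-1, e⟩]

theorem w_ne_zero : w J K ≠ 0 ↔ Disjoint J K := 
  ⟨fun h => by_contra fun h' => h (w_eq_zero h'), fun h e => by simpa [e] using w_sq h⟩

theorem w_cocycle (J K L : Finset D) : w J K * w (J ∪ K) L = w K L * w J (K ∪ L) := by
  by_cases h1 : Disjoint J K
  · by_cases h2 : Disjoint K L
    · rw [w_union_left h1, w_union_right _ h2]
      ring
    · rw [w_eq_zero h2, w_eq_zero (J := J ∪ K) fun h => h2 (Finset.disjoint_union_left.1 h).2,
        mul_zero, zero_mul]
  · rw [w_eq_zero h1, w_eq_zero (K := K ∪ L) fun h => h1 (Finset.disjoint_union_right.1 h).1,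
      mul_zero, zero_mul]

theorem w_swap (J K : Finset D) : w J K = (-1) ^ (J.card * K.card) * w K J := by
  unfold w
  rw [Finset.prod_comm (s := K), mul_comm J.card, pow_mul, ← Finset.prod_const,
    ← Finset.prod_mul_distrib]
  refine Finset.prod_congr rfl fun i _ => ?_
  rw [← Finset.prod_const, ← Finset.prod_mul_distrib]
  exact Finset.prod_congr rfl fun j _ => by rw [τ_swap, neg_one_mul]

theorem w_swap_single (i j : D) : w {i} {j} = -w {j} {i} := by
  rw [w_swap]
  simp

theorem sg_one (J : Finset D) : sg (1 : G) J = 1 := 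
  Finset.prod_eq_one fun i _ => Finset.prod_eq_one fun j _ => if_neg fun h => by
    simp only [one_smul] at h
    exact h.1.not_gt h.2

theorem sg_empty (g : G) : sg g (∅ : Finset D) = 1 := Finset.prod_empty

theorem sg_singleton (g : G) (i : D) : sg g {i} = 1 := by simp [sg]

theorem prod_smul (g : G) (J : Finset D) (f : D → ℤ) : ∏ i ∈ g • J, f i = ∏ i ∈ J, f (g • i) :=
  Finset.prod_image fun _ _ _ _ h => MulAction.injective g h

theorem w_smul_eq (g : G) (J K : Finset D) :
    w (g • J) (g • K) = ∏ i ∈ J, ∏ j ∈ K, τ (g • i) (g • j) := by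
  unfold w
  rw [prod_smul]
  exact Finset.prod_congr rfl fun i _ => prod_smul _ _ _

theorem sg_union (g : G) (h : Disjoint J K) :
    sg g (J ∪ K) = sg g J * sg g K * (w J K * w (g • J) (g • K)) := by
  rw [w_smul_eq]
  unfold sg w
  simp only [Finset.prod_union h, Finset.prod_mul_distrib]
  rw [Finset.prod_comm (s := K) (t := J)]
  have : (∏ i ∈ J, ∏ j ∈ K, if i < j ∧ g • j < g • i then (-1 : ℤ) else 1) *
      (∏ i ∈ J, ∏ j ∈ K, if j < i ∧ g • i < g • j then (-1 : ℤ) else 1) =
      (∏ i ∈ J, ∏ j ∈ K, τ i j) * ∏ i ∈ J, ∏ j ∈ K, τ (g • i) (g • j) := by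
    simp only [← Finset.prod_mul_distrib]
    refine Finset.prod_congr rfl fun i hi => Finset.prod_congr rfl fun j hj => ?_
    have e : i ≠ j := fun e => Finset.disjoint_left.1 h hi (e ▸ hj)
    have e' : g • i ≠ g • j := fun e' => e (MulAction.injective g e')
    unfold τ
    rcases lt_or_gt_of_ne e with a | a <;> rcases lt_or_gt_of_ne e' with b | b <;>
      simp [a, b, a.not_gt, b.not_gt, a.ne', b.ne']
  rw [← this]
  ring

theorem sg_insert (g : G) {i : D} (h : i ∉ J) :
    sg g (insert i J) = sg g J * (w {i} J * w {g • i} (g • J)) := by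
  rw [Finset.insert_eq, sg_union g (Finset.disjoint_singleton_left.2 h), sg_singleton, one_mul,
    Finset.smul_finset_singleton]

theorem sg_mul (g h : G) (J : Finset D) : sg (g * h) J = sg g (h • J) * sg h J := by
  induction J using Finset.induction_on with
  | empty => simp [sg_empty]
  | insert i J hi ih =>
    have hi' : h • i ∉ h • J := fun e => hi ((Finset.smul_mem_smul_finset_iff h).1 e)
    rw [Finset.smul_finset_insert, sg_insert _ hi, sg_insert _ hi, sg_insert _ hi', ih, mul_smul,
      mul_smul]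
    have := w_sq (Finset.disjoint_singleton_left.2 hi')
    linear_combination (-(sg g (h • J) * sg h J * w {i} J * w {g • h • i} (g • h • J))) * this

theorem sg_sq (g : G) (J : Finset D) : sg g J * sg g J = 1 := by
  unfold sg
  rw [← Finset.prod_mul_distrib]
  refine Finset.prod_eq_one fun i _ => ?_
  rw [← Finset.prod_mul_distrib]
  exact Finset.prod_eq_one fun j _ => by split_ifs <;> rfl

theorem sg_inv (g : G) (J : Finset D) : sg g⁻¹ (g • J) = sg g J := by
  have h1 := sg_mul g⁻¹ g J
  rw [inv_mul_cancel, sg_one] at h1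
  have h2 := sg_sq g J
  linear_combination (-sg g J) * h1 - sg g⁻¹ (g • J) * h2

theorem w_smul (g : G) (J K : Finset D) :
    w J K * sg g (J ∪ K) = sg g J * sg g K * w (g • J) (g • K) := by
  by_cases h : Disjoint J K
  · rw [sg_union g h]
    linear_combination (sg g J * sg g K * w (g • J) (g • K)) * w_sq h
  · rw [w_eq_zero h, w_eq_zero (J := g • J) (K := g • K) fun h' => h ((Finset.disjoint_image
      (MulAction.injective g)).1 h'), zero_mul, mul_zero]

theorem kz_apply (A A' : Finset D) :
    kz A A' = ∑ i ∈ A, if A.erase i = A' then w {i} A' else 0 := by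
  rw [kz, Finsupp.finsetSum_apply]
  refine Finset.sum_congr rfl fun i _ => ?_
  rw [single_apply]
  split_ifs with e
  · rw [e]
  · rfl

theorem kz_supp {A' : Finset D} (h : kz A A' ≠ 0) : ∃ i ∈ A, A' = A.erase i := by
  rw [kz_apply] at h
  obtain ⟨i, hi, h'⟩ := Finset.exists_ne_zero_of_sum_ne_zero h
  exact ⟨i, hi, by_contra fun e => h' (if_neg (Ne.symm e))⟩

theorem kz_erase {i : D} (h : i ∈ A) : kz A (A.erase i) = w {i} (A.erase i) := by
  rw [kz_apply, Finset.sum_eq_single_of_mem i h, if_pos rfl]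
  intro j hj e
  exact if_neg fun e' => e ((Finset.erase_inj A hj).1 e')

theorem kz_unit {i : D} (h : i ∈ A) : ∃ s : ℤˣ, kz A (A.erase i) = s := by
  rw [kz_erase h]
  exact w_unit (Finset.disjoint_singleton_left.2 (Finset.notMem_erase _ _))

theorem w_anti (i j : D) (B : Finset D) :
    w {i} ({j} ∪ B) * w {j} B + w {j} ({i} ∪ B) * w {i} B = 0 := by
  have h1 := w_cocycle {i} {j} B
  have h2 := w_cocycle {j} {i} B
  rw [Finset.union_comm, w_swap_single] at h2
  linear_combination -h1 - h2

theorem kz_kz (A : Finset D) : linearCombination ℤ kz (kz A) = 0 := by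
  rw [kz, map_sum]
  simp only [linearCombination_single, kz, Finset.smul_sum, smul_single, smul_eq_mul]
  rw [Finset.sum_sigma']
  refine Finset.sum_involution (fun p _ => ⟨p.2, p.1⟩) ?_ ?_ ?_ fun _ _ => rfl
  · rintro ⟨i, j⟩ hp
    obtain ⟨hi, hj⟩ := Finset.mem_sigma.1 hp
    obtain ⟨e, hj⟩ := Finset.mem_erase.1 hj
    dsimp only at *
    rw [Finset.erase_right_comm (a := j), ← single_add, single_eq_zero]
    have h1 : A.erase i = {j} ∪ (A.erase i).erase j :=
      (Finset.insert_erase (Finset.mem_erase.2 ⟨e, hj⟩)).symm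
    have h2 : A.erase j = {i} ∪ (A.erase i).erase j := by
      rw [Finset.erase_right_comm]
      exact (Finset.insert_erase (Finset.mem_erase.2 ⟨e.symm, hi⟩)).symm
    generalize (A.erase i).erase j = B at h1 h2
    rw [h1, h2]
    exact w_anti i j B
  · rintro ⟨i, j⟩ hp - e
    exact (Finset.mem_erase.1 (Finset.mem_sigma.1 hp).2).1 (Sigma.mk.inj e).1
  · rintro ⟨i, j⟩ hp
    obtain ⟨hi, hj⟩ := Finset.mem_sigma.1 hp
    obtain ⟨e, hj⟩ := Finset.mem_erase.1 hj
    exact Finset.mem_sigma.2 ⟨hj, Finset.mem_erase.2 ⟨e.symm, hi⟩⟩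

theorem kz_smul (g : G) (A A' : Finset D) :
    sg g A * kz A A' = sg g A' * kz (g • A) (g • A') := by
  by_cases h : ∃ i ∈ A, A' = A.erase i
  · obtain ⟨i, hi, rfl⟩ := h
    have e : g • A.erase i = (g • A).erase (g • i) := Finset.image_erase (MulAction.injective g) _ _
    have h1 := w_smul g {i} (A.erase i)
    rw [← Finset.insert_eq, Finset.insert_erase hi, sg_singleton, Finset.smul_finset_singleton,
      one_mul, e] at h1
    rw [e, kz_erase hi, kz_erase (Finset.smul_mem_smul_finset hi), mul_comm, h1]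
  · rw [show kz A A' = 0 from by_contra fun e => h (kz_supp e),
      show kz (g • A) (g • A') = 0 from by_contra fun e => ?_, mul_zero, mul_zero]
    obtain ⟨i, hi, e⟩ := kz_supp e
    obtain ⟨i, rfl⟩ := ex_smul g i
    exact h ⟨i, (Finset.smul_mem_smul_finset_iff g).1 hi, MulAction.injective g
      (e.trans (Finset.image_erase (MulAction.injective g) _ _).symm)⟩

theorem kw_supp {p p' : Finset D × Finset D} (h : kw p p' ≠ 0) :
    ∃ i ∈ p.1, i ∉ p.2 ∧ p' = (p.1, insert i p.2) := by
  rw [kw, Finsupp.finsetSum_apply] at h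
  obtain ⟨i, hi, h'⟩ := Finset.exists_ne_zero_of_sum_ne_zero h
  obtain ⟨e, h'⟩ := (mem_support_single _ _ _).1 (mem_support_iff.2 h')
  exact ⟨i, hi, Finset.disjoint_singleton_left.1 (w_ne_zero.1 h'), e⟩

theorem kw_insert {i : D} (h : i ∈ I) (h' : i ∉ J) : kw (I, J) (I, insert i J) = w {i} J := by
  rw [kw, Finsupp.finsetSum_apply, Finset.sum_eq_single_of_mem i h, single_eq_same]
  intro j _ e
  refine single_eq_of_ne fun e' => ?_
  have e1 : insert i J = insert j J := congrArg Prod.snd e'
  have : i ∈ insert j J := e1 ▸ Finset.mem_insert_self i J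
  exact (Finset.mem_insert.1 this).elim (fun e'' => e e''.symm) h'

theorem kw_unit {i : D} (h : i ∈ I) (h' : i ∉ J) : ∃ s : ℤˣ, kw (I, J) (I, insert i J) = s := by
  rw [kw_insert h h']
  exact w_unit (Finset.disjoint_singleton_left.2 h')

theorem kw_kw (p : Finset D × Finset D) : linearCombination ℤ kw (kw p) = 0 := by
  rw [kw, map_sum]
  simp only [linearCombination_single, kw, Finset.smul_sum, smul_single, smul_eq_mul]
  rw [← Finset.sum_product']
  refine Finset.sum_involution (fun p _ => p.swap) ?_ ?_ ?_ fun _ _ => rfl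
  · rintro ⟨i, j⟩ -
    dsimp only [Prod.swap]
    rw [Finset.insert_comm, ← single_add, single_eq_zero, Finset.insert_eq, Finset.insert_eq]
    linear_combination w_anti i j p.2
  · rintro ⟨i, j⟩ - h e
    obtain rfl : j = i := congrArg Prod.fst e
    refine h ?_
    rw [w_eq_zero (K := insert j p.2) (by simp), mul_zero, single_zero]
  · rintro ⟨i, j⟩ h
    exact Finset.mem_product.2 (Finset.mem_product.1 h).symm

theorem kw_smul (g : G) (p p' : Finset D × Finset D) :
    sg g p.2 * kw p p' = sg g p'.2 * kw (g • p) (g • p') := by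
  by_cases h : ∃ i ∈ p.1, i ∉ p.2 ∧ p' = (p.1, insert i p.2)
  · obtain ⟨i, hi, hi', rfl⟩ := h
    obtain ⟨I, J⟩ := p
    have h1 : g • i ∉ g • J := fun e => hi' ((Finset.smul_mem_smul_finset_iff g).1 e)
    rw [Prod.smul_mk, Prod.smul_mk, Finset.smul_finset_insert, kw_insert hi hi',
      kw_insert (Finset.smul_mem_smul_finset hi) h1, sg_insert g hi']
    linear_combination (-(sg g J * w {i} J)) * w_sq (Finset.disjoint_singleton_left.2 h1)
  · rw [show kw p p' = 0 from by_contra fun e => h (kw_supp e),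
      show kw (g • p) (g • p') = 0 from by_contra fun e => ?_, mul_zero, mul_zero]
    obtain ⟨i, hi, hi', e⟩ := kw_supp e
    obtain ⟨i, rfl⟩ := ex_smul g i
    refine h ⟨i, (Finset.smul_mem_smul_finset_iff g).1 hi,
      fun e => hi' (Finset.smul_mem_smul_finset e), MulAction.injective g (e.trans ?_)⟩
    exact Prod.ext rfl (Finset.smul_finset_insert g i p.2).symm

end Pool.Agent.Lib.NIL.EA
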