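import Pool.Agent.Lib.NIL.EA.G2a

/-! G2: restriction of functors, reindexing. -/

namespace Pool.Agent.Lib.NIL.EA

open Finsupp Pointwise

variable {L L' E E' : Type} [Ring E] [Ring E']

variable {C : Cat E L} {C' : Cat E' L'} {A V W : Raw E L}

theorem isFn_res {F : Raw E L → Raw E' L'} {m : ∀ V W : Raw E L, Lin V W → Lin (F V) (F W)}
    (h : IsFn C C' F m) (hC' : C'.Good) (p : ∀ V, (F V).ι → Prop)
    (hδ : ∀ V, C.Obj V → (F V).Closed (p V))
    (hm : ∀ k V W f, C.Hom k V W f → ∀ i i', p V i → m V W f (single i 1) i' ≠ 0 → p W i') :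
    IsFn C C' (fun V => (F V).res (p V)) fun V W f => rl (p V) (p W) (m V W f) where
  obj hV := (hC'.ses_res (h.obj hV) (hδ _ hV)).1
  hom hf := hC'.hom_res (h.hom hf) _ _
  id V := LinearMap.ext fun v => by
    rw [h.id]
    exact prj_inc Subtype.val_injective v
  add V W f g := by rw [h.add, rl, LinearMap.add_comp, LinearMap.comp_add]
  comp hf hg := LinearMap.ext fun v => by
    rw [h.comp hf hg]
    exact congrArg (fun x => prj Subtype.val Subtype.val_injective (m _ _ _ x))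
      (inc_res_map _ (hm _ _ _ _ hf) v).symm
  br {k V W f g} hV hW hf hb v := by
    have e := h.br hV hW hf hb (inc Subtype.val v)
    rw [← Cat.inc_D_res (hδ V hV)] at e
    rw [Cat.D_res]
    simp only [LinearMap.comp_apply]
    rw [inc_res_map _ (hm _ _ _ _ hf), e, map_add, Units.smul_def, Units.smul_def, map_zsmul]

/-- same matrices, isomorphic labels -/
theorem eqv_of_bij (hC : C.Good) (e : V.ι → W.ι) (he : Function.Bijective e)
    (hd : ∀ i, W.deg (e i) = V.deg i)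
    (hl : ∀ i, (1 : E) ∈ C.H 0 (V.lab i) (W.lab (e i)) ∧ (1 : E) ∈ C.H 0 (W.lab (e i)) (V.lab i))
    (hδ : ∀ i i', W.δ (single (e i) 1) (e i') = V.δ (single i 1) i') : C.Eqv V W := by
  let ε := Equiv.ofBijective e he
  have h1 : C.Hom 0 V W (inc ε) := fun i => by
    rw [inc_single]
    refine Cat.single_mem_M ?_
    rw [show W.deg (ε i) = V.deg i from hd i, add_zero, sub_self]
    exact (hl i).1
  have h2 : C.Hom 0 W V (inc ε.symm) := fun j => by
    obtain ⟨i, rfl⟩ := ε.surjective j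
    rw [inc_single, ε.symm_apply_apply]
    refine Cat.single_mem_M ?_
    rw [show W.deg (ε i) = V.deg i from hd i, add_zero, sub_self]
    exact (hl i).2
  refine ⟨inc ε, (hC.isEqv_of_inv ⟨h1, Cat.D_inc ε hd hδ⟩ h2 ?_ ?_).1⟩
  · rw [← lmapDomain_comp, ε.symm_comp_self, lmapDomain_id]
  · rw [← lmapDomain_comp, ε.self_comp_symm, lmapDomain_id]

theorem eqv_res_of_emb (hC : C.Good) (p : V.ι → Prop) (e : A.ι → V.ι) (he : Function.Injective e)
    (hp : ∀ i, p i ↔ ∃ a, e a = i) (hd : ∀ i, V.deg (e i) = A.deg i)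
    (hl : ∀ i, (1 : E) ∈ C.H 0 (A.lab i) (V.lab (e i)) ∧ (1 : E) ∈ C.H 0 (V.lab (e i)) (A.lab i))
    (hδ : ∀ i i', V.δ (single (e i) 1) (e i') = A.δ (single i 1) i') : C.Eqv A (V.res p) :=
  eqv_of_bij (W := V.res p) hC (fun a => ⟨e a, (hp _).2 ⟨a, rfl⟩⟩)
    ⟨fun _ _ h => he (congrArg Subtype.val h), fun i =>
      let ⟨a, ha⟩ := (hp _).1 i.2; ⟨a, Subtype.ext ha⟩⟩ hd hl
    fun i i' => (Raw.res_δ p _ _).trans (hδ i i')

theorem g2_closed_res (p : V.ι → Prop) {q : V.ι → Prop} (hq : V.Closed q) :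
    (V.res p).Closed fun i => q i.1 := fun i i' hi h => hq _ _ hi (by rwa [Raw.res_δ] at h)

theorem g2_rx_res_res (p q r : V.ι → Prop) (h : ∀ i, r i ↔ p i ∧ q i) :
    ((V.res p).res fun i => q i.1).Rx (V.res r) :=
  ⟨⟨fun i => ⟨i.1.1, (h _).2 ⟨i.1.2, i.2⟩⟩, fun i => ⟨⟨i.1, ((h _).1 i.2).1⟩, ((h _).1 i.2).2⟩,
    fun _ => rfl, fun _ => rfl⟩, fun _ => rfl, fun _ => rfl, fun i i' => by
      rw [Raw.res_δ, Raw.res_δ, Raw.res_δ]
      rfl⟩

/-- a locally closed set of generators spans an object -/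
theorem obj_res (hC : C.Good) (hV : C.Obj V) {p q : V.ι → Prop} (hp : V.Closed p)
    (hq : V.Closed q) : C.Obj (V.res fun i => p i ∧ ¬ q i) :=
  Cat.obj_rx (g2_rx_res_res p (fun i => ¬ q i) _ fun _ => Iff.rfl)
    (hC.ses_res (hC.ses_res hV hp).1 (g2_closed_res p hq)).2.2.1

/-- two out of three for nested closed sets of generators -/
theorem ctr_res_of (hC : C.Good) (hV : C.Obj V) {p q : V.ι → Prop} (hp : V.Closed p)
    (hq : V.Closed q) (hqp : ∀ i, q i → p i) (h1 : C.Ctr (V.res q))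
    (h2 : C.Ctr (V.res fun i => p i ∧ ¬ q i)) : C.Ctr (V.res p) :=
  hC.ses_ctr_mid (hC.ses_res (hC.ses_res hV hp).1 (g2_closed_res p hq))
    (hC.ctr_of_retr (hC.eqv_rx (g2_rx_res_res p q q fun i => ⟨fun h => ⟨hqp i h, h⟩, And.right⟩)).retr h1)
    (hC.ctr_of_retr (hC.eqv_rx (g2_rx_res_res p (fun i => ¬ q i) _ fun _ => Iff.rfl)).retr h2)

theorem ctr_of_relab {C₁ : Cat E L'} {l : L → L'} (hd : C₁.d = C.d)
    (h : ∀ k o o', C₁.H k (l o) (l o') ≤ C.H k o o') (e : C₁.Ctr (V.relab l)) : C.Ctr V := by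
  obtain ⟨f, h1, h2⟩ := e
  refine ⟨f, fun i j => h _ _ _ (h1 i j), fun v => ?_⟩
  have := h2 v
  rwa [Cat.D, hd] at this

theorem diag_zero (h : V.WF) (i : V.ι) : V.δ (single i 1) i = 0 :=
  by_contra fun e => h.asymmetric _ _ e e

end Pool.Agent.Lib.NIL.EA
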