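import Pool.Agent.Lib.NIL.EA.Blue
import Pool.Agent.Lib.NIL.EA.G1
import Pool.Agent.Lib.NIL.EA.G2

/-! Block A1: the layers of the cover are transfers. -/

namespace Pool.Agent.Lib.NIL.EA

open Finsupp Pointwise

namespace A1

variable {G D : Type} [Group G] [LinearOrder D] [MulAction G D] [MulAction G (Pt D)] [Aff G D]

variable (G D) in
/-- the signed transfer -/
noncomputable abbrev Tr :
    BM (RG G) (Finset D × Pt D) (RG G) (Finset D × Finset D × Pt D) (Finset D) :=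
  pB sg (fun J => J.card) (fun o J => (o.1 ∪ J, J, o.2)) fun _ => 0

theorem isBM_Tr : IsBM (T1 G D) (T2 G D) (Tr G D) := by
  refine isBM_pB isRel2 sg_one (fun g h J => by rw [sg_mul])
    (fun g J => by rw [Finset.card_smul_finset])
    (fun g o o' J h => ⟨?_, subset_rfl, fun i hi hj => ?_⟩) (fun _ _ h => absurd rfl h)
    (fun _ => map_zero _) fun _ _ _ => by simp
  · change o.1 ∪ g • J = g • (o'.1 ∪ J)
    rw [Finset.smul_finset_union, h.1]
    rfl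
  · exact h.2 i ((Finset.mem_union.1 hi).resolve_right hj)

theorem ex_coeff {a : RG G} (h : a ≠ 0) : ∃ g, a.coeff g ≠ 0 := by
  by_contra h0
  exact h (MonoidAlgebra.ext (Finsupp.ext fun g => by_contra fun h1 => h0 ⟨g, h1⟩))

omit [MulAction G (Pt D)] [Aff G D] in
theorem tag_smul {k : ℕ} {g : G} {I J : Finset D}
    (h : Disjoint (g • J) (g • I) ∧ (g • I).card + (g • J).card = k) :
    Disjoint J I ∧ I.card + J.card = k := by
  simp only [Finset.card_smul_finset] at h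
  refine ⟨Finset.disjoint_left.2 fun i hi hi' => ?_, h.2⟩
  exact Finset.disjoint_left.1 h.1 (Finset.smul_mem_smul_finset hi) (Finset.smul_mem_smul_finset hi')

omit [MulAction G (Pt D)] [Aff G D] in
theorem tag_iff {g : G} {I I' J J' : Finset D} (h : Disjoint J I) (h' : Disjoint J' I') :
    g • (I' ∪ J', J') = (I ∪ J, J) ↔ g • J' = J ∧ g • I' = I := by
  rw [Prod.smul_mk, Prod.mk.injEq, Finset.smul_finset_union]
  refine ⟨fun ⟨h1, h2⟩ => ⟨h2, ?_⟩, fun ⟨h1, h2⟩ => ⟨by rw [h1, h2], h1⟩⟩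
  rw [← Finset.union_sdiff_cancel_right h.symm, ← h1, ← h2, ← Finset.smul_finset_union,
    ← Finset.smul_finset_sdiff, Finset.union_sdiff_cancel_right h'.symm]

end A1

open A1 in
theorem st_a1 (hL : St_LAM) : St_A1 := by
  classical
  intro G D _ _ _ _ _ _ k Z hZ hk
  obtain ⟨hB, -, hΛ⟩ := hL G D
  have g1 : (T1 G D).Good := isRel1.good
  have g2 : (T2 G D).Good := isRel2.good
  have hV := (g1.ses_res ((hB.isFn isRel0.good g1).obj hZ)
    ((hΛ Z hZ).1 (fun I => I.card < k) fun g I h => by rwa [Finset.card_smul_finset] at h)).1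
  have hF := isFn_res (isBM_Tr.isFn g1 g2) g2
    (fun V p => Disjoint p.2 (V.lab p.1).1 ∧ (V.lab p.1).1.card + p.2.card = k)
    (fun V hV ⟨y, J⟩ ⟨y', J'⟩ hp h => by
      obtain ⟨g, hg⟩ := ex_coeff h
      rcases pB_supp hg with ⟨rfl, h2⟩ | ⟨-, -, h3⟩
      · exact tag_smul (g := g) (by rwa [(rc_hom.1 hV.1 _ _ _ h2).1.1] at hp)
      · exact absurd rfl h3)
    fun _ V W f hf ⟨y, J⟩ ⟨y', J'⟩ hp h => by
      obtain ⟨g, hg⟩ := ex_coeff h
      rw [bmL_pact] at hg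
      obtain ⟨rfl, h2⟩ := pent_supp hg
      exact tag_smul (g := g) (by rwa [(rc_hom.1 hf _ _ _ h2).1.1] at hp)
  refine g2.ctr_of_retr (Cat.Eqv.retr (Cat.Eqv.symm ?_)) (hF.ctr hV hk)
  refine eqv_of_bij g2 (fun p => ⟨(p.1.1.1.1, p.1.1.1.2 ∪ p.1.2, p.1.2),
      ⟨(Finset.card_union_of_disjoint p.2.1.symm).trans p.2.2, Finset.subset_union_right⟩,
      fun h => ?_⟩) ⟨?_, ?_⟩ (fun p => ?_) (fun p => ⟨g2.one_mem _, g2.one_mem _⟩) ?_
  · have h1 : p.1.1.1.2.card + p.1.2.card = k := p.2.2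
    have h2 : p.1.1.1.2.card < k := p.1.1.2
    rw [show p.1.2 = ∅ from h, Finset.card_empty] at h1
    omega
  · rintro ⟨⟨⟨⟨z, I⟩, h1⟩, J⟩, h2⟩ ⟨⟨⟨⟨z', I'⟩, h1'⟩, J'⟩, h2'⟩ h
    obtain ⟨rfl, h3⟩ := Prod.mk.inj (congrArg Subtype.val h)
    obtain ⟨h4, h5⟩ := (tag_iff (g := (1 : G)) h2'.1 h2.1).1 ((one_smul _ _).trans h3)
    rw [one_smul] at h4 h5
    subst h4 h5
    rfl
  · rintro ⟨⟨z, I, J⟩, ⟨h1, h2⟩, h3⟩
    have h4 : (I \ J).card + J.card = k := (Finset.card_sdiff_add_card_eq_card h2).trans h1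
    have h5 : 0 < J.card := Finset.card_pos.2 (Finset.nonempty_iff_ne_empty.2 h3)
    exact ⟨⟨(⟨(z, I \ J), show (I \ J).card < k by omega⟩, J), Finset.disjoint_sdiff, h4⟩,
      Subtype.ext (Prod.ext rfl (Prod.ext (Finset.sdiff_union_of_subset h2) rfl))⟩
  · exact congrArg (· + _) (add_zero _).symm
  · rintro ⟨⟨⟨⟨z, I⟩, h1⟩, J⟩, h2⟩ ⟨⟨⟨⟨z', I'⟩, h1'⟩, J'⟩, h2'⟩
    rw [Raw.res_δ, Raw.res_δ, pB_δ, pB_δ, Raw.res_δ, pB_δ]
    simp only [Finsupp.coe_zero, Pi.zero_apply, Int.cast_zero, smul_zero, ite_self, add_zero]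
    refine MonoidAlgebra.ext (Finsupp.ext fun g => ?_)
    rw [pent_coeff, pent_coeff, pent_coeff, if_congr (tag_iff h2.1 h2'.1) rfl rfl]
    by_cases h3 : g • J' = J <;> by_cases h4 : g • I' = I <;> simp [h3, h4]

end Pool.Agent.Lib.NIL.EA
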