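import Pool.Agent.Lib.NIL.EA.G2

/-! G3: matchings, perturbations, base change to the integers, lowering of labels. -/

namespace Pool.Agent.Lib.NIL.EA

open Finsupp Pointwise

variable {E L : Type} [Ring E] {C : Cat E L} {V : Raw E L}

theorem Mt.ctr_top {α : Type} [Preorder α] [WellFoundedLT α] {up : V.ι → Prop} {m : V.ι → V.ι}
    {ρ : V.ι → α} (h : Mt C V (fun _ => True) up m ρ) (hC : C.Good) (hV : C.Obj V) :
    C.Ctr V := by
  classical
  have mm : ∀ i, m (m i) = i := fun i => h.mm i trivial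
  have um : ∀ i, up (m i) ↔ ¬ up i := fun i => h.um i trivial
  have ρm : ∀ i, ρ (m i) = ρ i := fun i => h.ρm i trivial
  have low := fun i i' => h.low i i' trivial trivial
  obtain ⟨s, hs⟩ : ∃ s : V.ι → ℤˣ, ∀ i, up i → V.δ (single i 1) (m i) = s i • 1 := by
    choose s hs using fun i (hi : up i) => h.unit i trivial hi
    exact ⟨fun i => if hi : up i then s i hi else 1, fun i hi => by simp only [dif_pos hi, hs i hi]⟩
  obtain ⟨H, hb⟩ : ∃ H : Lin V V, ∀ i, H (single i 1) =
      if up i then 0 else s (m i) • single (m i) 1 :=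
    ⟨lc fun i => if up i then 0 else s (m i) • single (m i) 1,
      fun i => by rw [linearCombination_single, one_smul]⟩
  have ss : ∀ (k) (x : E), s k • s k • x = x := fun k x => by
    rw [smul_smul, Int.units_mul_self, one_smul]
  have hv : ∀ v i', H v i' = if up i' then s i' • v (m i') else 0 := by
    intro v i'
    induction v using Finsupp.induction_linear with
    | zero => simp
    | add a a' ha ha' =>
      rw [map_add, Finsupp.add_apply, ha, ha']
      split_ifs <;> simp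
    | single i x =>
      rw [← smul_single_one, map_smul, hb]
      by_cases e : m i = i'
      · subst e
        by_cases hi : up i
        · simp [hi, um]
        · simp [hi, um, mm, mul_smul_comm]
      · have e' : ¬ i = m i' := fun e' => e (by rw [e', mm])
        by_cases hi : up i <;> simp [hi, e, e']
  have hh : C.Hom (-1) V V H := fun i => by
    rw [hb]
    split_ifs with hi
    · exact zero_mem _
    · have hj : up (m i) := (um i).2 hi
      have h1 := h.deg _ trivial hj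
      have h2 := h.lab _ trivial hj
      rw [mm] at h1 h2
      rw [Units.smul_def]
      refine zsmul_mem (Cat.single_mem_M ?_) _
      rwa [h1, add_neg_cancel_right, sub_self]
  obtain ⟨g, -, hg⟩ := hC.exists_br hV.1 hV.1 hh
  refine hC.ctr_of_ln (n := LinearMap.id - g) hV hh (by rwa [lin_sub_sub]) ?_
  refine ln_of_wf (InvImage.wf ρ wellFounded_lt) fun i i' hne => ?_
  change ρ i' < ρ i
  by_contra hlt
  apply hne
  have e1 : g (single i 1) = C.D V (H (single i 1)) + H (V.δ (single i 1)) := by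
    rw [hg, Int.negOnePow_neg, Int.negOnePow_one, Units.neg_smul, one_smul, hC.D_single]
    abel
  rw [LinearMap.sub_apply, LinearMap.id_apply, e1, Finsupp.sub_apply, Finsupp.add_apply, hv, hb,
    sub_eq_zero]
  by_cases hi : up i
  · rw [if_pos hi, map_zero, Finsupp.zero_apply, zero_add]
    by_cases e : i = i'
    · subst e
      rw [if_pos hi, hs i hi, ss, single_eq_same]
    · have : V.δ (single i 1) (m i') = 0 := by
        by_contra h0
        rcases low _ _ h0 with h1 | ⟨-, h1⟩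
        · exact hlt (ρm i' ▸ h1)
        · exact e (by rw [← mm i, ← h1, mm])
      rw [this, single_eq_of_ne (Ne.symm e), smul_zero, ite_self]
  · have hj : up (m i) := (um i).2 hi
    have h0 : V.δ (single i 1) (m i') = 0 := by
      by_contra h0
      rcases low _ _ h0 with h1 | ⟨h1, -⟩
      · exact hlt (ρm i' ▸ h1)
      · exact hi h1
    rw [if_neg hi, h0, smul_zero, ite_self, add_zero, Units.smul_def, map_zsmul, hC.D_single,
      ← Units.smul_def, Finsupp.smul_apply]
    by_cases e : i = i'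
    · subst e
      have := hs _ hj
      rw [mm] at this
      rw [this, ss, single_eq_same]
    · have : V.δ (single (m i) 1) i' = 0 := by
        by_contra h0
        rcases low _ _ h0 with h1 | ⟨-, h1⟩
        · exact hlt (ρm i ▸ h1)
        · exact e (by rw [h1, mm])
      rw [this, single_eq_of_ne (Ne.symm e), smul_zero]

theorem Mt.res {α : Type} [Preorder α] {q up : V.ι → Prop} {m : V.ι → V.ι}
    {ρ : V.ι → α} (h : Mt C V q up m ρ) : Mt C (V.res q) (fun _ => True) (fun i => up i.1)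
      (fun i => ⟨m i.1, h.qm _ i.2⟩) fun i => ρ i.1 where
  qm _ _ := trivial
  mm i _ := Subtype.ext (h.mm _ i.2)
  um i _ := h.um _ i.2
  ρm i _ := h.ρm _ i.2
  deg i _ := h.deg _ i.2
  lab i _ := h.lab _ i.2
  unit i _ hi := by
    rw [Raw.res_δ]
    exact h.unit _ i.2 hi
  low i i' _ _ h0 := by
    rw [Raw.res_δ] at h0
    exact (h.low _ _ i.2 i'.2 h0).imp_right fun h1 => ⟨h1.1, Subtype.ext h1.2⟩

theorem Mt.ctr {α : Type} [Preorder α] [WellFoundedLT α] {q up : V.ι → Prop} {m : V.ι → V.ι}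
    {ρ : V.ι → α} (h : Mt C V q up m ρ) (hC : C.Good) (hV : C.Obj (V.res q)) :
    C.Ctr (V.res q) := h.res.ctr_top hC hV

theorem Mt.tors {up : V.ι → Prop} {m : V.ι → V.ι} {ρ : V.ι → ℕ}
    (h : Mt C V (fun _ => True) up m ρ) [Finite V.ι] (hV : (tcat E L).Obj V)
    {Q : AddSubgroup (WhDet.K1 E)} (hQ : negCl E ∈ Q) : Tors Q V := by
  classical
  have mm : ∀ i, m (m i) = i := fun i => h.mm i trivial
  have um : ∀ i, up (m i) ↔ ¬ up i := fun i => h.um i trivial
  have ρm : ∀ i, ρ (m i) = ρ i := fun i => h.ρm i trivial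
  choose s hs using fun k : {i // up i} => h.unit k.1 trivial k.2
  let e : {i // up i} × Bool ≃ V.ι :=
    { toFun := fun p => if p.2 = true then p.1.1 else m p.1.1
      invFun := fun i => if hi : up i then (⟨i, hi⟩, true) else (⟨m i, (um i).2 hi⟩, false)
      left_inv := by
        rintro ⟨⟨i, hi⟩, _ | _⟩
        · have : ¬ up (m i) := fun h' => (um i).1 h' hi
          simp [this, mm]
        · simp [hi]
      right_inv := fun i => by
        by_cases hi : up i <;> simp [hi, mm] }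
  have et : ∀ k, e (k, true) = k.1 := fun _ => rfl
  have ef : ∀ k, e (k, false) = m k.1 := fun _ => rfl
  have eρ : ∀ k b, ρ (e (k, b)) = ρ k.1 := fun k b => by
    cases b
    · rw [ef, ρm]
    · rw [et]
  rw [← tors_relab fun _ => ()]
  refine tors_disky (V := V.relab fun _ => ()) hQ (tcat_obj.2 (tcat_obj.1 hV))
    ⟨_, e, fun k => ρ k.1, s, fun k => h.deg _ trivial k.2, fun _ => rfl, fun k b k' b' hk => ?_⟩
  change V.δ (single (e (k, b)) 1) (e (k', b')) = _
  by_cases hc : (k, true, false) = (k', b, b')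
  · obtain ⟨rfl, rfl, rfl⟩ := hc
    rw [single_eq_same, et, ef, hs]
  · rw [single_eq_of_ne (Ne.symm hc)]
    by_contra h0
    rcases h.low _ _ trivial trivial h0 with h1 | ⟨h1, h2⟩
    · rw [eρ, eρ] at h1
      exact absurd hk (not_le.2 h1)
    · cases b
      · exact (um _).1 (ef k ▸ h1) k.2
      · rw [et, ← ef] at h2
        obtain ⟨rfl, rfl⟩ := e.injective h2
        exact hc rfl

theorem ctr_of_pert (hC : C.Good) (hV : C.Obj V) {δ₀ : Lin V V}
    (h0 : C.Ctr ⟨V.ι, V.deg, V.lab, δ₀⟩) (ρ : L → ℕ)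
    (hρ : ∀ k o o' a, a ∈ C.H k o o' → a ≠ 0 → ρ o' ≤ ρ o)
    (hδ : ∀ i i', (V.δ - δ₀) (single i 1) i' ≠ 0 → ρ (V.lab i') < ρ (V.lab i)) : C.Ctr V := by
  obtain ⟨H, hH, e⟩ := h0
  have hH' : C.Hom (-1) V V H := hH
  have hle : ∀ i i', H (single i 1) i' ≠ 0 → ρ (V.lab i') ≤ ρ (V.lab i) := fun i i' h =>
    hρ _ _ _ _ (hH' i i') h
  refine hC.ctr_of_ln (h := H) (n := -((V.δ - δ₀) ∘ₗ H + H ∘ₗ (V.δ - δ₀))) hV hH' (fun v => ?_) ?_
  · have e1 : ∀ w, C.D ⟨V.ι, V.deg, V.lab, δ₀⟩ w = C.D V w - (V.δ - δ₀) w := fun w => by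
      change δ₀ w + V.tw C.d w = V.δ w + V.tw C.d w - (V.δ w - δ₀ w)
      abel
    have e2 : v - 0 = C.D V (H v) - (V.δ - δ₀) (H v) + H (C.D V v - (V.δ - δ₀) v) := by
      rw [← e1, ← e1]
      exact e v
    rw [Int.negOnePow_neg, Int.negOnePow_one, Units.neg_smul, one_smul]
    rw [map_sub, sub_zero] at e2
    change _ = -H (C.D V v) + (v - -((V.δ - δ₀) (H v) + H ((V.δ - δ₀) v)))
    generalize (V.δ - δ₀) (H v) = a at *
    generalize H ((V.δ - δ₀) v) = b at *
    generalize H (C.D V v) = c at *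
    generalize C.D V (H v) = d at *
    rw [e2]
    abel
  · refine ln_of_wf (InvImage.wf (fun i => ρ (V.lab i)) wellFounded_lt) fun i i' hne => ?_
    change ρ (V.lab i') < ρ (V.lab i)
    have h1 : (V.δ - δ₀) (H (single i 1)) i' + H ((V.δ - δ₀) (single i 1)) i' ≠ 0 :=
      neg_ne_zero.1 hne
    by_cases h2 : (V.δ - δ₀) (H (single i 1)) i' = 0
    · rw [h2, zero_add] at h1
      exact supp_map (p := fun j => ρ (V.lab j) < ρ (V.lab i))
        (p' := fun j => ρ (V.lab j) < ρ (V.lab i)) H (fun j j' a b => (hle j j' b).trans_lt a)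
        (hδ i) i' h1
    · exact supp_map (p := fun j => ρ (V.lab j) ≤ ρ (V.lab i))
        (p' := fun j => ρ (V.lab j) < ρ (V.lab i)) (V.δ - δ₀)
        (fun j j' a b => (hδ j j' b).trans_le a) (hle i) i' h2

theorem homF_int (C : Cat E L) :
    IsHomF C (C.bc ℤ) (TensorProduct.mk ℤ ℤ E 1).toAddMonoidHom id :=
  ⟨fun ha => tmul_mem_bcF _ ha, rfl, fun _ _ => by simp, fun _ => (lT_tmul _ _ _).symm⟩

theorem homF_lid (C : Cat E L) :
    IsHomF (C.bc ℤ) C (Algebra.TensorProduct.lid ℤ E).toRingEquiv.toAddMonoidHom id := by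
  refine ⟨fun ha => ?_, map_one (Algebra.TensorProduct.lid ℤ E),
    fun _ _ => map_mul (Algebra.TensorProduct.lid ℤ E) _ _, fun {_ _ _ a} ha => ?_⟩
  · refine bcF_induction (p := fun z => Algebra.TensorProduct.lid ℤ E z ∈ C.H _ _ _) ha
      (fun b e he => zsmul_mem he b) (by rw [map_zero]; exact zero_mem _) fun x y _ _ hx hy => ?_
    rw [map_add]
    exact add_mem hx hy
  · change Algebra.TensorProduct.lid ℤ E (lT ℤ C.d a) = C.d (Algebra.TensorProduct.lid ℤ E a)
    clear ha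
    induction a using TensorProduct.induction_on with
    | zero => simp
    | tmul b e => exact (map_zsmul C.d b e).symm
    | add x y hx hy => simp only [map_add, hx, hy]

theorem inO_int (hC : C.Good) (hV : C.Obj V)
    (h : (C.bc ℤ).InO (V.mapA (TensorProduct.mk ℤ ℤ E 1).toAddMonoidHom id)) : C.InO V := by
  have k := (homF_lid C).inO (hC.bc ℤ) hC (((homF_int C).isFn hC (hC.bc ℤ)).obj hV) h
  rwa [Raw.mapA_mapA, show (Algebra.TensorProduct.lid ℤ E).toRingEquiv.toAddMonoidHom.comp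
    (TensorProduct.mk ℤ ℤ E 1).toAddMonoidHom = AddMonoidHom.id E from
      AddMonoidHom.ext fun a => one_smul ℤ a, Raw.mapA_id] at k

theorem P_int (hC : C.Good) (h : (C.bc ℤ).P) : C.P := fun _ hM hf hp =>
  have f := (homF_int C).isFn hC (hC.bc ℤ)
  inO_int hC hM (h _ (f.obj hM) hf (f.perf (fun _ _ hW => hW.mapA _ id) hM hp))

theorem Q_int (hC : C.Good) (h : (C.bc ℤ).Q) : C.Q := fun _ hM hp =>
  have f := (homF_int C).isFn hC (hC.bc ℤ)
  inO_int hC hM (h _ (f.obj hM) (f.perf (fun _ _ hW => hW.mapA _ id) hM hp))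

theorem exists_bound {G ι κ D : Type} [Group G] [Finite ι] [Finite D] (v : ι → κ →₀ RG G)
    (F : κ → G → D → ℤ) : ∃ M : ℕ, ∀ i z g x, (v i z).coeff g ≠ 0 → -(M : ℤ) ≤ F z g x := by
  have hf : (⋃ i, ⋃ z ∈ ((v i).support : Set κ), ⋃ g ∈ ((v i z).coeff.support : Set G),
      Set.range (F z g)).Finite :=
    Set.finite_iUnion fun i => (Finset.finite_toSet _).biUnion fun z _ =>
      (Finset.finite_toSet _).biUnion fun g _ => Set.finite_range _
  obtain ⟨b, hb⟩ := hf.bddBelow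
  refine ⟨b.natAbs, fun i z g x h => le_trans (by omega) (hb ?_)⟩
  simp only [Set.mem_iUnion]
  refine ⟨i, z, mem_support_iff.2 fun e => h ?_, g, mem_support_iff.2 h, x, rfl⟩
  rw [e]; rfl

variable {G D : Type} [Group G] [LinearOrder D] [MulAction G D] [MulAction G (Pt D)] [Aff G D]
  [Fintype D]

/-- the coordinates outside the strata can be chosen very negative -/
theorem exists_low {V : Raw (RG G) (Finset D × Pt D)} {Z : Raw (RG G) (Pt D)}
    (hV : (T1 G D).Obj V) [Finite V.ι] (ρ : V.ι → ℕ)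
    (hρ : ∀ i i' g, (V.δ (single i 1) i').coeff g ≠ 0 → ρ i' < ρ i ∨ g = 1 ∧ ρ i' = ρ i)
    (f : (V.ι →₀ RG G) →ₗ[RG G] (Z.ι →₀ RG G))
    (hf : ∀ i z g, (f (single i 1) z).coeff g ≠ 0 → Z.deg z = V.deg i ∧
      ∀ x ∈ (V.lab i).1, (V.lab i).2 x ≤ (g • Z.lab z) x) :
    ∃ pos : V.ι → Pt D, (∀ i, ∀ x ∈ (V.lab i).1, pos i x = (V.lab i).2 x) ∧
      (∀ i i' x, ρ i = ρ i' → x ∉ (V.lab i).1 → x ∉ (V.lab i').1 → pos i x = pos i' x) ∧
      (T0 G D).Obj ⟨V.ι, V.deg, pos, V.δ⟩ ∧ (T0 G D).Hom 0 ⟨V.ι, V.deg, pos, V.δ⟩ Z f := by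
  obtain ⟨M₁, h₁⟩ := exists_bound (fun i => V.δ (single i 1)) fun _ g x => (g • (0 : Pt D)) x
  obtain ⟨M₂, h₂⟩ := exists_bound (fun i => f (single i 1)) fun z g x => (g • Z.lab z) x
  let pos : V.ι → Pt D := fun i x =>
    if x ∈ (V.lab i).1 then (V.lab i).2 x else -((M₁ + M₂ : ℕ) * (ρ i + 1 : ℕ) : ℕ)
  have hin : ∀ i, ∀ x ∈ (V.lab i).1, pos i x = (V.lab i).2 x := fun i x hx => if_pos hx
  have hout : ∀ i, ∀ x ∉ (V.lab i).1, pos i x = -((M₁ + M₂ : ℕ) * (ρ i + 1 : ℕ) : ℕ) :=
    fun i x hx => if_neg hx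
  refine ⟨pos, hin, fun i i' x e hx hx' => by rw [hout i x hx, hout i' x hx', e],
    ⟨rc_hom.2 fun i i' g hg => ?_, fun v => ?_⟩, rc_hom.2 fun i z g hg => ?_⟩
  · obtain ⟨⟨e, hle⟩, hd⟩ := rc_hom.1 hV.1 i i' g hg
    refine ⟨fun x => ?_, hd⟩
    obtain ⟨x, rfl⟩ := ex_smul g x
    have e' : (V.lab i).1 = g • (V.lab i').1 := e
    change pos i (g • x) ≤ (g • pos i') (g • x)
    by_cases hx : x ∈ (V.lab i').1
    · have hx' : g • x ∈ (V.lab i).1 := e' ▸ Finset.smul_mem_smul_finset hx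
      rw [hin _ _ hx', (smul_eq g).2 (hin _ _ hx)]
      exact hle _ hx'
    · have hx' : g • x ∉ (V.lab i).1 := fun h =>
        hx ((Finset.smul_mem_smul_finset_iff g).1 (e' ▸ h))
      rcases hρ i i' g hg with h | ⟨rfl, h⟩
      · have a1 := Aff.aff g (pos i') 0 x
        have a2 := h₁ i i' g (g • x) hg
        have a3 : (M₁ + M₂) * (ρ i' + 1) + M₁ ≤ (M₁ + M₂) * (ρ i + 1) := by nlinarith
        rw [hout _ _ hx, Pi.zero_apply] at a1
        rw [hout _ _ hx']
        omega
      · rw [one_smul] at hx'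
        rw [one_smul, one_smul, hout _ _ hx, hout _ _ hx', h]
  · have := hV.2 v
    rw [bcat_D, bcat_D] at this ⊢
    exact this
  · obtain ⟨hd, hle⟩ := hf i z g hg
    refine ⟨fun x => ?_, by rw [hd, add_zero]⟩
    change pos i x ≤ _
    by_cases hx : x ∈ (V.lab i).1
    · rw [hin _ _ hx]; exact hle x hx
    · have a2 := h₂ i z g x hg
      have a3 : M₂ ≤ (M₁ + M₂) * (ρ i + 1) := by nlinarith
      rw [hout _ _ hx]
      omega

end Pool.Agent.Lib.NIL.EA
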