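import Pool.Agent.Lib.NIL.EA.Blue
import Pool.Agent.Lib.NIL.EA.G3
import Pool.Agent.Lib.NIL.A7

/-! Block B: the top stratum comes from a finite module over the exterior algebra. -/

namespace Pool.Agent.Lib.NIL.EA

open Finsupp Pointwise

theorem st_b (hL : St_LAM) (hΨ : St_PSI) (hP : St_PP) (hK : St_KZ) (hA : St_A) : St_B := by
  intro G D _ _ _ _ _ _ k E Λ _ S ξ ent hS
  intro hLev hQ Z hZ hf hH
  obtain ⟨-, hM, hKz, -⟩ := (hL G D).2.2 Z hZ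
  obtain ⟨-, fΨ, fΦ, hb, -⟩ := hΨ G D k E Λ S ξ ent hS
  obtain ⟨m, hr⟩ := hA G D k Z hZ hf.1 hH
  have au := hS.sys.aug' le_rfl
  have hV := fΨ.obj (hM k).1
  have perf := au.good.perf_of_retr (fΨ.retr (hM k).1 (hKz k m) hr)
    (hK G D k E Λ S ξ ent hS Z m hZ hf).perf
  have i0 := Q_int au.good₀ hQ _ (au.fnU.obj hV)
    (au.fnU.perf (fun W _ h => h.mapA _ _) hV perf)
  obtain ⟨Y, hY, hYf, e⟩ := au.inO_of_P le_rfl (P_int au.good (hLev E Λ S hS.sys)) hV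
    (hb _ (Raw.bdd_of_finite ((hM k).2 hf).1)) (.inl perf) i0
  exact ⟨Y, hY, hYf, (isRel1 (G := G) (D := D)).good.eqv_trans (fΦ.eqv hV hY e).symm
    (hP G D k E Λ S ξ ent hS _ (hM k).1 ((hM k).2 hf) fun i => i.2)⟩

end Pool.Agent.Lib.NIL.EA
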