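import Pool.Agent.Lib.NIL.EA.Blue
import Pool.Agent.Lib.NIL.EA.G1
import Pool.Agent.Lib.NIL.EA.G3
import Pool.Agent.Lib.NIL.WhE

/-! C1: away from the diagonal the Koszul complexes are contractible. -/

set_option linter.unusedSectionVars false

namespace Pool.Agent.Lib.NIL.EA

open Finsupp Pointwise

namespace C1

variable {G D : Type} [Group G] [LinearOrder D] [MulAction G D] [MulAction G (Pt D)]

theorem ex_coeff {a : RG G} (h : a ≠ 0) : ∃ g, a.coeff g ≠ 0 := by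
  by_contra hn
  refine h (MonoidAlgebra.coeff_injective (Finsupp.ext fun g => ?_))
  exact by_contra fun e => hn ⟨g, e⟩

/-- remove or insert `x` -/
def flip (x : D) (A : Finset D) : Finset D := if x ∈ A then A.erase x else insert x A

theorem flip_of_mem {x : D} {A : Finset D} (h : x ∈ A) : flip x A = A.erase x := if_pos h

theorem flip_flip (x : D) (A : Finset D) : flip x (flip x A) = A := by
  unfold flip
  by_cases h : x ∈ A
  · rw [if_pos h, if_neg (Finset.notMem_erase x A), Finset.insert_erase h]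
  · rw [if_neg h, if_pos (Finset.mem_insert_self x A), Finset.erase_insert h]

theorem mem_flip (x : D) (A : Finset D) : x ∈ flip x A ↔ x ∉ A := by
  unfold flip
  by_cases h : x ∈ A <;> simp [h]

theorem flip_erase (x : D) (A : Finset D) : (flip x A).erase x = A.erase x := by
  unfold flip
  split_ifs <;> simp

theorem flip_sub {x : D} {A I : Finset D} (hx : x ∈ I) (h : A ⊆ I) : flip x A ⊆ I := by
  unfold flip
  split_ifs
  · exact (Finset.erase_subset x A).trans h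
  · exact Finset.insert_subset hx h

theorem card_erase_lt {x i : D} {A : Finset D} (hi : i ∈ A) (h : i ≠ x) :
    ((A.erase i).erase x).card < (A.erase x).card := by
  rw [Finset.erase_right_comm]
  exact Finset.card_erase_lt_of_mem (Finset.mem_erase.2 ⟨h, hi⟩)

theorem lex_lt [Fintype D] {a b : ℕ} (h : a < b) (A B : Finset D) :
    (Fintype.card D + 1) * a + A.card < (Fintype.card D + 1) * b + B.card := by
  have h1 := A.card_le_univ
  have h2 : (Fintype.card D + 1) * (a + 1) ≤ (Fintype.card D + 1) * b := Nat.mul_le_mul_left _ h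
  rw [mul_add] at h2
  omega

variable [Fintype D] {k : ℕ} {E : Type} [Ring E] {ent : Finset D → Finset D → E →+ RG G}
  {Y : Raw E (Str D k)}

theorem Φ_δ (i i' : (Φ ent Y).ι) [Decidable (i.1.1 = i'.1.1)] :
    (Φ ent Y).δ (single i 1) i' = ent i.1.2 i'.1.2 (Y.δ (single i.1.1 1) i'.1.1) +
      if i.1.1 = i'.1.1 then (Y.deg i.1.1).negOnePow • (kz i.1.2 i'.1.2 : RG G) else 0 := by
  obtain ⟨⟨y, A⟩, h⟩ := i
  obtain ⟨⟨y', A'⟩, h'⟩ := i'
  rw [Raw.res_δ, bm_δ (fun A => Finsupp.ext fun A' => map_zero (ent A A'))]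
  rfl

theorem Φ_supp {r : Y.ι → ℕ} (hr : ∀ i i', Y.δ (single i 1) i' ≠ 0 → r i' < r i)
    {i i' : (Φ ent Y).ι} {g : G} (h : ((Φ ent Y).δ (single i 1) i').coeff g ≠ 0) :
    r i'.1.1 < r i.1.1 ∨ i.1.1 = i'.1.1 ∧ g = 1 ∧ ∃ x ∈ i.1.2, i'.1.2 = i.1.2.erase x := by
  classical
  by_cases h0 : Y.δ (single i.1.1 1) i'.1.1 = 0
  · right
    rw [Φ_δ, h0, map_zero, zero_add] at h
    split_ifs at h with e
    · rw [Units.smul_def, ← Int.cast_smul_eq_zsmul (RG G), smul_eq_mul, ← Int.cast_mul] at h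
      obtain ⟨h1, h2⟩ := coeff_intCast h
      exact ⟨e, h1, kz_supp (right_ne_zero_of_mul h2)⟩
    · exact absurd rfl h
  · exact Or.inl (hr _ _ h0)

theorem Φ_unit (hY : Y.WF) (i i' : (Φ ent Y).ι) (e : i.1.1 = i'.1.1) {x : D} (hx : x ∈ i.1.2)
    (e' : i'.1.2 = i.1.2.erase x) : ∃ s : ℤˣ, (Φ ent Y).δ (single i 1) i' = s • 1 := by
  classical
  obtain ⟨s, hs⟩ := kz_unit hx
  refine ⟨(Y.deg i.1.1).negOnePow * s, ?_⟩
  rw [Φ_δ, if_pos e, ← e, diag_zero hY, map_zero, zero_add, e', hs, mul_smul, Units.smul_def s,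
    zsmul_one]

theorem tors (hk : 1 ≤ k) (hf : Y.Fin1) {pos : (Φ ent Y).ι → Pt D}
    (hU : (T0 G D).Obj (Up ent Y pos)) : Tors (whQ G) (Up ent Y pos) := by
  obtain ⟨r, hr⟩ := hf.rank
  have := hf.1
  have hx : ∀ y : Y.ι, ∃ x, x ∈ (Y.lab y).I := fun y =>
    Finset.card_pos.1 (by rw [(Y.lab y).card]; exact hk)
  choose x hx using hx
  refine Mt.tors (C := tcat (RG G) (Pt D)) (V := Up ent Y pos) (up := fun i => x i.1.1 ∈ i.1.2)
    (m := fun i => ⟨(i.1.1, flip (x i.1.1) i.1.2), flip_sub (hx _) i.2⟩)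
    (ρ := fun i => (Fintype.card D + 1) * r i.1.1 + (i.1.2.erase (x i.1.1)).card)
    ⟨fun _ _ => trivial, fun i _ => Subtype.ext (Prod.ext rfl (flip_flip _ _)),
      fun i _ => mem_flip _ _, fun i _ => by simp only [flip_erase], fun i _ hi => ?_,
      fun i _ _ => mem_bcat.2 ⟨trivial, fun _ => rfl⟩,
      fun i _ hi => Φ_unit hf.2 _ _ rfl hi (flip_of_mem hi), fun i i' _ _ h => ?_⟩
    (bcat_obj_tcat hU) negCl_mem
  · change Y.deg i.1.1 + -((flip (x i.1.1) i.1.2).card : ℤ) = Y.deg i.1.1 + -(i.1.2.card : ℤ) + 1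
    rw [flip_of_mem hi, ← Finset.card_erase_add_one hi]
    push_cast
    ring
  · obtain ⟨g, hg⟩ := ex_coeff h
    rcases Φ_supp hr hg with h1 | ⟨e, -, z, hz, e'⟩
    · exact Or.inl (lex_lt h1 _ _)
    · by_cases hzx : z = x i.1.1
      · subst hzx
        exact Or.inr ⟨hz, Subtype.ext (Prod.ext e.symm (e'.trans (flip_of_mem hz).symm))⟩
      · left
        change _ * r i'.1.1 + (i'.1.2.erase (x i'.1.1)).card < _
        rw [← e, e']
        exact Nat.add_lt_add_left (card_erase_lt hz hzx) _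

theorem closed (hΦ : (T1 G D).Obj (Φ ent Y)) (pos : (Φ ent Y).ι → Pt D) :
    ((Up ent Y pos).bm (ΛB G D)).Closed fun p => p.2 = (Y.lab p.1.1.1).I := by
  rintro ⟨i, I⟩ ⟨i', I'⟩ h hne
  obtain ⟨g, hg⟩ := ex_coeff hne
  rcases pB_supp hg with ⟨h1, h2⟩ | ⟨-, -, h0⟩
  · have h3 : (Y.lab i.1.1).I = g • (Y.lab i'.1.1).I := (rc_hom.1 hΦ.1 i i' g h2).1.1
    exact MulAction.injective g (h1.trans (h.trans h3))
  · exact absurd rfl h0

theorem ctr [Aff G D] (hf : Y.Fin1) {pos : (Φ ent Y).ι → Pt D} (hp : Pos ent Y pos)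
    (hO : (T1 G D).Obj (((Up ent Y pos).bm (ΛB G D)).res
      fun p => p.2.card < k + 1 ∧ ¬ p.2 = (Y.lab p.1.1.1).I)) :
    (T1 G D).Ctr (((Up ent Y pos).bm (ΛB G D)).res
      fun p => p.2.card < k + 1 ∧ ¬ p.2 = (Y.lab p.1.1.1).I) := by
  classical
  obtain ⟨r, hr⟩ := hf.rank
  have hx : ∀ (y : Y.ι) (I : Finset D), I.card < k + 1 ∧ ¬ I = (Y.lab y).I →
      ∃ x, x ∈ (Y.lab y).I ∧ x ∉ I := fun y I h => by
    by_contra hn
    push Not at hn
    exact h.2 (Finset.eq_of_subset_of_card_le hn (by rw [(Y.lab y).card]; omega)).symm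
  choose x hx hx' using hx
  refine Mt.ctr_top (V := ((Up ent Y pos).bm (ΛB G D)).res
      fun p => p.2.card < k + 1 ∧ ¬ p.2 = (Y.lab p.1.1.1).I)
    (up := fun i => x _ _ i.2 ∈ i.1.1.1.2)
    (m := fun i => ⟨(⟨(i.1.1.1.1, flip (x _ _ i.2) i.1.1.1.2), flip_sub (hx _ _ _) i.1.1.2⟩,
      i.1.2), i.2⟩)
    (ρ := fun i => (Fintype.card D + 1) * r i.1.1.1.1 + (i.1.1.1.2.erase (x _ _ i.2)).card)
    ⟨fun _ _ => trivial,
      fun i _ => Subtype.ext (Prod.ext (Subtype.ext (Prod.ext rfl (flip_flip _ _))) rfl),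
      fun i _ => mem_flip _ _, fun i _ => by simp only [flip_erase], fun i _ hi => ?_,
      fun i _ hi => one_mem_rc ⟨rfl, fun z hz => le_of_eq ?_⟩, fun i _ hi => ?_,
      fun i i' _ _ h => ?_⟩ isRel1.good hO
  · change Y.deg i.1.1.1.1 + -((flip (x _ _ i.2) i.1.1.1.2).card : ℤ) + 0 =
      Y.deg i.1.1.1.1 + -(i.1.1.1.2.card : ℤ) + 0 + 1
    rw [flip_of_mem hi, ← Finset.card_erase_add_one hi]
    push_cast
    ring
  · change pos ⟨(i.1.1.1.1, flip (x _ _ i.2) i.1.1.1.2), flip_sub (hx _ _ _) i.1.1.2⟩ z =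
      pos i.1.1 z
    by_cases hzI : z ∈ (Y.lab i.1.1.1.1).I
    · refine (hp.1 _ z (by exact hzI)).trans (Eq.trans ?_ (hp.1 i.1.1 z hzI).symm)
      have hne : z ≠ x _ _ i.2 := fun e => hx' _ _ i.2 (e ▸ hz)
      simp only [mv, flip_of_mem hi, Finset.mem_erase, hne, ne_eq, not_false_eq_true, true_and]
    · exact hp.2 _ _ (by rfl) z (by exact hzI)
  · obtain ⟨s, hs⟩ := Φ_unit (ent := ent) hf.2 i.1.1
      ⟨(i.1.1.1.1, flip (x _ _ i.2) i.1.1.1.2), flip_sub (hx _ _ _) i.1.1.2⟩ rfl hi (flip_of_mem hi)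
    refine ⟨s, ?_⟩
    rw [Raw.res_δ]
    refine (pB_δ _ _ _ _ (Up ent Y pos) _ _ _ _).trans ?_
    simp only [Finsupp.zero_apply, Int.cast_zero, smul_zero, ite_self, add_zero]
    rw [hs, Units.smul_def, map_zsmul, MonoidAlgebra.one_def, pent_single, if_pos (one_smul _ _),
      one_mul]
  · rw [Raw.res_δ] at h
    obtain ⟨g, hg⟩ := ex_coeff h
    rcases pB_supp (V := Up ent Y pos) hg with ⟨h1, h2⟩ | ⟨-, -, h0⟩
    · rcases Φ_supp hr h2 with h3 | ⟨e, rfl, z, hz, e'⟩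
      · exact Or.inl (lex_lt h3 _ _)
      · obtain ⟨⟨⟨⟨y, A⟩, hA⟩, I⟩, hI⟩ := i
        obtain ⟨⟨⟨⟨y', A'⟩, hA'⟩, I'⟩, hI'⟩ := i'
        rw [one_smul] at h1
        dsimp only at e e' h1 hz
        subst e e' h1
        by_cases hzx : z = x _ _ hI
        · subst hzx
          exact Or.inr ⟨hz, Subtype.ext (Prod.ext
            (Subtype.ext (Prod.ext rfl (flip_of_mem hz).symm)) rfl)⟩
        · exact Or.inl (Nat.add_lt_add_left (card_erase_lt hz hzx) _)
    · exact absurd rfl h0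

end C1

theorem st_c1 (hL : St_LAM) (hP : St_PSI) : St_C1 := by
  intro G D _ _ _ _ _ _ k E Λ _ S ξ ent hK
  beta_reduce
  intro Y pos hY hf hp hU
  obtain ⟨-, -, hΦ, -, -⟩ := hP G D k E Λ S ξ ent hK
  obtain ⟨hb, -, hZ⟩ := hL G D
  have h2 := C1.closed (hΦ.obj hY) pos
  refine ⟨fun hk => C1.tors hk hf hU, h2, C1.ctr hf hp (obj_res isRel1.good
    ((hb.isFn isRel0.good isRel1.good).obj hU)
    ((hZ _ hU).1 (fun I => I.card < k + 1) fun g I h => ?_) h2)⟩
  rwa [Finset.card_smul_finset] at h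

end Pool.Agent.Lib.NIL.EA
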