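import Pool.Agent.Lib.NIL.EA.Blue

/-! Block DBL: the doubled action. -/

namespace Pool.Agent.Lib.NIL.EA

open Finsupp Pointwise

theorem st_dbl : St_DBL := by
  classical
  intro G ι _ _ _ a ha
  have a1 : ∀ i, a 1 i = 0 := fun i => by
    have := ha 1 1 i
    rw [one_mul, inv_one, one_smul] at this
    omega
  let mD : MulAction G (ι × Bool) :=
    { smul := fun g p => (g • p.1, p.2)
      one_smul := fun p => Prod.ext (one_smul _ _) rfl
      mul_smul := fun g h p => Prod.ext (mul_smul _ _ _) rfl }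
  let mP : MulAction G (Pt (ι × Bool)) :=
    { smul := fun g c p => c (g⁻¹ • p.1, p.2) + bif p.2 then a g p.1 else -a g p.1
      one_smul := fun c => funext fun p => by
        change c ((1 : G)⁻¹ • p.1, p.2) + (bif p.2 then a 1 p.1 else -a 1 p.1) = c p
        rw [inv_one, one_smul, a1, neg_zero, Bool.cond_self, add_zero]
      mul_smul := fun g h c => funext fun p => by
        change c ((g * h)⁻¹ • p.1, p.2) + (bif p.2 then a (g * h) p.1 else -a (g * h) p.1) =
          c (h⁻¹ • g⁻¹ • p.1, p.2) + (bif p.2 then a h (g⁻¹ • p.1) else -a h (g⁻¹ • p.1)) +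
            bif p.2 then a g p.1 else -a g p.1
        rw [mul_inv_rev, mul_smul, ha]
        cases p.2 <;> simp only [cond_true, cond_false] <;> ring }
  have sD : ∀ (g : G) i b, g • ((i, b) : ι × Bool) = (g • i, b) := fun _ _ _ => rfl
  have sP : ∀ (g : G) (c : Pt (ι × Bool)) i b,
      (g • c) (i, b) = c (g⁻¹ • i, b) + bif b then a g i else -a g i := fun _ _ _ _ => rfl
  let lo : LinearOrder (ι × Bool) :=
    LinearOrder.lift' (Fintype.equivFin _) (Fintype.equivFin _).injective
  let _ : DecidableEq (ι × Bool) := fun a b => LinearOrder.toDecidableEq a b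
  have hA : Aff G (ι × Bool) := ⟨fun g c c' ⟨i, b⟩ => by
    rw [sD, sP, sP, inv_smul_smul]
    ring⟩
  refine ⟨ι × Bool, lo, mD, mP, hA, inferInstance, fun g c => ?_,
    fun c => ⟨fun i => c (i, true), fun g h i => congrFun h (i, true)⟩, fun k hk y => ?_⟩
  · simp only [Fintype.sum_prod_type, Fintype.sum_bool, sP, cond_true, cond_false]
    refine Fintype.sum_equiv (MulAction.toPerm g⁻¹) _ _ fun i => ?_
    rw [MulAction.toPerm_apply]
    ring
  · obtain ⟨⟨i₀, b⟩, h0⟩ := Finset.card_pos.1 (show 0 < y.I.card by rw [y.card]; exact hk)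
    refine ⟨Finset.univ.filter fun i => (i, b) ∈ y.I, fun i => bif b then y.c (i, b) else -y.c (i, b),
      ⟨i₀, Finset.mem_filter.2 ⟨Finset.mem_univ _, h0⟩⟩, fun g h i => ?_⟩
    have hI : g • y.I = y.I := congrArg Str.I h
    simp only [Finset.mem_filter, Finset.mem_univ, true_and]
    refine ⟨?_, fun hi => ?_⟩
    · rw [← sD]
      conv_lhs => rw [← hI]
      exact Finset.smul_mem_smul_finset_iff g
    · have h1 := Str.smul_c g y (i := (i, b)) (hI.symm ▸ hi)
      rw [h, sP] at h1
      cases b <;> simp only [cond_true, cond_false] at h1 ⊢ <;> omega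

end Pool.Agent.Lib.NIL.EA
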