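import Pool.Agent.Lib.NIL.EA.Blue
import Pool.Agent.Lib.NIL.EA.G1
import Pool.Agent.Lib.NIL.EA.G2
import Pool.Agent.Lib.NIL.A7

/-! The exterior algebra over the strata. -/

noncomputable section

namespace Pool.Agent.Lib.NIL.EA

open Finsupp Pointwise

namespace KSb

/-- a monoid with an integral cocycle -/
structure Tc (M : Type) where
  mu : M → M → M
  e : M
  f : M → M → ℤ
  e_mu : ∀ x, mu e x = x
  mu_e : ∀ x, mu x e = x
  assoc : ∀ x y z, mu (mu x y) z = mu x (mu y z)
  f_e : ∀ x, f e x = 1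
  f_e' : ∀ x, f x e = 1
  coc : ∀ x y z, f x y * f (mu x y) z = f y z * f x (mu y z)

/-- the twisted monoid ring -/
def Tw {M : Type} (_ : Tc M) : Type := M →₀ ℤ

section

variable {M : Type} {T : Tc M}

instance : AddCommGroup (Tw T) := inferInstanceAs (AddCommGroup (M →₀ ℤ))

def bs (T : Tc M) (x : M) : Tw T := single x 1

def lift {N : Type} [AddCommGroup N] (T : Tc M) (φ : M → N) : Tw T →+ N :=
  (linearCombination ℤ φ).toAddMonoidHom

theorem lift_bs {N : Type} [AddCommGroup N] (φ : M → N) (x : M) : lift T φ (bs T x) = φ x :=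
  (linearCombination_single ℤ 1 x).trans (one_smul _ _)

theorem ind {p : Tw T → Prop} (a : Tw T) (h0 : p 0) (ha : ∀ a b, p a → p b → p (a + b))
    (h1 : ∀ x (n : ℤ), p (n • bs T x)) : p a :=
  Finsupp.induction_linear (motive := p) a h0 ha fun x n => by
    have e : n • bs T x = single x n := smul_single_one x n
    exact e ▸ h1 x n

theorem hext {N : Type} [AddCommGroup N] {φ ψ : Tw T →+ N} (h : ∀ x, φ (bs T x) = ψ (bs T x))
    (a : Tw T) : φ a = ψ a :=
  ind (p := fun a => φ a = ψ a) a (by simp) (fun a b ha hb => by simp [ha, hb])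
    fun x n => by simp [h]

def mulH (T : Tc M) : Tw T →+ Tw T →+ Tw T :=
  lift T fun x => lift T fun y => T.f x y • bs T (T.mu x y)

theorem mulH_bs (x y : M) : mulH T (bs T x) (bs T y) = T.f x y • bs T (T.mu x y) := by
  rw [mulH, lift_bs, lift_bs]

instance : Ring (Tw T) :=
  { (inferInstance : AddCommGroup (Tw T)) with
    mul a b := mulH T a b
    one := bs T T.e
    left_distrib a := (mulH T a).map_add
    right_distrib a b c := DFunLike.congr_fun ((mulH T).map_add a b) c
    zero_mul a := DFunLike.congr_fun (mulH T).map_zero a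
    mul_zero a := (mulH T a).map_zero
    mul_assoc a b c := by
      change mulH T (mulH T a b) c = mulH T a (mulH T b c)
      induction a using ind with
      | h0 => simp
      | ha _ _ h h' => simp [h, h']
      | h1 x n =>
        induction b using ind with
        | h0 => simp
        | ha _ _ h h' => simp only [map_add, AddMonoidHom.add_apply, h, h']
        | h1 y m =>
          induction c using ind with
          | h0 => simp
          | ha _ _ h h' => simp only [map_add, h, h']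
          | h1 z l =>
            simp only [map_zsmul, AddMonoidHom.smul_apply, mulH_bs, smul_smul, T.assoc]
            congr 1
            linear_combination (n * m * l) * T.coc x y z
    one_mul := hext (φ := mulH T (bs T T.e)) (ψ := AddMonoidHom.id _) fun x => by
      rw [mulH_bs, T.f_e, T.e_mu, one_smul]; rfl
    mul_one := hext (φ := (mulH T).flip (bs T T.e)) (ψ := AddMonoidHom.id _) fun x => by
      rw [AddMonoidHom.flip_apply, mulH_bs, T.f_e', T.mu_e, one_smul]; rfl }

theorem bs_mul (x y : M) : bs T x * bs T y = T.f x y • bs T (T.mu x y) := mulH_bs x y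

theorem one_eq : (1 : Tw T) = bs T T.e := rfl

theorem lift_mul {N : Type} [Ring N] {φ : M → N} (h : ∀ x y, T.f x y • φ (T.mu x y) = φ x * φ y)
    (a b : Tw T) : lift T φ (a * b) = lift T φ a * lift T φ b := by
  induction a using ind with
  | h0 => simp
  | ha _ _ h h' => simp only [add_mul, map_add, h, h']
  | h1 x n =>
    induction b using ind with
    | h0 => simp
    | ha _ _ h h' => simp only [mul_add, map_add, h, h']
    | h1 y m => simp only [smul_mul_assoc, mul_smul_comm, map_zsmul, bs_mul, lift_bs, h]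

theorem lift_ne {N N' : Type} [AddCommGroup N] [AddCommGroup N'] {φ : M → N} (ψ : N →+ N')
    {a : Tw T} (h : ψ (lift T φ a) ≠ 0) : ∃ x, (show M →₀ ℤ from a) x ≠ 0 ∧ ψ (φ x) ≠ 0 := by
  change ψ (∑ x ∈ (show M →₀ ℤ from a).support, (show M →₀ ℤ from a) x • φ x) ≠ 0 at h
  rw [map_sum] at h
  obtain ⟨x, hx, h⟩ := Finset.exists_ne_zero_of_sum_ne_zero h
  exact ⟨x, mem_support_iff.1 hx, fun e => h (by rw [map_zsmul, e, smul_zero])⟩

end

variable (G D : Type) [Group G] [LinearOrder D] [MulAction G D] [MulAction G (Pt D)] [Aff G D]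
  (k : ℕ)

abbrev Lt (D : Type) (k : ℕ) : Type := Finset D × Option (Str D k)

def tc : Tc (Lt D k × G) where
  mu x y := ((y.2⁻¹ • x.1.1 ∪ y.1.1, y.1.2.or (y.2⁻¹ • x.1.2)), x.2 * y.2)
  e := ((∅, none), 1)
  f x y := sg y.2⁻¹ x.1.1 * w (y.2⁻¹ • x.1.1) y.1.1
  e_mu x := by simp
  mu_e x := by simp
  assoc x y z := by
    rcases y with ⟨⟨_, _ | _⟩, _⟩ <;> rcases z with ⟨⟨_, _ | _⟩, _⟩ <;>
      simp [mul_smul, mul_assoc, Finset.smul_finset_union]
  f_e x := by simp [sg_empty, w_empty_left]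
  f_e' x := by simp [sg_one, w_empty_right]
  coc x y z := by
    have h1 := w_smul z.2⁻¹ (y.2⁻¹ • x.1.1) y.1.1
    have h2 := w_cocycle (z.2⁻¹ • y.2⁻¹ • x.1.1) (z.2⁻¹ • y.1.1) z.1.1
    simp only [mul_inv_rev, sg_mul, mul_smul, Finset.smul_finset_union]
    linear_combination
      (sg y.2⁻¹ x.1.1 * w (z.2⁻¹ • y.2⁻¹ • x.1.1 ∪ z.2⁻¹ • y.1.1) z.1.1) * h1 +
        (sg y.2⁻¹ x.1.1 * sg z.2⁻¹ (y.2⁻¹ • x.1.1) * sg z.2⁻¹ y.1.1) * h2

abbrev EE : Type := Tw (tc G D k)

variable {G D k}

def b (J : Finset D) (o : Option (Str D k)) (g : G) : EE G D k := bs _ ((J, o), g)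

theorem b_mul (J J' : Finset D) (o o' : Option (Str D k)) (g g' : G) :
    b J o g * b J' o' g' = (sg g'⁻¹ J * w (g'⁻¹ • J) J') •
      b (g'⁻¹ • J ∪ J') (o'.or (g'⁻¹ • o)) (g * g') := bs_mul _ _

theorem b_left (J : Finset D) (o : Option (Str D k)) (g g' : G) :
    b ∅ none g * b J o g' = b J o (g * g') := by
  simp [b_mul, sg_empty, w_empty_left]

theorem b_right (J J' : Finset D) (o : Option (Str D k)) (y : Str D k) (g : G) :
    b J o g * b J' (some y) 1 = w J J' • b (J ∪ J') (some y) g := by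
  simp [b_mul, sg_one]

def sig : EE G D k →+ EE G D k := lift _ fun x => (-1 : ℤ) ^ x.1.1.card • bs _ x

theorem sig_b (J : Finset D) (o : Option (Str D k)) (g : G) :
    sig (b J o g) = (-1 : ℤ) ^ J.card • b J o g := lift_bs _ _

theorem sig_mul (x y : EE G D k) : sig (x * y) = sig x * sig y := lift_mul (fun x y => by
  rw [smul_mul_assoc, mul_smul_comm, bs_mul, smul_smul, smul_smul, smul_smul]
  congr 1
  change sg _ _ * w _ _ * (-1) ^ (y.2⁻¹ • x.1.1 ∪ y.1.1).card = _ * (sg _ _ * w _ _)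
  by_cases h : Disjoint (y.2⁻¹ • x.1.1) y.1.1
  · rw [Finset.card_union_of_disjoint h, Finset.card_smul_finset, pow_add, mul_comm]
  · simp [w_eq_zero h]) x y

def iH : RG G →+* EE G D k :=
  (MonoidAlgebra.lift ℤ (EE G D k) G ⟨⟨b ∅ none, rfl⟩, fun _ _ => (b_left _ _ _ _).symm⟩).toRingHom

theorem iH_single (g : G) (n : ℤ) : iH (.single g n) = n • (b ∅ none g : EE G D k) :=
  MonoidAlgebra.lift_single _ _ _

def cE : EE G D k ≃+ (Lt D k →₀ RG G) :=
  (curryAddEquiv : (Lt D k × G →₀ ℤ) ≃+ _).trans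
    (mapRange.addEquiv (MonoidAlgebra.coeffAddEquiv (R := ℤ) (M := G)).symm)

theorem cE_coeff (a : EE G D k) (l : Lt D k) (g : G) :
    (cE a l).coeff g = (show Lt D k × G →₀ ℤ from a) (l, g) := rfl

theorem cE_b (J : Finset D) (o : Option (Str D k)) (g : G) :
    cE (b J o g) = single (J, o) (.single g 1) := by
  classical
  ext l g'
  rw [cE_coeff]
  change single ((J, o), g) (1 : ℤ) (l, g') = _
  by_cases h : (J, o) = l <;> simp [single_apply, h]

def sys (y₀ : Str D k) : Sys (RG G) (EE G D k) (Lt D k) (Str D k) where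
  σ := sig
  d := 0
  i := iH
  c := cE
  u := (∅, none)
  ok l := l.1.Nonempty ∧ ∃ y, l.2 = some y ∧ l.1 ⊆ y.I
  s l := (l.2.getD y₀).mv l.1 1
  t l := l.2.getD y₀
  deg l := l.1.card
  ρ l := l.1.card

variable {y₀ o o' : Str D k} {T : Lt D k → Prop}

theorem ε_eq (J : Finset D) (p : Option (Str D k)) : (sys y₀).ε (J, p) = b J p (1 : G) :=
  cE.symm_apply_eq.2 (cE_b J p 1).symm

omit [MulAction G D] [MulAction G (Pt D)] [Aff G D] in
theorem mv_empty (y : Str D k) (m : ℤ) : y.mv ∅ m = y :=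
  Str.ext' rfl fun i hi => by rw [Str.mv_c y _ _ hi]; simp

omit [MulAction G D] [MulAction G (Pt D)] [Aff G D] in
theorem mv_union (y : Str D k) {J J' : Finset D} (h : Disjoint J J') :
    y.mv (J ∪ J') 1 = (y.mv J' 1).mv J 1 := Str.ext' rfl fun i hi => by
  have : i ∈ J → i ∉ J' := fun e => Finset.disjoint_left.1 h e
  rw [Str.mv_c y _ _ hi, Str.mv_c (y.mv J' 1) _ _ hi, Str.mv_c y _ _ hi]
  by_cases h1 : i ∈ J <;> by_cases h2 : i ∈ J' <;> simp_all

theorem val_src {l : Lt D k} (h : (sys (G := G) y₀).val l o) :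
    (sys (G := G) y₀).src l o = o.mv l.1 1 ∧ l.1 ⊆ o.I := by
  rcases h with rfl | ⟨⟨hJ, y, hy, hs⟩, ht⟩
  · exact ⟨Sys.src_u.trans (mv_empty _ _).symm, Finset.empty_subset _⟩
  · have e : l.2.getD y₀ = o := ht
    rw [Sys.src_of_ne (by rintro rfl; exact hJ.ne_empty rfl)]
    refine ⟨congrArg (fun y : Str D k => y.mv l.1 1) e, ?_⟩
    rw [hy] at e
    exact e ▸ hs

theorem b_mem {J : Finset D} (hJ : J.Nonempty) (hs : J ⊆ o'.I) (hT : T (J, some o')) {g : G}
    (hg : g • o'.mv J 1 = o) : b J (some o') g ∈ (sys y₀).Sp (gfam G (Str D k)) T o o' := by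
  have hv : (sys (G := G) y₀).val (J, some o') o' := Or.inr ⟨⟨hJ, o', rfl, hs⟩, rfl⟩
  intro l
  change cE _ l ∈ _ ∧ (cE _ l ≠ 0 → _)
  rw [cE_b]
  by_cases h : l = (J, some o')
  · subst h
    rw [single_eq_same, (val_src hv).1]
    exact ⟨single_mem_sfam (p := fun g => g • o'.mv J 1 = o) hg 1, fun _ => ⟨hv, hT⟩⟩
  · rw [single_eq_of_ne h]
    exact ⟨zero_mem _, fun e => (e rfl).elim⟩

theorem neg_pow_card (n : ℕ) (x : EE G D k) : (-1 : ℤ) ^ n • x = (n : ℤ).negOnePow • x := by
  rw [Units.smul_def, Int.coe_negOnePow_natCast]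

theorem isSys : (sys y₀).IsSys (gfam G (Str D k)) 1 where
  bas := gfam_bas _ _
  dg := ⟨(sig_b ∅ none 1).trans (one_smul _ _), sig_mul,
    hext (φ := sig.comp sig) (ψ := AddMonoidHom.id _) fun x => by
      change sig (sig (b x.1.1 x.1.2 x.2)) = b x.1.1 x.1.2 x.2
      rw [sig_b, map_zsmul, sig_b, smul_smul, ← mul_pow]
      simp,
    fun _ => by simp [sys], fun _ => rfl, fun _ _ => by simp [sys]⟩
  σ_i r := by
    change sig (iH r) = iH r
    induction r using MonoidAlgebra.induction_linear with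
    | zero => simp
    | add _ _ h h' => simp only [map_add, h, h']
    | single g n => rw [iH_single, map_zsmul, sig_b, Finset.card_empty, pow_zero, one_smul]
  d_i _ := rfl
  c_mul r e := by
    change cE (iH r * e) = r • cE e
    induction r using MonoidAlgebra.induction_linear with
    | zero => simp
    | add _ _ h h' => simp only [map_add, add_mul, add_smul, h, h']
    | single g n =>
      induction e using ind with
      | h0 => simp
      | ha _ _ h h' => simp only [map_add, mul_add, smul_add, h, h']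
      | h1 x m =>
        change cE (_ * m • b x.1.1 x.1.2 x.2) = _ • cE (m • b x.1.1 x.1.2 x.2)
        rw [iH_single, smul_mul_assoc, mul_smul_comm, b_left, map_zsmul, map_zsmul, map_zsmul, cE_b,
          cE_b, smul_comm (MonoidAlgebra.single g n), smul_comm n, smul_single, smul_single]
        simp [MonoidAlgebra.single_mul_single]
  c_one := cE_b ∅ none 1
  deg_u := rfl
  ρ_u := rfl
  ne_u l h := by rintro rfl; exact h.1.ne_empty rfl
  deg_ge l h := Nat.one_le_cast.2 h.1.card_pos
  ρ_pos l h := h.1.card_pos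
  σ_ε l _ := by
    obtain ⟨J, p⟩ := l
    rw [ε_eq]
    exact (sig_b _ _ _).trans (neg_pow_card _ _)
  mulR := by
    rintro ⟨J, _⟩ o r ⟨hJ, y, rfl, hs⟩ hr
    rw [ε_eq]
    refine sfam_induction (P := fun r => b J (some y) 1 * iH r ∈ _) hr (fun g n hg => ?_)
      (by simp) fun _ _ _ _ h h' => by rw [map_add, mul_add]; exact add_mem h h'
    obtain rfl : g • o = y := hg
    have e : (none : Option (Str D k)).or (g⁻¹ • some (g • o)) = some o := by simp
    have hJ' : (g⁻¹ • J).Nonempty := hJ.smul_finset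
    rw [iH_single, mul_smul_comm, b_mul, e, Finset.union_empty, one_mul]
    refine zsmul_mem (zsmul_mem (b_mem hJ' ?_ ⟨fun e => hJ'.ne_empty (congrArg Prod.fst e),
      congrArg Nat.cast (Finset.card_smul_finset _ _), (Finset.card_smul_finset _ _).le⟩ ?_) _) _
    · exact Finset.subset_smul_finset_iff.1 hs
    · rw [Str.smul_mv, smul_inv_smul]; rfl
  mul := by
    rintro ⟨J, _⟩ ⟨J', _⟩ ⟨hJ, y, rfl, hs⟩ ⟨hJ', y', rfl, hs'⟩ (ht : y = y'.mv J' 1)
    subst ht
    rw [ε_eq, ε_eq, b_right]
    by_cases h : Disjoint J J'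
    · have hc := Finset.card_union_of_disjoint h
      have hn : (J ∪ J').Nonempty := hJ.mono Finset.subset_union_left
      exact zsmul_mem (b_mem (o' := y') (o := (y'.mv J' 1).mv J 1) hn (Finset.union_subset hs hs')
        ⟨fun e => hn.ne_empty (congrArg Prod.fst e),
          show ((J ∪ J').card : ℤ) = J.card + J'.card by rw [hc, Nat.cast_add], hc.le⟩
        ((one_smul G _).trans (mv_union y' h))) _
    · rw [w_eq_zero h, zero_smul]
      exact zero_mem _
  d_ε _ _ := zero_mem _

/-- the representation on the exterior algebra -/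
def rho0 (x : Lt D k × G) : Matrix (Finset D) (Finset D) (RG G) := Matrix.of fun A A' =>
  if x.2 • (x.1.1 ∪ A') = A then .single x.2 (sg x.2 (x.1.1 ∪ A') * w x.1.1 A') else 0

def rho : EE G D k →+ Matrix (Finset D) (Finset D) (RG G) := lift _ rho0

theorem rho_b (J : Finset D) (p : Option (Str D k)) (g : G) (A A' : Finset D) :
    rho (b J p g) A A' =
      if g • (J ∪ A') = A then .single g (sg g (J ∪ A') * w J A') else 0 :=
  congrFun (congrFun (lift_bs rho0 _) A) A'

theorem rho_mul [Fintype D] (x y : EE G D k) : rho (x * y) = rho x * rho y := lift_mul (fun x y => by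
  obtain ⟨⟨J, p⟩, g⟩ := x
  obtain ⟨⟨J', p'⟩, g'⟩ := y
  obtain ⟨J, rfl⟩ := ex_smul g' J
  ext1 A A''
  rw [Matrix.mul_apply, Finset.sum_eq_single (g' • (J' ∪ A'')) (fun A' _ h => by
    simp [rho0, h.symm]) (by simp)]
  have h1 := w_smul g' J (J' ∪ A'')
  have h2 := w_cocycle J J' A''
  have h3 := sg_sq g' J
  simp only [rho0, tc, Matrix.smul_apply, Matrix.of_apply, inv_smul_smul, sg_inv, if_true,
    Finset.union_assoc, mul_smul g g', sg_mul, Finset.smul_finset_union] at h1 ⊢
  split_ifs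
  · rw [MonoidAlgebra.single_mul_single, MonoidAlgebra.smul_single, smul_eq_mul]
    refine congrArg _ ?_
    linear_combination
      (sg g' J * sg g (g' • J ∪ (g' • J' ∪ g' • A'')) * sg g' (J ∪ (J' ∪ A''))) * h2 +
      (sg g' J * sg g (g' • J ∪ (g' • J' ∪ g' • A'')) * w J' A'') * h1 +
      (sg g (g' • J ∪ (g' • J' ∪ g' • A'')) * w J' A'' * sg g' (J' ∪ A'') *
        w (g' • J) (g' • J' ∪ g' • A'')) * h3
  · simp) x y

def ent (A A' : Finset D) : EE G D k →+ RG G := (Matrix.entryAddMonoidHom (RG G) A A').comp rho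

theorem ent_supp {A A' : Finset D} {a : EE G D k} {g : G} (h : (ent A A' a).coeff g ≠ 0) :
    ∃ l : Lt D k, (cE a l).coeff g ≠ 0 ∧ g • (l.1 ∪ A') = A ∧ Disjoint l.1 A' := by
  obtain ⟨⟨l, g'⟩, h1, h2⟩ := lift_ne (φ := rho0) (((applyAddHom g).comp
    (MonoidAlgebra.coeffAddEquiv (R := ℤ) (M := G)).toAddMonoidHom).comp
      (Matrix.entryAddMonoidHom (RG G) A A')) h
  change (rho0 (l, g') A A').coeff g ≠ 0 at h2
  simp only [rho0, Matrix.of_apply] at h2
  split_ifs at h2 with h3
  · rw [MonoidAlgebra.coeff_single] at h2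
    obtain ⟨rfl, h4⟩ := single_apply_ne_zero.1 h2
    exact ⟨l, h1, h3, w_ne_zero.1 (right_ne_zero_of_mul h4)⟩
  · simp at h2

theorem ent_x (A A' : Finset D) (x : D) (p : Option (Str D k)) : ent A A' (b {x} p (1 : G)) =
    if x ∈ A ∧ A' = A.erase x then (w {x} A' : RG G) else 0 := by
  refine (rho_b _ _ _ _ _).trans ?_
  rw [one_smul, sg_one, one_mul]
  by_cases hx : x ∈ A'
  · simp [w_eq_zero (J := {x}) (K := A') (by simpa using hx)]
  · refine if_congr ⟨?_, ?_⟩ rfl rfl
    · rintro rfl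
      exact ⟨by simp, by simp [Finset.erase_insert hx]⟩
    · rintro ⟨h, rfl⟩
      simp [h]

variable [Fintype D]

/-- the sum of the generators -/
def th : EE G D k := ∑ x, b {x} none 1

theorem rho_th (A A' : Finset D) : rho (th : EE G D k) A A' = (kz A A' : RG G) := by
  change ent A A' th = _
  simp only [th, map_sum, ent_x, kz_apply, Int.cast_sum, ite_and, Finset.sum_ite_mem,
    Finset.univ_inter, eq_comm (a := A'), Int.cast_ite, Int.cast_zero]

theorem mul_th (a : EE G D k) : a * th = th * sig a :=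
  hext (φ := AddMonoidHom.mulRight th) (ψ := (AddMonoidHom.mulLeft th).comp sig) (fun x => by
    obtain ⟨⟨J, p⟩, g⟩ := x
    change b J p g * th = th * sig (b J p g)
    rw [sig_b, mul_smul_comm, th, Finset.mul_sum, Finset.sum_mul, Finset.smul_sum]
    refine Fintype.sum_equiv (MulAction.toPerm g) _ _ fun x => ?_
    simp [b_mul, sg_one, sg_singleton, w_swap J, Finset.union_comm J, mul_assoc]) a

theorem lc_apply {κ : Type} [Fintype κ] (f : κ → κ →₀ RG G) (v : κ →₀ RG G) (i : κ) :
    lc f v i = ∑ j, v j * f j i := by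
  rw [linearCombination_apply, sum_fintype v (fun i a => a • f i) fun _ => zero_smul _ _,
    finsetSum_apply]
  rfl

omit [Fintype D] in
theorem isBM0 : IsBM (rc G fun y y' : Str D k => y = y') (T1 G D)
    (pB (sg (G := G)) (fun A : Finset D => -(A.card : ℤ)) (fun y A => (y.I, mv y.c A (-1))) kz) := by
  refine isBM_pB isRel1 ?_ ?_ (fun g A => ?_) ?_ (fun A A' h => ?_) ?_ ?_
  · exact sg_one
  · exact sg_mul
  · rw [Finset.card_smul_finset]
  · rintro g _ y A rfl
    refine ⟨rfl, fun i hi => le_of_eq ?_⟩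
    change mv (g • y).c _ _ i = (g • mv y.c A (-1)) i
    rw [smul_mv, mv, mv, Str.smul_c _ _ hi]
  · obtain ⟨i, hi, rfl⟩ := kz_supp h
    refine ⟨by rw [← Finset.card_erase_add_one hi]; omega, fun y => ⟨rfl, fun x _ => ?_⟩⟩
    change mv _ _ _ x ≤ mv _ _ _ x
    by_cases h1 : x ∈ A <;> by_cases h2 : x = i <;> simp [mv, h1, h2, hi]
  · exact kz_kz
  · exact kz_smul

theorem comm_th {n : ℤ} {a : EE G D k} (h1 : sig a = n.negOnePow • a) (A A' : Finset D) :
    ∑ x, ent A x a * (kz x A' : RG G) = n.negOnePow • ∑ x, (kz A x : RG G) * ent x A' a := by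
  have h2 := congrArg rho (mul_th a)
  rw [h1, rho_mul, rho_mul, Units.smul_def, map_zsmul, mul_smul_comm] at h2
  have h3 := congrFun (congrFun h2 A) A'
  rw [Matrix.smul_apply, Matrix.mul_apply, Matrix.mul_apply] at h3
  simp only [rho_th] at h3
  exact h3

theorem isBM : IsBM ((sys y₀).cat (gfam G (Str D k))) (T1 G D) (ΦB k ent) where
  add a a' A := by
    ext1 A'
    exact map_add (ent A A') a a'
  one A := by
    ext1 A'
    refine (rho_b ∅ none 1 A A').trans ?_
    simp [sg_one, w_empty_left, single_apply, eq_comm, MonoidAlgebra.one_def]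
  mul {_ _ _ _ _ a a'} _ _ A := by
    ext1 A'
    rw [lc_apply]
    exact (congrFun (congrFun (rho_mul a a') A) A').trans (Matrix.mul_apply)
  mem {n o o' a} ha A A' := by
    have key : ∀ g, (ent A A' a).coeff g ≠ 0 → ∃ J, g • o'.mv J 1 = o ∧ (J.card : ℤ) = n ∧
        g • (J ∪ A') = A ∧ Disjoint J A' := fun g hg => by
      obtain ⟨l, h1, h2⟩ := ent_supp hg
      obtain ⟨h3, h4⟩ := (ha l).2 fun e => h1 (by rw [show cE a l = 0 from e]; rfl)
      exact ⟨l.1, (val_src h3).1 ▸ (ha l).1 g h1, h4, h2⟩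
    refine mem_rc.2 ⟨fun g hg => ?_, fun h0 => ?_⟩
    · obtain ⟨J, rfl, -, rfl, hd⟩ := key g hg
      refine ⟨rfl, fun i hi => ?_⟩
      change mv (g • o'.mv J 1).c _ _ i ≤ (g • mv o'.c A' (-1)) i
      obtain ⟨i, rfl⟩ := ex_smul g i
      have h5 : i ∈ J → i ∉ A' := fun e => Finset.disjoint_left.1 hd e
      rw [smul_mv, Str.smul_mv, mv, mv, Str.mv_c (g • o') _ _ hi, Str.smul_c g o' hi]
      simp only [Finset.smul_mem_smul_finset_iff, Finset.mem_union]
      by_cases h1 : i ∈ J <;> by_cases h2 : i ∈ A' <;> simp_all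
    · obtain ⟨g, hg⟩ : ∃ g, (ent A A' a).coeff g ≠ 0 := by
        by_contra hn
        exact h0 (MonoidAlgebra.ext (Finsupp.ext fun g => not_not.1 fun e => hn ⟨g, e⟩))
      obtain ⟨J, -, rfl, rfl, hd⟩ := key g hg
      change (J.card : ℤ) + -((g • (J ∪ A')).card : ℤ) - -(A'.card : ℤ) = 0
      rw [Finset.card_smul_finset, Finset.card_union_of_disjoint hd]
      omega
  pt o := isBM0.pt o
  d {n o o' a} ha A := by
    ext1 A'
    rw [bcat_D, Finsupp.add_apply, Finsupp.smul_apply, lc_apply, lc_apply]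
    refine (comm_th (isSys.good.σ_eq ha) A A').trans ?_
    have h4 : ((ΦB k ent).act (((sys y₀).cat (gfam G (Str D k))).d a) A) A' = 0 :=
      map_zero (ent (G := G) (k := k) A A')
    rw [h4, zero_add]
    rfl

end KSb

open KSb in
theorem st_ks : St_KS := by
  intro G D _ _ _ _ _ _ k hk
  obtain ⟨I, -, hI⟩ := Finset.exists_subset_card_eq (s := Finset.univ) hk
  refine ⟨EE G D k, Lt D k, inferInstance, sys (Str.of I hI 0), fun x y => b {x} (some y) 1, ent,
    isSys, rfl, fun y x hx => b_mem (J := {x}) (o' := y) (T := fun l => (l.1.card : ℤ) = 1)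
      (by simp) (by simpa using hx) rfl (one_smul _ _),
    fun x y g => ?_, fun x x' _ _ y => ?_, fun x _ y => ?_, fun x y => ?_, isBM, fun A A' r => ?_,
    fun A A' x y => ent_x A A' x _, fun A A' a g h => ?_⟩
  · change _ * iH _ = iH _ * _
    simp [iH_single, b_mul, sg_singleton, sg_empty, w_empty_right, w_empty_left]
  · rw [b_right, b_right, w_swap_single, neg_smul, Finset.union_comm]
  · rw [b_right, w_eq_zero (by simp), zero_smul]
  · change cE _ (∅, none) = 0
    rw [cE_b, single_eq_of_ne (by simp)]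
  · change ent A A' (iH r) = _
    induction r using MonoidAlgebra.induction_linear with
    | zero => simp
    | add _ _ h h' => simp only [map_add, h, h']
    | single g n =>
      rw [iH_single, map_zsmul, pent_single]
      refine (congrArg (n • ·) (rho_b ∅ none g A A')).trans ?_
      simp [w_empty_left, mul_comm]
  · obtain ⟨l, -, rfl, -⟩ := ent_supp h
    exact Finset.smul_finset_subset_smul_finset Finset.subset_union_right

end Pool.Agent.Lib.NIL.EA
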