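import Pool.Agent.Lib.NIL.EA.Blue
import Pool.Agent.Lib.NIL.EA.G1
import Pool.Agent.Lib.NIL.EA.G3
import Pool.Agent.Lib.NIL.A7

/-! The Koszul dual of the Koszul complex of the `m`-th powers is cellular. -/

namespace Pool.Agent.Lib.NIL.EA

open Finsupp Pointwise

namespace KZ

variable {G D : Type} [Group G] [LinearOrder D] [MulAction G D] [MulAction G (Pt D)] [Aff G D]
  {k : ℕ} {E : Type} [Ring E]

theorem ex_coeff {a : RG G} (h : a ≠ 0) : ∃ g, a.coeff g ≠ 0 := by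
  by_contra h0
  exact h (MonoidAlgebra.ext (Finsupp.ext fun g => not_not.1 fun h1 => h0 ⟨g, h1⟩))

theorem psi_δ (i : RG G →+* E) (ξ : D → Str D k → E) (U : Raw (RG G) (Finset D × Pt D))
    (a b : (Ψ i ξ U).ι) [Decidable (a.1.1 = b.1.1)] : (Ψ i ξ U).δ (single a 1) b =
      i (pent (fun _ _ => 1) a.1.2 b.1.2 (U.δ (single a.1.1 1) b.1.1)) +
        if a.1.1 = b.1.1 then (U.deg a.1.1).negOnePow • (ΨB i ξ).Δ a.1.2 b.1.2 else 0 := by
  rw [Raw.res_δ, ← pact_apply]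
  exact bm_δ (T := ΨB i ξ) (pact_zero i fun _ _ => 1) _ _ _ _

theorem Δ_supp {i : RG G →+* E} {ξ : D → Str D k → E} {y y' : Str D k}
    (h : (ΨB i ξ).Δ y y' ≠ 0) : ∃ x ∈ y.I, y' = y.mv {x} (-1) := by
  by_contra hn
  refine h ?_
  change (-∑ x ∈ y.I, single (y.mv {x} (-1)) (ξ x (y.mv {x} (-1)))) y' = 0
  rw [Finsupp.neg_apply, Finsupp.finsetSum_apply, neg_eq_zero]
  exact Finset.sum_eq_zero fun x hx => single_eq_of_ne fun e => hn ⟨x, hx, e⟩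

theorem psi_supp {i : RG G →+* E} {ξ : D → Str D k → E} {U : Raw (RG G) (Finset D × Pt D)}
    {a b : (Ψ i ξ U).ι} (h : (Ψ i ξ U).δ (single a 1) b ≠ 0) :
    (∃ g : G, g • b.1.2 = a.1.2 ∧ (U.δ (single a.1.1 1) b.1.1).coeff g ≠ 0) ∨
      a.1.1 = b.1.1 ∧ ∃ x ∈ a.1.2.I, b.1.2 = a.1.2.mv {x} (-1) := by
  classical
  rw [psi_δ] at h
  by_cases h1 : pent (fun _ _ => 1) a.1.2 b.1.2 (U.δ (single a.1.1 1) b.1.1) = 0
  · rw [h1, map_zero, zero_add] at h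
    split_ifs at h with e
    · exact Or.inr ⟨e, Δ_supp (i := i) (ξ := ξ) fun h' => h (by rw [h', smul_zero])⟩
    · exact absurd rfl h
  · obtain ⟨g, hg⟩ := ex_coeff h1
    exact Or.inl ⟨g, pent_supp hg⟩

theorem psi_aug {i : RG G →+* E} {ξ : D → Str D k → E} {u : E →+ RG G} (h1 : ∀ r, u (i r) = r)
    (h2 : ∀ x y, u (ξ x y) = 0) (U : Raw (RG G) (Finset D × Pt D)) (a b : (Ψ i ξ U).ι) :
    u ((Ψ i ξ U).δ (single a 1) b) =
      pent (fun _ _ => 1) a.1.2 b.1.2 (U.δ (single a.1.1 1) b.1.1) := by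
  classical
  have : u ((ΨB i ξ).Δ a.1.2 b.1.2) = 0 := by
    change u ((-∑ x ∈ a.1.2.I, single (a.1.2.mv {x} (-1)) (ξ x (a.1.2.mv {x} (-1)))) b.1.2) = 0
    rw [Finsupp.neg_apply, Finsupp.finsetSum_apply, map_neg, map_sum, neg_eq_zero]
    refine Finset.sum_eq_zero fun x _ => ?_
    rw [single_apply]
    split_ifs
    exacts [h2 _ _, map_zero u]
  rw [psi_δ, map_add, h1]
  split_ifs
  · rw [Units.smul_def, map_zsmul, this, smul_zero, add_zero]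
  · rw [map_zero, add_zero]

omit [MulAction G (Pt D)] [Aff G D] in
theorem kz_supp' {m : ℤ} {Z : Raw (RG G) (Pt D)} {a b : (Kz k m Z).ι} {g : G}
    (h : ((Kz k m Z).δ (single a 1) b).coeff g ≠ 0) :
    (Z.δ (single a.1.1 1) b.1.1).coeff g ≠ 0 ∨
      a.1.1 = b.1.1 ∧ g = 1 ∧ ∃ x ∈ a.1.2.1, x ∉ a.1.2.2 ∧ b.1.2 = (a.1.2.1, insert x a.1.2.2) := by
  rw [Raw.res_δ] at h
  rcases pB_supp h with h | h
  exacts [Or.inl h.2, Or.inr ⟨h.1, h.2.1, kw_supp h.2.2⟩]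

end KZ

open KZ

theorem st_kz (hL : St_LAM) (hP : St_PSI) : St_KZ := by
  classical
  intro G D _ _ _ _ _ _ k E Λ _ S ξ ent hK Z m hZ hZ1
  obtain ⟨-, -, hL'⟩ := hL G D
  obtain ⟨-, hΨ, -, hB, -⟩ := hP G D k E Λ S ξ ent hK
  have hC := hK.sys.good
  have hA := hK.sys.aug' le_rfl
  have := hZ1.1
  have hKz := (hL' Z hZ).2.2.1 k m
  have hV := hΨ.obj hKz
  obtain ⟨ρ, hρ⟩ := hZ1.rank
  have hρ' : ∀ {z z' g}, (Z.δ (single z 1) z').coeff g ≠ 0 → ρ z' < ρ z := fun h =>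
    hρ _ _ fun e => h (by rw [e]; rfl)
  let V := Ψ S.i ξ (Kz k m Z)
  let q : V.ι → Prop := fun i => ∃ x ∈ i.1.2.I, i.1.2.c x ≤ Z.lab i.1.1.1.1 x
  have hq : V.Closed q := by
    rintro a b ⟨x, hx, hc⟩ h
    rcases psi_supp h with ⟨g, hg, h⟩ | ⟨e, x', -, e'⟩
    · rcases kz_supp' h with h | ⟨e, rfl, -⟩
      · obtain ⟨x, rfl⟩ := ex_smul g x
        rw [← hg] at hx hc
        rw [Str.smul_c g _ hx] at hc
        exact ⟨x, (Finset.smul_mem_smul_finset_iff g).1 hx,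
          (smul_le g).1 (hc.trans ((rc_hom.1 hZ.1 _ _ g h).1 _))⟩
      · rw [one_smul] at hg
        exact ⟨x, hg ▸ hx, by rw [hg, ← e]; exact hc⟩
    · refine ⟨x, e' ▸ hx, ?_⟩
      rw [e', ← e, Str.mv_c _ _ _ hx]
      split_ifs <;> omega
  have hS := hC.ses_res hV hq
  have hbd : ∀ i : (V.res fun i => ¬ q i).ι, ∀ x ∈ i.1.1.2.I, x ∈ i.1.1.1.1.2.2 ∧
      Z.lab i.1.1.1.1.1 x < i.1.1.2.c x ∧ i.1.1.2.c x ≤ Z.lab i.1.1.1.1.1 x + m := by
    intro i x hx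
    have h1 : Z.lab i.1.1.1.1.1 x < i.1.1.2.c x := not_le.1 fun h => i.2 ⟨x, hx, h⟩
    have h2 : i.1.1.2.c x ≤ mv (Z.lab i.1.1.1.1.1) i.1.1.1.1.2.2 m x := i.1.2.2 x hx
    unfold mv at h2
    split_ifs at h2 with e
    · exact ⟨e, h1, h2⟩
    · omega
  refine hC.inO_of_eqv (hC.ses_eqv_of_ctr_left hS ?_) (hC.inO_of_fin1 hS.2.2.1 ⟨?_, ?_⟩)
  · refine hA.ctr_of le_rfl hS.1 ((hB _ (Raw.bdd_of_finite inferInstance)).res q) ?_
    have hO := (hA.hU.isFn hC hA.good₀).obj hS.1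
    rw [Raw.mapA_res] at hO ⊢
    have hX : ∀ (z : Z.ι) (y : Str D k), ∃ X : Finset D, (∀ x ∈ X, x ∈ y.I ∧ y.c x ≤ Z.lab z x) ∧
        ((∃ x ∈ y.I, y.c x ≤ Z.lab z x) → ∃ x, X = {x}) := fun z y => by
      by_cases h : ∃ x ∈ y.I, y.c x ≤ Z.lab z x
      · obtain ⟨x, hx⟩ := h
        exact ⟨{x}, fun x' hx' => Finset.mem_singleton.1 hx' ▸ hx, fun _ => ⟨x, rfl⟩⟩
      · exact ⟨∅, fun _ h => absurd h (Finset.notMem_empty _), fun h' => absurd h' h⟩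
    choose X hX1 hX2 using hX
    let mt : V.ι → V.ι := fun i => ⟨(⟨(i.1.1.1.1, i.1.1.1.2.1,
      symmDiff i.1.1.1.2.2 (X i.1.1.1.1 i.1.2)), i.1.1.2.1, fun x hx => by
        rcases Finset.mem_symmDiff.1 hx with h | h
        · exact i.1.1.2.2 h.1
        · exact i.2.1 ▸ (hX1 _ _ x h.1).1⟩, i.1.2), i.2.1, fun x hx => by
        have h2 : i.1.2.c x ≤ mv (Z.lab i.1.1.1.1) i.1.1.1.2.2 m x := i.2.2 x hx
        have h3 := hX1 i.1.1.1.1 i.1.2 x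
        change i.1.2.c x ≤ mv (Z.lab i.1.1.1.1) (symmDiff i.1.1.1.2.2 (X i.1.1.1.1 i.1.2)) m x
        simp only [mv, Finset.mem_symmDiff] at h2 ⊢
        by_cases e : x ∈ X i.1.1.1.1 i.1.2
        · have := (h3 e).2
          split_ifs <;> omega
        · simpa [e] using h2⟩
    have hup : ∀ (J : Finset D) x, x ∉ J → symmDiff J {x} = insert x J := fun J x hx => by
      ext y
      simp only [Finset.mem_symmDiff, Finset.mem_singleton, Finset.mem_insert]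
      grind
    have hδ : ∀ a b : V.ι, (V.mapA S.aug id).δ (single a 1) b =
        pent (fun _ _ => 1) a.1.2 b.1.2 ((Kz k m Z).δ (single a.1.1 1) b.1.1) := fun a b =>
      (mapL_single _ _ _ _).trans (psi_aug hK.sys.aug_i hK.ξ_aug _ a b)
    refine Mt.ctr (α := ℕ ×ₗ ℕ) (up := fun i => ∀ x ∈ X i.1.1.1.1 i.1.2, x ∉ i.1.1.1.2.2) (m := mt)
      (ρ := fun i => toLex (ρ i.1.1.1.1,
        Fintype.card D - (i.1.1.1.2.2 \ X i.1.1.1.1 i.1.2).card))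
      ⟨fun _ h => h, fun i _ => ?_, fun i h => ?_, fun i _ => ?_, fun i h h' => ?_,
        fun i _ _ => hA.good₀.one_mem _, fun i h h' => ?_, fun i i' h _ h' => ?_⟩ hA.good₀ hO
    · exact Subtype.ext (Prod.ext (Subtype.ext (Prod.ext rfl (Prod.ext rfl
        (symmDiff_symmDiff_cancel_right _ _)))) rfl)
    · obtain ⟨x, e⟩ := hX2 _ _ h
      change (∀ x ∈ X i.1.1.1.1 i.1.2, x ∉ symmDiff i.1.1.1.2.2 (X i.1.1.1.1 i.1.2)) ↔ _
      rw [e]
      simp [Finset.mem_symmDiff]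
    · change toLex (_, _ - (symmDiff i.1.1.1.2.2 (X i.1.1.1.1 i.1.2) \ X i.1.1.1.1 i.1.2).card) = _
      rw [symmDiff_sdiff_right]
    · obtain ⟨x, e⟩ := hX2 _ _ h
      have hx : x ∉ i.1.1.1.2.2 := h' x (e ▸ Finset.mem_singleton_self x)
      change Z.deg _ + ((symmDiff i.1.1.1.2.2 (X i.1.1.1.1 i.1.2)).card : ℤ) + 0 =
        Z.deg _ + (i.1.1.1.2.2.card : ℤ) + 0 + 1
      rw [e, hup _ _ hx, Finset.card_insert_of_notMem hx]
      push_cast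
      ring
    · obtain ⟨x, e⟩ := hX2 _ _ h
      have hx' : x ∈ X i.1.1.1.1 i.1.2 := e ▸ Finset.mem_singleton_self x
      have hx : x ∉ i.1.1.1.2.2 := h' x hx'
      obtain ⟨s, hs⟩ := kw_unit (I := i.1.1.1.2.1) (i.2.1 ▸ (hX1 _ _ x hx').1) hx
      refine ⟨(Z.deg i.1.1.1.1).negOnePow * s, ?_⟩
      rw [hδ, Raw.res_δ]
      change pent _ i.1.2 i.1.2 ((Z.bm (KB G D m)).δ (single (i.1.1.1.1, i.1.1.1.2.1, i.1.1.1.2.2) 1)
        (i.1.1.1.1, i.1.1.1.2.1, symmDiff i.1.1.1.2.2 (X i.1.1.1.1 i.1.2))) = _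
      rw [pB_δ, if_pos rfl, diag_zero hZ1.2, map_zero, zero_add, e, hup _ _ hx, hs, mul_smul,
        ← zsmul_one, Units.smul_def, Units.smul_def, Units.smul_def, map_zsmul, map_zsmul,
        MonoidAlgebra.one_def, pent_single, if_pos (one_smul _ _), one_mul]
    · rw [hδ] at h'
      obtain ⟨g, hg⟩ := ex_coeff h'
      obtain ⟨e1, hg⟩ := pent_supp hg
      rcases kz_supp' hg with hg | ⟨e2, rfl, x, -, hx, e3⟩
      · exact Or.inl (Prod.Lex.lt_iff.2 (Or.inl (hρ' hg)))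
      · rw [one_smul] at e1
        obtain ⟨x', e⟩ := hX2 _ _ h
        by_cases e4 : x = x'
        · subst e4
          refine Or.inr ⟨fun y hy => ?_, Subtype.ext (Prod.ext (Subtype.ext (Prod.ext e2.symm
            (e3.trans (Prod.ext rfl ?_)))) e1)⟩
          · rw [e, Finset.mem_singleton] at hy
            exact hy ▸ hx
          · change _ = symmDiff i.1.1.1.2.2 (X i.1.1.1.1 i.1.2)
            rw [e, hup _ _ hx]
        · refine Or.inl (Prod.Lex.lt_iff.2 (Or.inr ⟨congrArg ρ e2.symm, ?_⟩))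
          change _ - (i'.1.1.1.2.2 \ X i'.1.1.1.1 i'.1.2).card <
            _ - (i.1.1.1.2.2 \ X i.1.1.1.1 i.1.2).card
          have h5 := Finset.card_le_univ (i'.1.1.1.2.2 \ X i'.1.1.1.1 i'.1.2)
          rw [e1, ← e2, e3, e] at h5 ⊢
          rw [e, Finset.insert_sdiff_of_notMem _ (by simpa using e4),
            Finset.card_insert_of_notMem (fun h => hx (Finset.mem_sdiff.1 h).1)] at *
          omega
  · refine Finite.of_injective (β := (Z.ι × Finset D × Finset D) × (D → Fin (m + 1)))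
      (fun i => (i.1.1.1.1, fun x => if h : x ∈ i.1.1.2.I then
        ⟨(i.1.1.2.c x - Z.lab i.1.1.1.1.1 x).toNat, by have := hbd i x h; omega⟩ else 0)) ?_
    intro a b e
    obtain ⟨e1, e2⟩ := Prod.ext_iff.1 e
    have e3 : a.1.1.2.I = b.1.1.2.I :=
      a.1.2.1.trans ((congrArg (fun p => p.2.1) e1).trans b.1.2.1.symm)
    refine Subtype.ext (Subtype.ext (Prod.ext (Subtype.ext e1) (Str.ext' e3 fun x hx => ?_)))
    have h1 := congrFun e2 x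
    have h2 := hbd a x hx
    have h3 := hbd b x (e3 ▸ hx)
    simp only [dif_pos hx, dif_pos (e3 ▸ hx), Fin.mk.injEq] at h1
    have h4 : Z.lab a.1.1.1.1.1 x = Z.lab b.1.1.1.1.1 x := by
      rw [show a.1.1.1.1 = b.1.1.1.1 from e1]
    omega
  · refine Subrelation.wf (r := InvImage (· < ·) fun i : (V.res fun i => ¬ q i).ι =>
      toLex (ρ i.1.1.1.1.1, ∑ x ∈ i.1.1.2.I, (i.1.1.2.c x - Z.lab i.1.1.1.1.1 x).toNat))
      (fun {b a} h => ?_) (InvImage.wf _ wellFounded_lt)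
    rw [Raw.res_δ] at h
    rcases psi_supp h with ⟨g, -, h⟩ | ⟨e, x, hx, e'⟩
    · rcases kz_supp' h with h | ⟨-, -, x, hx, hx', -⟩
      · exact Prod.Lex.lt_iff.2 (Or.inl (hρ' h))
      · exact absurd (hbd a x ((show a.1.1.2.I = a.1.1.1.1.2.1 from a.1.2.1) ▸ hx)).1 hx'
    · refine Prod.Lex.lt_iff.2 (Or.inr ⟨congrArg (fun p : (Kz k m Z).ι => ρ p.1.1) e.symm, ?_⟩)
      change ∑ x ∈ b.1.1.2.I, (b.1.1.2.c x - Z.lab b.1.1.1.1.1 x).toNat <
        ∑ x ∈ a.1.1.2.I, (a.1.1.2.c x - Z.lab a.1.1.1.1.1 x).toNat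
      rw [e', ← e, Str.mv_I]
      refine Finset.sum_lt_sum (fun y hy => ?_) ⟨x, hx, ?_⟩
      · rw [Str.mv_c _ _ _ hy]
        split_ifs <;> omega
      · have := hbd a x hx
        rw [Str.mv_c _ _ _ hx, if_pos (Finset.mem_singleton_self x)]
        omega

end Pool.Agent.Lib.NIL.EA
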