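import Pool.Agent.Lib.NIL.EA.Blue
import Pool.Agent.Lib.NIL.EA.G1
import Pool.Agent.Lib.NIL.EA.G2

/-! LAM: the transfer to the strata and the Koszul complexes. -/

set_option linter.unusedSectionVars false

namespace Pool.Agent.Lib.NIL.EA

open Finsupp Pointwise

namespace LAM

variable {G D : Type} [Group G] [LinearOrder D] [MulAction G D] [MulAction G (Pt D)]

theorem ex_coeff {a : RG G} (h : a ≠ 0) : ∃ g, a.coeff g ≠ 0 := by
  by_contra hn
  refine h (MonoidAlgebra.coeff_injective (Finsupp.ext fun g => ?_))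
  exact by_contra fun e => hn ⟨g, e⟩

theorem pent_fix {κ : Type} [MulAction G κ] {k : κ} (h : ∀ g : G, g • k = k) (a : RG G) :
    pent (fun _ _ => 1) k k a = a := by
  classical
  refine MonoidAlgebra.coeff_injective (Finsupp.ext fun g => ?_)
  rw [pent_coeff, if_pos (h g), one_mul]

theorem bmΛ [Aff G D] : IsBM (T0 G D) (T1 G D) (ΛB G D) :=
  isBM_pB isRel1 (fun _ => rfl) (fun _ _ _ => rfl) (fun _ _ => rfl)
    (fun _ _ _ _ h => ⟨rfl, fun i _ => h i⟩) (fun _ _ h => absurd rfl h) (fun _ => map_zero _)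
    fun _ _ _ => rfl

theorem bmK [Aff G D] (m : ℕ) : IsBM (T0 G D) (T1 G D) (KB G D m) := by
  refine isBM_pB isRel1 (fun p => sg_one p.2) (fun g h p => sg_mul g h p.2)
    (fun g p => congrArg Nat.cast (Finset.card_smul_finset g p.2))
    (fun g o o' p h => ⟨rfl, fun i _ => ?_⟩) (fun p p' h => ?_) kw_kw kw_smul
  · change mv o (g • p.2) m i ≤ (g • mv o' p.2 m) i
    have := h i
    rw [smul_mv, mv, mv]
    split_ifs <;> omega
  · obtain ⟨i, -, hi, rfl⟩ := kw_supp h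
    refine ⟨by simp [Finset.card_insert_of_notMem hi], fun o => ⟨rfl, fun j _ => ?_⟩⟩
    change mv o p.2 m j ≤ mv o (insert i p.2) m j
    rw [mv, mv]
    by_cases hj : j ∈ p.2
    · rw [if_pos hj, if_pos (Finset.mem_insert_of_mem hj)]
    · rw [if_neg hj]
      split_ifs <;> omega

theorem clΛ (Z : Raw (RG G) (Pt D)) (q : Finset D → Prop) (hq : ∀ (g : G) I, q (g • I) → q I) :
    (Z.bm (ΛB G D)).Closed fun p => q p.2 := by
  rintro ⟨y, I⟩ ⟨y', I'⟩ h hne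
  obtain ⟨g, hg⟩ := ex_coeff hne
  rcases pB_supp hg with ⟨rfl, -⟩ | ⟨-, -, h0⟩
  · exact hq g I' h
  · exact absurd rfl h0

theorem clK (Z : Raw (RG G) (Pt D)) (k : ℕ) (m : ℤ) :
    (Z.bm (KB G D m)).Closed fun p => p.2.1.card = k ∧ p.2.2 ⊆ p.2.1 := by
  rintro ⟨y, p⟩ ⟨y', p'⟩ h hne
  obtain ⟨g, hg⟩ := ex_coeff hne
  rcases pB_supp hg with ⟨rfl, -⟩ | ⟨-, -, h0⟩
  · exact ⟨(Finset.card_smul_finset g p'.1).symm.trans h.1,
      Finset.smul_finset_subset_smul_finset_iff.1 h.2⟩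
  · obtain ⟨i, hi, -, rfl⟩ := kw_supp h0
    exact ⟨h.1, Finset.insert_subset hi h.2⟩

theorem δ_fix (Z : Raw (RG G) (Pt D)) {I : Finset D} (h : ∀ g : G, g • I = I) (y y' : Z.ι) :
    (Z.bm (ΛB G D)).δ (single (y, I) 1) (y', I) = Z.δ (single y 1) y' := by
  classical
  rw [pB_δ, pent_fix h, Finsupp.zero_apply, Int.cast_zero, smul_zero, ite_self, add_zero]

variable [Aff G D] {Z : Raw (RG G) (Pt D)}

theorem objΛ (hZ : (T0 G D).Obj Z) (q : Finset D → Prop) (hq : ∀ (g : G) I, q (g • I) → q I) :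
    (T1 G D).Obj ((Z.bm (ΛB G D)).res fun p => q p.2) :=
  (isRel1.good.ses_res ((bmΛ.isFn isRel0.good isRel1.good).obj hZ) (clΛ Z q hq)).1

theorem ctr_top [Fintype D] (hZ : (T0 G D).Obj Z) (h : Hk (Fintype.card D + 1) Z) :
    (T0 G D).Ctr Z := by
  have h1 : (T1 G D).Good := isRel1.good
  have hu : ∀ g : G, g • (Finset.univ : Finset D) = Finset.univ := fun g =>
    Finset.eq_univ_of_card _ ((Finset.card_smul_finset g _).trans Finset.card_univ)
  have o := objΛ hZ (fun I => I.card < Fintype.card D + 1) fun g I hI => by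
    rwa [Finset.card_smul_finset] at hI
  obtain ⟨-, n, -⟩ := h1.nul_res (fun o => o.1 = Finset.univ) (fun k o o' a ho ho' ha => by
    by_contra hne
    obtain ⟨g, hg⟩ := ex_coeff hne
    have e : o.1 = g • o'.1 := ((mem_rc.1 ha).1 g hg).1
    refine ho' (Finset.eq_univ_of_card _ ?_)
    rw [← Finset.card_smul_finset g, ← e, ho, Finset.card_univ]) o (Cat.nul_one.2 h)
  refine ctr_of_relab (C₁ := T1 G D) (l := fun c => (Finset.univ, c)) rfl
    (fun k c c' a ha => mem_rc.2 ⟨fun g hg i => ((mem_rc.1 ha).1 g hg).2 i (Finset.mem_univ i),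
      (mem_rc.1 ha).2⟩) (h1.ctr_of_retr (Cat.Eqv.retr ?_) (Cat.nul_one.1 n))
  refine eqv_res_of_emb h1 _ (fun z => ⟨(z, Finset.univ), by simp⟩)
    (fun a b e => congrArg (fun i => i.1.1) e) (fun i => ⟨fun hi => ⟨i.1.1, ?_⟩, ?_⟩)
    (fun z => add_zero _) (fun z => ⟨h1.one_mem _, h1.one_mem _⟩) fun z z' => ?_
  · exact Subtype.ext (Prod.ext rfl hi.symm)
  · rintro ⟨z, rfl⟩
    rfl
  · rw [Raw.res_δ]
    exact δ_fix Z hu z z'

theorem hk_one (h : (tcat (RG G) Unit).Ctr (Z.relab fun _ => ())) : Hk 1 Z := by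
  have h1 : (T1 G D).Good := isRel1.good
  have he : ∀ (c c' : Pt D) (g : G), r1 ((∅ : Finset D), c) (g • ((∅ : Finset D), c')) :=
    fun c c' g => ⟨(Finset.smul_finset_empty g).symm, fun i hi => absurd hi (by simp)⟩
  have c : (T1 G D).Ctr ((Z.relab fun _ => ()).relab fun _ => ((∅ : Finset D), (0 : Pt D))) :=
    ht_relab (C := tcat (RG G) Unit) (C₁ := T1 G D) rfl
      (fun k _ _ a ha => mem_rc.2 ⟨fun g _ => he _ _ g, (mem_bcat.1 ha).2⟩) h
  refine h1.ctr_of_retr (Cat.Eqv.retr (Cat.Eqv.symm ?_)) c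
  refine eqv_res_of_emb h1 _ (fun z => (z, ∅)) (fun a b e => congrArg Prod.fst e)
    (fun i => ⟨fun hi => ⟨i.1, Prod.ext rfl ?_⟩, ?_⟩) (fun z => add_zero _)
    (fun z => ⟨one_mem_rc ?_, one_mem_rc ?_⟩) fun z z' => δ_fix Z Finset.smul_finset_empty z z'
  · exact (Finset.card_eq_zero.1 (Nat.lt_one_iff.1 hi)).symm
  · rintro ⟨z, rfl⟩
    exact Nat.zero_lt_one
  · exact ⟨rfl, fun i hi => absurd hi (Finset.notMem_empty i)⟩
  · exact ⟨rfl, fun i hi => absurd hi (Finset.notMem_empty i)⟩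

end LAM

theorem st_lam : St_LAM := by
  intro G D _ _ _ _ _ _
  refine ⟨LAM.bmΛ, LAM.bmK, fun Z hZ => ⟨LAM.clΛ Z, fun k => ⟨LAM.objΛ hZ (fun I => I.card = k)
    fun g I hI => (Finset.card_smul_finset g I).symm.trans hI, fun hf => Raw.Fin1.res ⟨?_, ?_⟩ _⟩,
    fun k m => (isRel1.good.ses_res (((LAM.bmK m).isFn isRel0.good isRel1.good).obj hZ)
      (LAM.clK Z k m)).1, LAM.ctr_top hZ, LAM.hk_one⟩⟩
  · have := hf.1
    infer_instance
  · refine bm_wf LAM.bmΛ.act_zero ⟨fun I => ⟨I, fun I' h => absurd ?_ h⟩⟩ hf.2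
    exact (zc_apply _ _).trans Int.cast_zero

end Pool.Agent.Lib.NIL.EA
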