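import Pool.Agent.Lib.NIL.EA.Blue
import Pool.Agent.Lib.NIL.EA.G3
import Pool.Agent.Lib.NIL.WhE

/-! Block MAIN: the induction over the strata. -/

namespace Pool.Agent.Lib.NIL.EA

open Finsupp Pointwise Pool.Agent.WhDet

theorem st_main (hS : St_KS) (hL : St_LAM) (hB : St_B) (hC : St_C) : St_MAIN := by
  intro G D _ _ _ _ _ _
  intro hsum hW hLQ
  have key : ∀ j k : ℕ, k + j = Fintype.card D + 1 → 1 ≤ k → ∀ Z : Raw (RG G) (Pt D),
      (T0 G D).Obj Z → Z.Fin1 → Hk k Z → Tors (whQ G) Z := by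
    intro j
    induction j with
    | zero =>
      intro k hk _ Z hZ hf hH
      obtain rfl : k = Fintype.card D + 1 := hk
      have := hf.1
      refine tors_of_ctr (Tf := rf G r0) (fun c => -∑ i, c i) (fun g s => by rw [hsum])
        (fun s s' a ha g hg => ?_) hW hZ (((hL G D).2.2 Z hZ).2.2.2.1 hH)
      have h1 : ∀ i, s i ≤ (g • s') i := ha g hg
      by_cases h2 : g • s' = s
      · exact .inl h2
      · refine .inr (neg_lt_neg ?_)
        rw [← hsum g s']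
        refine Finset.sum_lt_sum (fun i _ => h1 i) ?_
        by_contra hn
        exact h2 (funext fun i => le_antisymm
          (not_lt.1 fun h => hn ⟨i, Finset.mem_univ i, h⟩) (h1 i))
    | succ j ih =>
      intro k hk h1 Z hZ hf hH
      obtain ⟨E, Λ, _, S, ξ, ent, hK⟩ := hS G D k (by omega)
      obtain ⟨Y, hY, hYf, e⟩ := hB G D k E Λ S ξ ent hK (hLQ k h1).1 (hLQ k h1).2 Z hZ hf hH
      obtain ⟨Z', hZ', hf', hH', ht⟩ := hC G D k E Λ S ξ ent hK h1 Z Y hZ hf hH hY hYf e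
      exact ht (ih (k + 1) (by omega) (by omega) Z' hZ' hf' hH')
  refine wh_of_cl fun n M hM => ?_
  let A : Raw (RG G) (Finset D × Pt D) := ⟨Fin n, fun _ => 0 + 1, fun _ => (∅, 0), 0⟩
  let B : Raw (RG G) (Finset D × Pt D) := ⟨Fin n, fun _ => 0, fun _ => (∅, 0), 0⟩
  have two := fun Q hQ => tors_two (Q := Q) (A := A) (B := B) (θ := unmat M) hQ rfl rfl
    (fun _ => rfl) (fun _ => rfl) (Equiv.refl _)
  simp only [mtx_unmat, Equiv.coe_refl, Matrix.submatrix_id_id] at two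
  have hV := (two _ negCl_mem).1
  have hf := (tcat_good _ _).fin1_of_zero (fun k o o' a hk ha => by_contra fun h0 =>
    hk ((mem_bcat.1 ha).2 h0)) hV inferInstance
  have lab : ∀ i, (A.ext B (unmat M)).lab i = (∅, 0) := by rintro (i | i) <;> rfl
  have hV1 : (T1 G D).Obj (A.ext B (unmat M)) := by
    refine ⟨bcat_hom.2 fun i i' => ⟨fun g _ => ?_, (bcat_hom.1 hV.1 i i').2⟩, hV.2⟩
    rw [lab, lab]
    exact ⟨(Finset.smul_finset_empty g).symm, fun x hx => absurd hx (Finset.notMem_empty x)⟩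
  obtain ⟨ρ, hρ⟩ := hf.rank
  obtain ⟨pos, -, -, hZ, -⟩ := exists_low (Z := ⟨Empty, fun _ => 0, fun _ => 0, 0⟩) hV1 ρ
    (fun i i' g h => .inl (hρ i i' fun h0 => h (by rw [h0]; rfl))) 0 fun _ z => z.elim
  have t0 : Tors ⊤ (A.ext B (unmat M)) := (two _ negCl_top).2.2 ⟨hM, trivial⟩
  have t1 := key (Fintype.card D) 1 (by omega) le_rfl _ hZ hf
    (((hL G D).2.2 _ hZ).2.2.2.2 (Tors.ctr (Q := ⊤) t0))
  exact ((two _ negCl_mem).2.1 t1).2

end Pool.Agent.Lib.NIL.EA
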