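import Pool.Agent.Lib.NIL.EA.Blue
import Pool.Agent.Lib.NIL.EA.G1
import Pool.Agent.Lib.NIL.EA.G3

/-! PP: the Koszul resolution. -/

set_option linter.unusedSectionVars false

noncomputable section

namespace Pool.Agent.Lib.NIL.EA

open Finsupp Pointwise

namespace PP

variable {G D : Type} [Group G] [LinearOrder D] [MulAction G D] [MulAction G (Pt D)] [Aff G D]
  [Fintype D] {k : ℕ} {V : Raw (RG G) (Finset D × Pt D)}

/-- the generators of the resolution -/
abbrev Gen (k : ℕ) (V : Raw (RG G) (Finset D × Pt D)) : Type :=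
  {p : {p : V.ι × Str D k // r1 p.2.lb (V.lab p.1)} × Finset D // p.2 ⊆ p.1.1.2.I}

def gz (b : Gen k V) : V.ι := b.1.1.1.1

def gy (b : Gen k V) : Str D k := b.1.1.1.2

def gA (b : Gen k V) : Finset D := b.1.2

theorem gI (b : Gen k V) : (gy b).I = (V.lab (gz b)).1 := b.1.1.2.1

theorem gle (b : Gen k V) {x : D} (h : x ∈ (gy b).I) : (gy b).c x ≤ (V.lab (gz b)).2 x :=
  b.1.1.2.2 x h

theorem gsub (b : Gen k V) : gA b ⊆ (gy b).I := b.2

theorem gen_ext {b b' : Gen k V} (h1 : gz b = gz b') (h2 : gy b = gy b') (h3 : gA b = gA b') :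
    b = b' := Subtype.ext (Prod.ext (Subtype.ext (Prod.ext h1 h2)) h3)

def mk (z : V.ι) (y : Str D k) (A : Finset D) (h1 : r1 y.lb (V.lab z)) (h2 : A ⊆ y.I) : Gen k V :=
  ⟨(⟨(z, y), h1⟩, A), h2⟩

/-- the multidegree -/
def μ (b : Gen k V) : Pt D := mv (gy b).c (gA b) (-1)

theorem μ_apply (b : Gen k V) (x : D) :
    μ b x = if x ∈ gA b then (gy b).c x + -1 else (gy b).c x := rfl

/-- the coordinates in which the multidegree is not maximal -/
def N (b : Gen k V) : Finset D := (gy b).I.filter fun x => μ b x < (V.lab (gz b)).2 x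

def SS (b : Gen k V) : ℕ := ∑ x ∈ (gy b).I, ((V.lab (gz b)).2 x - μ b x).toNat

theorem mem_N {b : Gen k V} {x : D} : x ∈ N b ↔ x ∈ (gy b).I ∧ μ b x < (V.lab (gz b)).2 x :=
  Finset.mem_filter

theorem mem_N_of {b : Gen k V} {x : D} (h : x ∈ gA b) : x ∈ N b := by
  have := gle b (gsub b h)
  refine mem_N.2 ⟨gsub b h, ?_⟩
  rw [μ_apply, if_pos h]
  omega

theorem N_congr {b b' : Gen k V} (h1 : gz b' = gz b) (h2 : ∀ x ∈ (gy b).I, μ b' x = μ b x) :
    N b' = N b ∧ SS b' = SS b := by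
  have e : (gy b').I = (gy b).I := by rw [gI, gI, h1]
  refine ⟨?_, ?_⟩
  · rw [N, N, e, h1]
    exact Finset.filter_congr fun x hx => by rw [h2 x hx]
  · rw [SS, SS, e, h1]
    exact Finset.sum_congr rfl fun x hx => by rw [h2 x hx]

def dn (b : Gen k V) (x : D) : Gen k V :=
  mk (gz b) ((gy b).mv {x} (-1)) ((gA b).erase x) ⟨gI b, fun i hi => by
    have := gle b hi
    change ((gy b).mv {x} (-1)).c i ≤ _
    rw [Str.mv_c (gy b) _ _ hi]
    split_ifs <;> omega⟩ ((Finset.erase_subset _ _).trans (gsub b))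

def upp (b : Gen k V) (x : D) (h : x ∈ N b) (h' : x ∉ gA b) : Gen k V :=
  mk (gz b) ((gy b).mv {x} 1) (insert x (gA b)) ⟨gI b, fun i hi => by
    have := gle b hi
    have h2 := (mem_N.1 h).2
    rw [μ_apply, if_neg h'] at h2
    change ((gy b).mv {x} 1).c i ≤ _
    rw [Str.mv_c (gy b) _ _ hi]
    split_ifs with e
    · rw [Finset.mem_singleton.1 e]
      omega
    · exact this⟩ (Finset.insert_subset (mem_N.1 h).1 (gsub b))

def apex (hk : ∀ i, (V.lab i).1.card = k) (z : V.ι) : Gen k V :=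
  mk z (Str.of _ (hk z) (V.lab z).2) ∅ ⟨rfl, fun _ hi => (Str.of_c (hk z) (V.lab z).2 hi).le⟩
    (Finset.empty_subset _)

theorem μ_dn {b b' : Gen k V} {x : D} (h : x ∈ gA b) (h1 : gy b' = (gy b).mv {x} (-1))
    (h2 : gA b' = (gA b).erase x) (i : D) (hi : i ∈ (gy b).I) : μ b' i = μ b i := by
  rw [μ_apply, μ_apply, h1, h2, Str.mv_c _ _ _ hi]
  by_cases e : i = x
  · subst e
    simp [h]
  · simp [e]

theorem μ_upp {b : Gen k V} {x : D} (h : x ∈ N b) (h' : x ∉ gA b) (i : D) (hi : i ∈ (gy b).I) :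
    μ (upp b x h h') i = μ b i := by
  rw [μ_apply, μ_apply]
  change (if i ∈ insert x (gA b) then ((gy b).mv {x} 1).c i + -1 else ((gy b).mv {x} 1).c i) = _
  rw [Str.mv_c _ _ _ hi]
  by_cases e : i = x
  · subst e
    simp [h']
  · simp [e]

theorem mv_mv (y : Str D k) (x : D) (m : ℤ) : (y.mv {x} m).mv {x} (-m) = y :=
  Str.ext' rfl fun i hi => by
    rw [Str.mv_c (y.mv {x} m) _ _ hi, Str.mv_c y _ _ hi]
    split_ifs <;> omega

theorem mv_ne (y : Str D k) {x : D} (h : x ∈ y.I) : y.mv {x} (-1) ≠ y := fun e => by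
  have := congrFun (congrArg Str.c e) x
  rw [Str.mv_c _ _ _ h, if_pos (Finset.mem_singleton_self x)] at this
  omega

theorem N_apex (hk : ∀ i, (V.lab i).1.card = k) (z : V.ι) : N (apex hk z) = ∅ :=
  Finset.filter_eq_empty_iff.2 fun x hx => by
    have e : x ∉ gA (apex hk z) := Finset.notMem_empty x
    rw [μ_apply, if_neg e]
    exact not_lt.2 (Str.of_c (hk z) (V.lab z).2 hx).ge

theorem gA_of_N {b : Gen k V} (h : N b = ∅) : gA b = ∅ :=
  Finset.eq_empty_of_forall_notMem fun x hx => Finset.notMem_empty x (h ▸ mem_N_of hx)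

theorem eq_apex (hk : ∀ i, (V.lab i).1.card = k) {b : Gen k V} (h : N b = ∅) :
    apex hk (gz b) = b := by
  refine gen_ext rfl (Str.ext' (gI b).symm fun i hi => ?_) (gA_of_N h).symm
  have hi' : i ∈ (gy b).I := gI b ▸ hi
  have h1 := Finset.filter_eq_empty_iff.1 h hi'
  rw [μ_apply, gA_of_N h, if_neg (Finset.notMem_empty i)] at h1
  exact (Str.of_c (hk _) _ hi).trans (le_antisymm (not_lt.1 h1) (gle b hi'))

theorem SS_eq_zero {b : Gen k V} : SS b = 0 ↔ N b = ∅ := by
  rw [SS, Finset.sum_eq_zero_iff, N, Finset.filter_eq_empty_iff]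
  exact forall₂_congr fun x _ => by omega

/-- the least element -/
def lst (M : Finset D) (x : D) : Prop := x ∈ M ∧ ∀ x' ∈ M, x ≤ x'

theorem lst_unique {M : Finset D} {x x' : D} (h : lst M x) (h' : lst M x') : x = x' :=
  le_antisymm (h.2 _ h'.1) (h'.2 _ h.1)

theorem lst_cases (M : Finset D) : M = ∅ ∨ ∃ x, lst M x :=
  M.eq_empty_or_nonempty.imp_right fun h => ⟨M.min' h, M.min'_mem h, fun _ => M.min'_le _⟩

open Classical in
/-- the matching -/
def mt (hk : ∀ i, (V.lab i).1.card = k) : V.ι ⊕ Gen k V → V.ι ⊕ Gen k V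
  | .inl z => .inr (apex hk z)
  | .inr b => if h : ∃ x, lst (N b) x then
      if h' : h.choose ∈ gA b then .inr (dn b h.choose) else .inr (upp b h.choose h.choose_spec.1 h')
    else .inl (gz b)

theorem mt_top (hk : ∀ i, (V.lab i).1.card = k) {b : Gen k V} (h : N b = ∅) :
    mt hk (.inr b) = .inl (gz b) :=
  dif_neg fun ⟨x, hx⟩ => Finset.notMem_empty x (h ▸ hx.1)

theorem mt_dn (hk : ∀ i, (V.lab i).1.card = k) {b : Gen k V} {x : D} (h : lst (N b) x)
    (h' : x ∈ gA b) : mt hk (.inr b) = .inr (dn b x) := by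
  have h0 : ∃ x, lst (N b) x := ⟨x, h⟩
  have e : h0.choose = x := lst_unique h0.choose_spec h
  rw [mt, dif_pos h0, dif_pos (e ▸ h'), e]

theorem mt_upp (hk : ∀ i, (V.lab i).1.card = k) {b : Gen k V} {x : D} (h : lst (N b) x)
    (h' : x ∉ gA b) : mt hk (.inr b) = .inr (upp b x h.1 h') := by
  have h0 : ∃ x, lst (N b) x := ⟨x, h⟩
  have e : h0.choose = x := lst_unique h0.choose_spec h
  rw [mt, dif_pos h0, dif_neg (e ▸ h')]
  subst e
  rfl

def isUp : V.ι ⊕ Gen k V → Prop
  | .inl _ => False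
  | .inr b => ∀ x, lst (N b) x → x ∈ gA b

open Classical in
def rk3 (r : V.ι → ℕ) : V.ι ⊕ Gen k V → ℕ ×ₗ ℕ ×ₗ ℕ
  | .inl z => toLex (r z, toLex (0, 0))
  | .inr b => toLex (r (gz b), toLex (SS b, ((gA b).filter fun x => ¬ lst (N b) x).card))

/-- the part of the differential inside a block -/
def inb (y : Str D k) (A : Finset D) (y' : Str D k) (A' : Finset D) : ℤ :=
  open Classical in
  ∑ x ∈ A, if A.erase x = A' then
    w {x} A' * ((if y = y' then 1 else 0) - if y.mv {x} (-1) = y' then 1 else 0) else 0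

theorem inb_supp {y y' : Str D k} {A A' : Finset D} (h : inb y A y' A' ≠ 0) :
    ∃ x ∈ A, A' = A.erase x ∧ (y' = y ∨ y' = y.mv {x} (-1)) := by
  obtain ⟨x, hx, h⟩ := Finset.exists_ne_zero_of_sum_ne_zero h
  refine ⟨x, hx, ?_⟩
  split_ifs at h with h1 h2 h3 h4
  · exact ⟨h1.symm, Or.inl h2.symm⟩
  · exact ⟨h1.symm, Or.inl h2.symm⟩
  · exact ⟨h1.symm, Or.inr h4.symm⟩
  · simp at h
  · simp at h

open Classical in
theorem inb_erase (y y' : Str D k) {A : Finset D} {x : D} (h : x ∈ A) :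
    inb y A y' (A.erase x) = w {x} (A.erase x) *
      ((if y = y' then 1 else 0) - if y.mv {x} (-1) = y' then 1 else 0) := by
  rw [inb, Finset.sum_eq_single_of_mem x h, if_pos rfl]
  exact fun x' h' hne => if_neg fun e => hne ((Finset.erase_inj _ h').1 e)

theorem inb_same (y : Str D k) {A : Finset D} {x : D} (h : x ∈ A) (h' : x ∈ y.I) :
    inb y A y (A.erase x) = w {x} (A.erase x) := by
  rw [inb_erase _ _ h, if_pos rfl, if_neg (mv_ne y h'), sub_zero, mul_one]

theorem inb_mv (y : Str D k) {A : Finset D} {x : D} (h : x ∈ A) (h' : x ∈ y.I) :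
    inb y A (y.mv {x} (-1)) (A.erase x) = -w {x} (A.erase x) := by
  rw [inb_erase _ _ h, if_neg (mv_ne y h').symm, if_pos rfl, zero_sub, mul_neg, mul_one]

theorem N_dn {b : Gen k V} {x : D} (h : x ∈ gA b) : N (dn b x) = N b ∧ SS (dn b x) = SS b :=
  N_congr (b := b) (b' := dn b x) rfl (μ_dn h rfl rfl)

theorem N_upp {b : Gen k V} {x : D} (h : x ∈ N b) (h' : x ∉ gA b) :
    N (upp b x h h') = N b ∧ SS (upp b x h h') = SS b :=
  N_congr (b := b) (b' := upp b x h h') rfl (μ_upp h h')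

theorem lst_dn {b : Gen k V} {x : D} (h : lst (N b) x) (h' : x ∈ gA b) : lst (N (dn b x)) x := by
  rwa [(N_dn h').1]

theorem lst_upp {b : Gen k V} {x : D} (h : lst (N b) x) (h' : x ∉ gA b) :
    lst (N (upp b x h.1 h')) x := by
  rwa [(N_upp h.1 h').1]

theorem up_top {b : Gen k V} (h : N b = ∅) : isUp (.inr b) := fun x hx =>
  (Finset.notMem_empty x (h ▸ hx.1)).elim

theorem up_iff {b : Gen k V} {x : D} (h : lst (N b) x) : isUp (.inr b) ↔ x ∈ gA b :=
  ⟨fun h' => h' _ h, fun h' _ hx => lst_unique h hx ▸ h'⟩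

theorem notMem_dn (b : Gen k V) (x : D) : x ∉ gA (dn b x) := Finset.notMem_erase x (gA b)

theorem mem_upp {b : Gen k V} {x : D} (h : x ∈ N b) (h' : x ∉ gA b) : x ∈ gA (upp b x h h') :=
  Finset.mem_insert_self x (gA b)

theorem mt_mt (hk : ∀ i, (V.lab i).1.card = k) (i : V.ι ⊕ Gen k V) : mt hk (mt hk i) = i := by
  rcases i with z | b
  · exact mt_top hk (N_apex hk z)
  rcases lst_cases (N b) with h | ⟨x, h⟩
  · rw [mt_top hk h]
    exact congrArg Sum.inr (eq_apex hk h)
  by_cases h' : x ∈ gA b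
  · rw [mt_dn hk h h', mt_upp hk (lst_dn h h') (notMem_dn b x)]
    exact congrArg Sum.inr (gen_ext rfl (mv_mv (gy b) x (-1)) (Finset.insert_erase h'))
  · rw [mt_upp hk h h', mt_dn hk (lst_upp h h') (mem_upp h.1 h')]
    exact congrArg Sum.inr (gen_ext rfl (mv_mv (gy b) x 1) (Finset.erase_insert h'))

theorem up_mt (hk : ∀ i, (V.lab i).1.card = k) (i : V.ι ⊕ Gen k V) :
    isUp (mt hk i) ↔ ¬ isUp i := by
  rcases i with z | b
  · exact iff_of_true (up_top (N_apex hk z)) id
  rcases lst_cases (N b) with h | ⟨x, h⟩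
  · rw [mt_top hk h]
    exact iff_of_false id (not_not.2 (up_top h))
  by_cases h' : x ∈ gA b
  · rw [mt_dn hk h h', up_iff h, up_iff (lst_dn h h')]
    exact iff_of_false (notMem_dn b x) (not_not.2 h')
  · rw [mt_upp hk h h', up_iff h, up_iff (lst_upp h h')]
    exact iff_of_true (mem_upp h.1 h') h'

theorem rk3_top (r : V.ι → ℕ) {b : Gen k V} (h : N b = ∅) :
    rk3 r (.inr b) = rk3 r (.inl (gz b) : _ ⊕ Gen k V) := by
  rw [rk3, rk3, SS_eq_zero.2 h, gA_of_N h, Finset.filter_empty, Finset.card_empty]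

theorem rk3_mt (hk : ∀ i, (V.lab i).1.card = k) (r : V.ι → ℕ) (i : V.ι ⊕ Gen k V) :
    rk3 r (mt hk i) = rk3 r i := by
  classical
  rcases i with z | b
  · exact rk3_top r (N_apex hk z)
  rcases lst_cases (N b) with h | ⟨x, h⟩
  · rw [mt_top hk h, rk3_top r h]
  by_cases h' : x ∈ gA b
  · rw [mt_dn hk h h', rk3, rk3, (N_dn h').1, (N_dn h').2]
    refine congrArg (fun s : Finset D => toLex (r (gz b), toLex (SS b, s.card))) ?_
    change Finset.filter _ ((gA b).erase x) = _
    rw [Finset.filter_erase]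
    refine Finset.erase_eq_of_notMem ?_
    rw [Finset.mem_filter]
    exact fun e => e.2 h
  · rw [mt_upp hk h h', rk3, rk3, (N_upp h.1 h').1, (N_upp h.1 h').2]
    refine congrArg (fun s : Finset D => toLex (r (gz b), toLex (SS b, s.card))) ?_
    change Finset.filter _ (insert x (gA b)) = _
    rw [Finset.filter_insert, if_neg (not_not.2 h)]

/-- the resolution with a given differential -/
@[reducible] def WW (k : ℕ) (V : Raw (RG G) (Finset D × Pt D))
    (δ : (Gen k V →₀ RG G) →ₗ[RG G] (Gen k V →₀ RG G)) : Raw (RG G) (Finset D × Pt D) :=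
  ⟨Gen k V, fun b => V.deg (gz b) + 0 + -((gA b).card : ℤ), fun b => ((gy b).I, μ b), δ⟩

/-- the augmentation -/
def eps (k : ℕ) (V : Raw (RG G) (Finset D × Pt D)) :
    (Gen k V →₀ RG G) →ₗ[RG G] (V.ι →₀ RG G) :=
  lc fun b => if gA b = ∅ then single (gz b) 1 else 0

theorem eps_single (b : Gen k V) :
    eps k V (single b 1) = if gA b = ∅ then single (gz b) 1 else 0 := lc_single _ _

theorem eps_sum {T : Type} [AddCommGroup T] (φ : RG G →+ T) (v : Gen k V →₀ RG G) (z : V.ι)
    (s : Finset (Gen k V)) (h1 : ∀ b, gA b = ∅ → gz b = z → φ (v b) ≠ 0 → b ∈ s)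
    (h2 : ∀ b ∈ s, gA b = ∅ ∧ gz b = z) : φ (eps k V v z) = ∑ b ∈ s, φ (v b) := by
  classical
  have e : ∀ b, φ ((v b • if gA b = ∅ then single (gz b) (1 : RG G) else 0) z) =
      if gA b = ∅ ∧ gz b = z then φ (v b) else 0 := fun b => by
    by_cases hA : gA b = ∅
    · by_cases hz : gz b = z
      · simp [hA, hz]
      · simp [hA, hz]
    · simp [hA]
  rw [eps, linearCombination_apply, Finsupp.sum, Finsupp.finsetSum_apply, map_sum]
  simp only [e]
  rw [← Finset.sum_filter, ← Finset.sum_filter_ne_zero, ← Finset.sum_filter_ne_zero s]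
  refine Finset.sum_congr (Finset.ext fun b => ?_) fun _ _ => rfl
  simp only [Finset.mem_filter, mem_support_iff]
  exact ⟨fun h => ⟨h1 b h.1.2.1 h.1.2.2 h.2, h.2⟩,
    fun h => ⟨⟨fun e => h.2 (by rw [e, map_zero]), h2 b h.1⟩, h.2⟩⟩

/-- the coefficient of a group element -/
def cf (g : G) : RG G →+ ℤ where
  toFun a := a.coeff g
  map_zero' := by simp
  map_add' a b := by simp

theorem rg_ext {a b : RG G} (h : ∀ g, cf g a = cf g b) : a = b := by
  ext g
  exact h g

theorem pent_zero_of {κ : Type} [MulAction G κ] (s : G → κ → ℤ) {j j' : κ}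
    (h : ∀ g : G, g • j' ≠ j) (a : RG G) : pent s j j' a = 0 := by
  classical
  ext g
  rw [pent_coeff, if_neg (h g)]
  simp

section

variable {δ : (Gen k V →₀ RG G) →ₗ[RG G] (Gen k V →₀ RG G)} [DecidableEq V.ι]
  (hδ : ∀ b b', δ (single b 1) b' =
    pent sg (gA b) (gA b') (pent (fun _ _ => 1) (gy b) (gy b') (V.δ (single (gz b) 1) (gz b'))) +
      if gz b = gz b' then
        (V.deg (gz b)).negOnePow • (inb (gy b) (gA b) (gy b') (gA b') : RG G) else 0)
  (hV : (T1 G D).Obj V)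

theorem hom_eps : (T1 G D).Hom 0 (WW k V δ) V (eps k V) := by
  refine rc_hom.2 fun b z g h => ?_
  rw [eps_single] at h
  split_ifs at h with hA
  · by_cases hz : z = gz b
    · subst hz
      rw [single_eq_same, ← Int.cast_one] at h
      rw [(coeff_intCast h).1, one_smul]
      refine ⟨⟨gI b, fun x hx => ?_⟩, by simp [hA]⟩
      change μ b x ≤ _
      rw [μ_apply, hA, if_neg (Finset.notMem_empty x)]
      exact gle b hx
    · rw [single_eq_of_ne hz] at h
      simp at h
  · simp at h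

include hδ hV

theorem ch_eps : (T1 G D).Ch (WW k V δ) V (eps k V) := by
  classical
  have hG : (T1 G D).Good := isRel1.good
  refine hG.ch_of_basis hom_eps fun b => Finsupp.ext fun z => ?_
  change _ = eps k V (δ (single b 1)) z
  rw [eps_single]
  split_ifs with hA
  · rw [hG.D_single]
    refine rg_ext fun g => ?_
    have e : ∀ b' : Gen k V, gA b' = ∅ → gz b' = z → cf g (δ (single b 1) b') =
        if g • gy b' = gy b then cf g (V.δ (single (gz b) 1) z) else 0 := fun b' h1 h2 => by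
      rw [hδ, hA, h1, h2, inb, Finset.sum_empty, Int.cast_zero, smul_zero, ite_self, add_zero]
      change MonoidAlgebra.coeff _ g = _
      rw [pent_coeff, if_pos (Finset.smul_finset_empty g), sg_empty, one_mul, pent_coeff, one_mul]
      rfl
    by_cases h0 : cf g (V.δ (single (gz b) 1) z) = 0
    · rw [eps_sum (cf g) _ z ∅ (fun b' h1 h2 h3 => (h3 (by rw [e b' h1 h2, h0, ite_self])).elim)
        (by simp), h0, Finset.sum_empty]
    · have h1 : r1 (V.lab (gz b)) (g • V.lab z) := (rc_hom.1 hV.1 _ _ g h0).1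
      have h2 : r1 (g⁻¹ • (gy b).lb) (V.lab z) := by
        have := isRel1.smul g⁻¹ ((isRel1 (G := G)).trans b.1.1.2 h1)
        rwa [inv_smul_smul] at this
      have h3 : r1 (g⁻¹ • gy b).lb (V.lab z) :=
        (isRel1 (G := G)).trans (o' := g⁻¹ • (gy b).lb)
          ⟨rfl, fun i hi => (Str.smul_c g⁻¹ (gy b) hi).le⟩ h2
      rw [eps_sum (cf g) _ z {mk z (g⁻¹ • gy b) ∅ h3 (Finset.empty_subset _)}
        (fun b' k1 k2 k3 => ?_) (fun b' hb => by rw [Finset.mem_singleton.1 hb]; exact ⟨rfl, rfl⟩),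
        Finset.sum_singleton, e _ rfl rfl]
      · exact (if_pos (smul_inv_smul g (gy b))).symm
      rw [e b' k1 k2] at k3
      refine Finset.mem_singleton.2 (gen_ext k2 ?_ k1)
      by_contra hne
      exact k3 (if_neg fun e' => hne (eq_inv_smul_iff.2 e'))
  · rw [map_zero, Finsupp.zero_apply]
    have e : ∀ b' : Gen k V, gA b' = ∅ → gz b' = z → δ (single b 1) b' = if gz b = z then
        (V.deg (gz b)).negOnePow • (inb (gy b) (gA b) (gy b') ∅ : RG G) else 0 :=
      fun b' h1 h2 => by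
        rw [hδ, h1, h2, pent_zero_of _ fun g e => hA (e.symm.trans (Finset.smul_finset_empty g)),
          zero_add]
    by_cases h0 : gz b = z ∧ ∃ x ∈ gA b, (gA b).erase x = ∅
    · obtain ⟨hz, x, hx, hxe⟩ := h0
      have hne := mv_ne (gy b) (gsub b hx)
      let b0 : Gen k V := mk (gz b) (gy b) ∅ b.1.1.2 (Finset.empty_subset _)
      have h01 : b0 ≠ dn b x := fun e' => hne (congrArg gy e').symm
      have i0 : inb (gy b) (gA b) (gy b0) ∅ = w {x} ∅ := by
        rw [← hxe]
        exact inb_same _ hx (gsub b hx)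
      have i1 : inb (gy b) (gA b) (gy (dn b x)) ∅ = -w {x} ∅ := by
        rw [← hxe]
        exact inb_mv _ hx (gsub b hx)
      refine Eq.symm ((eps_sum (AddMonoidHom.id _) _ z {b0, dn b x} (fun b' k1 k2 k3 => ?_)
        fun b' hb => ?_).trans ?_)
      · rw [AddMonoidHom.id_apply, e b' k1 k2, if_pos hz] at k3
        obtain ⟨x', hx', e1, e2⟩ := inb_supp (y := gy b) (y' := gy b') (A := gA b) (A' := ∅)
          fun e' => k3 (by rw [e', Int.cast_zero, smul_zero])
        have : x' = x := (Finset.erase_inj _ hx').1 (e1.symm.trans hxe.symm)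
        subst this
        rw [Finset.mem_insert, Finset.mem_singleton]
        exact e2.imp (fun e' => gen_ext (k2.trans hz.symm) e' k1)
          fun e' => gen_ext (k2.trans hz.symm) e' (k1.trans hxe.symm)
      · rcases Finset.mem_insert.1 hb with rfl | hb
        · exact ⟨rfl, hz⟩
        · rw [Finset.mem_singleton.1 hb]
          exact ⟨hxe, hz⟩
      · rw [Finset.sum_pair h01, AddMonoidHom.id_apply, AddMonoidHom.id_apply, e b0 rfl hz,
          e (dn b x) hxe hz, if_pos hz, if_pos hz, i0, i1, Int.cast_neg, smul_neg, add_neg_cancel]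
    · refine Eq.symm ((eps_sum (AddMonoidHom.id _) _ z ∅ (fun b' k1 k2 k3 => (k3 ?_).elim)
        (by simp)).trans Finset.sum_empty)
      rw [AddMonoidHom.id_apply, e b' k1 k2]
      split_ifs with hz
      · by_contra k4
        obtain ⟨x', hx', e1, -⟩ := inb_supp (y := gy b) (y' := gy b') (A := gA b) (A' := ∅)
          fun e' => k4 (by rw [e', Int.cast_zero, smul_zero])
        exact h0 ⟨hz, x', hx', e1.symm⟩
      · rfl

omit hV in
theorem δ_supp {b b' : Gen k V} (h : δ (single b 1) b' ≠ 0) :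
    V.δ (single (gz b) 1) (gz b') ≠ 0 ∨ gz b' = gz b ∧ ∃ x ∈ gA b, gA b' = (gA b).erase x ∧
      (gy b' = gy b ∨ gy b' = (gy b).mv {x} (-1)) := by
  by_cases h0 : V.δ (single (gz b) 1) (gz b') = 0
  · rw [hδ, h0, map_zero, map_zero, zero_add] at h
    split_ifs at h with hz
    · exact Or.inr ⟨hz.symm, inb_supp fun e => h (by rw [e, Int.cast_zero, smul_zero])⟩
    · exact (h rfl).elim
  · exact Or.inl h0

omit hV in
theorem matching (hw : V.WF) (hk : ∀ i, (V.lab i).1.card = k) {r : V.ι → ℕ}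
    (hr : ∀ i i', V.δ (single i 1) i' ≠ 0 → r i' < r i) :
    Mt (T1 G D) ((WW k V δ).cone V (eps k V)) (fun _ => True) isUp (mt hk) (rk3 r) := by
  classical
  refine ⟨fun _ _ => trivial, fun i _ => mt_mt hk i, fun i _ => up_mt hk i,
    fun i _ => rk3_mt hk r i, ?_, ?_, ?_, ?_⟩
  · rintro (z | b) - hu
    · exact hu.elim
    rcases lst_cases (N b) with h | ⟨x, h⟩
    · rw [mt_top hk h]
      change V.deg (gz b) = V.deg (gz b) + 0 + -((gA b).card : ℤ) - 1 + 1
      rw [gA_of_N h]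
      simp
    · have h' := hu x h
      rw [mt_dn hk h h']
      change V.deg (gz b) + 0 + -((((gA b).erase x).card : ℕ) : ℤ) - 1 =
        V.deg (gz b) + 0 + -((gA b).card : ℤ) - 1 + 1
      rw [← Finset.card_erase_add_one h']
      push_cast
      ring
  · rintro (z | b) - hu
    · exact hu.elim
    rcases lst_cases (N b) with h | ⟨x, h⟩
    · rw [mt_top hk h]
      refine one_mem_rc (r := r1) (o := V.lab (gz b)) (o' := ((gy b).I, μ b))
        ⟨(gI b).symm, fun i hi => ?_⟩
      exact not_lt.1 (Finset.filter_eq_empty_iff.1 h (gI b ▸ hi))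
    · have h' := hu x h
      rw [mt_dn hk h h']
      exact one_mem_rc (r := r1) (o := ((gy b).I, μ (dn b x))) (o' := ((gy b).I, μ b))
        ⟨rfl, fun i hi => (μ_dn h' rfl rfl i hi).le⟩
  · rintro (z | b) - hu
    · exact hu.elim
    rcases lst_cases (N b) with h | ⟨x, h⟩
    · rw [mt_top hk h]
      refine ⟨1, (Raw.ext_rl (A := V) (B := (WW k V δ).sh) _ b _).trans ?_⟩
      rw [eps_single, if_pos (gA_of_N h), single_eq_same, one_smul]
    · have h' := hu x h
      obtain ⟨s, hs⟩ := w_unit (Finset.disjoint_singleton_left.2 (Finset.notMem_erase x (gA b)))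
      rw [mt_dn hk h h']
      refine ⟨(V.deg (gz b)).negOnePow * s,
        (Raw.ext_rr (A := V) (B := (WW k V δ).sh) _ b _).trans ?_⟩
      change -(δ (single b 1) (dn b x)) = _
      have e1 : inb (gy b) (gA b) (gy (dn b x)) (gA (dn b x)) = -s :=
        (inb_mv _ h' (gsub b h')).trans (congrArg _ hs)
      have e2 : V.δ (single (gz b) 1) (gz (dn b x)) = 0 := diag_zero hw _
      rw [hδ, e1, e2, map_zero, map_zero, zero_add, if_pos (show gz b = gz (dn b x) from rfl),
        Int.cast_neg, smul_neg, neg_neg,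
        mul_smul, Units.smul_def s, zsmul_one]
  · rintro (z | b) (z' | b') - - h
    · rw [Raw.ext_ll] at h
      exact Or.inl (Prod.Lex.toLex_lt_toLex.2 (Or.inl (hr _ _ h)))
    · exact (h (Raw.ext_lr _ _ _)).elim
    · rw [Raw.ext_rl (A := V) (B := (WW k V δ).sh), eps_single] at h
      have hz : z' = gz b := by
        by_contra hz
        split_ifs at h
        · exact h (single_eq_of_ne hz)
        · exact h rfl
      subst hz
      by_cases hN : N b = ∅
      · exact Or.inr ⟨up_top hN, (mt_top hk hN).symm⟩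
      · exact Or.inl (Prod.Lex.toLex_lt_toLex.2 (Or.inr ⟨rfl, Prod.Lex.toLex_lt_toLex.2
          (Or.inl (Nat.pos_of_ne_zero fun e => hN (SS_eq_zero.1 e)))⟩))
    · rw [Raw.ext_rr (A := V) (B := (WW k V δ).sh)] at h
      rcases δ_supp hδ (b := b) (b' := b') (fun e => h (neg_eq_zero.2 e)) with
        h1 | ⟨hz, x, hx, hA, hy | hy⟩
      · exact Or.inl (Prod.Lex.toLex_lt_toLex.2 (Or.inl (hr _ _ h1)))
      · refine Or.inl (Prod.Lex.toLex_lt_toLex.2 (Or.inr ⟨congrArg r hz,
          Prod.Lex.toLex_lt_toLex.2 (Or.inl ?_)⟩))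
        change SS b' < SS b
        rw [SS, SS, hy, hz]
        refine Finset.sum_lt_sum (fun i _ => ?_) ⟨x, gsub b hx, ?_⟩
        · rw [μ_apply, μ_apply, hy, hA]
          by_cases e : i = x
          · subst e
            rw [if_neg (Finset.notMem_erase _ _), if_pos hx]
            omega
          · simp [e]
        · have := gle b (gsub b hx)
          rw [μ_apply, μ_apply, hy, hA, if_neg (Finset.notMem_erase _ _), if_pos hx]
          omega
      · obtain ⟨e1, e2⟩ := N_congr hz (μ_dn hx hy hA)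
        by_cases hl : lst (N b) x
        · exact Or.inr ⟨(up_iff hl).2 hx, by
            rw [mt_dn hk hl hx]; exact congrArg Sum.inr (gen_ext hz hy hA)⟩
        · refine Or.inl (Prod.Lex.toLex_lt_toLex.2 (Or.inr ⟨congrArg r hz,
            Prod.Lex.toLex_lt_toLex.2 (Or.inr ⟨e2, ?_⟩)⟩))
          change (Finset.filter _ (gA b')).card < (Finset.filter _ (gA b)).card
          rw [e1, hA, Finset.filter_erase]
          exact Finset.card_erase_lt_of_mem (Finset.mem_filter.2 ⟨hx, hl⟩)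

theorem core (hW : (T1 G D).Obj (WW k V δ)) (hf : V.Fin1) (hk : ∀ i, (V.lab i).1.card = k) :
    (T1 G D).Eqv (WW k V δ) V := by
  have hG : (T1 G D).Good := isRel1.good
  obtain ⟨r, hr⟩ := hf.rank
  have hc := ch_eps hδ hV
  exact ⟨_, (hG.ctr_cone_iff hW hV hc).1
    ((matching hδ hf.2 hk hr).ctr_top hG (hG.obj_cone hW hV hc))⟩

end

theorem phi_δ {E Λ : Type} [Ring E] {S : Sys (RG G) E Λ (Str D k)} {ξ : D → Str D k → E}
    {ent : Finset D → Finset D → E →+ RG G} (hK : KP S ξ ent) (Y : Raw E (Str D k))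
    (b b' : (Φ ent Y).ι) [Decidable (b.1.1 = b'.1.1)] :
    (Φ ent Y).δ (single b 1) b' = ent b.1.2 b'.1.2 (Y.δ (single b.1.1 1) b'.1.1) +
      if b.1.1 = b'.1.1 then (Y.deg b.1.1).negOnePow • (kz b.1.2 b'.1.2 : RG G) else 0 := by
  refine (Raw.res_δ (V := Y.bm (ΦB k ent)) _ _ _).trans ?_
  refine (bm_δ (T := ΦB k ent) hK.bm.act_zero b.1.1 b'.1.1 b.1.2 b'.1.2).trans ?_
  rw [← zc_apply]
  rfl

/-- the entries of the differential -/
theorem entry {E Λ : Type} [Ring E] {S : Sys (RG G) E Λ (Str D k)} {ξ : D → Str D k → E}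
    {ent : Finset D → Finset D → E →+ RG G} (hK : KP S ξ ent) [DecidableEq V.ι] (b b' : Gen k V) :
    (Φ ent (Ψ S.i ξ V)).δ (single b 1) b' =
    pent sg (gA b) (gA b') (pent (fun _ _ => 1) (gy b) (gy b') (V.δ (single (gz b) 1) (gz b'))) +
      if gz b = gz b' then
        (V.deg (gz b)).negOnePow • (inb (gy b) (gA b) (gy b') (gA b') : RG G) else 0 := by
  classical
  have e1 : (Ψ S.i ξ V).δ (single b.1.1 1) b'.1.1 =
      S.i (pent (fun _ _ => 1) (gy b) (gy b') (V.δ (single (gz b) 1) (gz b'))) +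
      if gz b = gz b' then (V.deg (gz b)).negOnePow • (ΨB S.i ξ).Δ (gy b) (gy b') else 0 := by
    refine (Raw.res_δ (V := V.bm (ΨB S.i ξ)) _ _ _).trans ?_
    refine (bm_δ (T := ΨB S.i ξ) (pact_zero S.i fun (_ : G) (_ : Str D k) => 1) (gz b) (gz b') (gy b) (gy b')).trans ?_
    exact congrArg (· + _) (pact_apply S.i (fun (_ : G) (_ : Str D k) => 1) _ _ _)
  have e2 : ent (gA b) (gA b') ((ΨB S.i ξ).Δ (gy b) (gy b')) = -∑ x ∈ gA b,
      if (gA b).erase x = gA b' ∧ (gy b).mv {x} (-1) = gy b' then (w {x} (gA b') : RG G) else 0 := by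
    have e3 : ∀ x, ent (gA b) (gA b')
        ((single ((gy b).mv {x} (-1)) (ξ x ((gy b).mv {x} (-1))) : Str D k →₀ E) (gy b')) =
        if x ∈ gA b ∧ (gA b).erase x = gA b' ∧ (gy b).mv {x} (-1) = gy b' then
          (w {x} (gA b') : RG G) else 0 := fun x => by
      rw [single_apply]
      by_cases hy : (gy b).mv {x} (-1) = gy b'
      · rw [if_pos hy, hK.ent_ξ]
        simp only [hy, and_true, eq_comm]
      · rw [if_neg hy, map_zero, if_neg fun e => hy e.2.2]
    change ent _ _ ((-∑ x ∈ (gy b).I, single ((gy b).mv {x} (-1)) (ξ x ((gy b).mv {x} (-1))))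
      (gy b')) = _
    rw [Finsupp.neg_apply, map_neg, Finsupp.finsetSum_apply, map_sum]
    simp only [e3]
    rw [← Finset.sum_subset (gsub b) fun x _ hx => if_neg fun e => hx e.1]
    exact congrArg _ (Finset.sum_congr rfl fun x hx => by simp only [hx, true_and])
  have e4 : (inb (gy b) (gA b) (gy b') (gA b') : RG G) =
      ent (gA b) (gA b') ((ΨB S.i ξ).Δ (gy b) (gy b')) +
        if gy b = gy b' then (kz (gA b) (gA b') : RG G) else 0 := by
    rw [e2, inb, kz_apply]
    split_ifs with hy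
    · push_cast
      rw [← Finset.sum_neg_distrib, ← Finset.sum_add_distrib]
      refine Finset.sum_congr rfl fun x _ => ?_
      by_cases h1 : (gA b).erase x = gA b' <;> by_cases h2 : (gy b).mv {x} (-1) = gy b' <;>
        simp [h1, h2]
    · push_cast
      rw [← Finset.sum_neg_distrib, add_zero]
      refine Finset.sum_congr rfl fun x _ => ?_
      by_cases h1 : (gA b).erase x = gA b' <;> by_cases h2 : (gy b).mv {x} (-1) = gy b' <;>
        simp [h1, h2]
  refine (phi_δ hK (Ψ S.i ξ V) b b').trans ?_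
  have e5 : (Ψ S.i ξ V).deg b.1.1 = V.deg (gz b) := add_zero _
  have e6 : b.1.2 = gA b := rfl
  have e7 : b'.1.2 = gA b' := rfl
  rw [e1, e5, e6, e7, map_add, hK.ent_i, add_assoc, e4]
  refine congrArg _ ?_
  by_cases hz : gz b = gz b'
  · rw [if_pos hz, if_pos hz, smul_add, Units.smul_def, map_zsmul, ← Units.smul_def]
    refine congrArg _ ?_
    by_cases hy : gy b = gy b'
    · rw [if_pos hy, if_pos (Subtype.ext (Prod.ext hz hy))]
    · rw [if_neg hy, if_neg fun e => hy (congrArg (·.1.2) e), smul_zero]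
  · rw [if_neg hz, if_neg hz, if_neg fun e => hz (congrArg (·.1.1) e), map_zero, add_zero]

end PP

theorem st_pp (h : St_PSI) : St_PP := by
  intro G D _ _ _ _ _ _ k E Λ _ S ξ ent hK V hV hf hk
  classical
  obtain ⟨-, h1, h2, -⟩ := h G D k E Λ S ξ ent hK
  exact PP.core (PP.entry hK) hV (h2.obj (h1.obj hV)) hf hk

end Pool.Agent.Lib.NIL.EA
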