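import Pool.Agent.Lib.NIL.EA.Blue
import Pool.Agent.Lib.NIL.EA.G1
import Pool.Agent.Lib.NIL.EA.G2
import Pool.Agent.Lib.NIL.A7

/-! PSI: the two Koszul duality functors. -/

set_option linter.unusedSectionVars false

namespace Pool.Agent.Lib.NIL.EA

open Finsupp Pointwise

namespace PSI

variable {G D : Type} [Group G] [LinearOrder D] [MulAction G D] [MulAction G (Pt D)] [Aff G D]
  [Fintype D] {k : ℕ} {E Λ : Type} [Ring E] {S : Sys (RG G) E Λ (Str D k)} {ξ : D → Str D k → E}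
  {ent : Finset D → Finset D → E →+ RG G}

theorem ex_coeff {a : RG G} (h : a ≠ 0) : ∃ g, a.coeff g ≠ 0 := by
  by_contra hn
  refine h (MonoidAlgebra.coeff_injective (Finsupp.ext fun g => ?_))
  exact by_contra fun e => hn ⟨g, e⟩

theorem mv_mv (y : Str D k) (x : D) : (y.mv {x} (-1)).mv {x} 1 = y :=
  Str.ext' rfl fun i hi => by
    rw [Str.mv_c (y.mv {x} (-1)) _ _ hi, Str.mv_c y _ _ hi]
    split_ifs <;> omega

theorem mv_comm (y : Str D k) (x x' : D) :
    (y.mv {x} (-1)).mv {x'} (-1) = (y.mv {x'} (-1)).mv {x} (-1) :=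
  Str.ext' rfl fun i hi => by
    rw [Str.mv_c (y.mv {x} (-1)) _ _ hi, Str.mv_c (y.mv {x'} (-1)) _ _ hi, Str.mv_c y _ _ hi,
      Str.mv_c y _ _ hi]
    split_ifs <;> omega

/-- the differential on the exterior side -/
noncomputable def Δ (ξ : D → Str D k → E) (y : Str D k) : Str D k →₀ E :=
  -∑ x ∈ y.I, single (y.mv {x} (-1)) (ξ x (y.mv {x} (-1)))

open Classical in
theorem Δ_apply (y y' : Str D k) :
    Δ ξ y y' = -∑ x ∈ y.I, if y.mv {x} (-1) = y' then ξ x y' else 0 := by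
  rw [Δ, Finsupp.neg_apply, Finsupp.finsetSum_apply]
  refine congrArg _ (Finset.sum_congr rfl fun x _ => ?_)
  rw [single_apply]
  split_ifs with h
  · rw [h]
  · rfl

theorem Δ_supp {y y' : Str D k} (h : Δ ξ y y' ≠ 0) : ∃ x, y' = y.mv {x} (-1) := by
  rw [Δ_apply, neg_ne_zero] at h
  obtain ⟨x, -, hx⟩ := Finset.exists_ne_zero_of_sum_ne_zero h
  exact ⟨x, by_contra fun e => hx (if_neg fun e' => e e'.symm)⟩

theorem Δ_Δ (hK : KP S ξ ent) (y : Str D k) : lc (Δ ξ) (Δ ξ y) = 0 := by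
  have e : lc (Δ ξ) (Δ ξ y) = ∑ p ∈ y.I ×ˢ y.I, single ((y.mv {p.1} (-1)).mv {p.2} (-1))
      (ξ p.1 (y.mv {p.1} (-1)) * ξ p.2 ((y.mv {p.1} (-1)).mv {p.2} (-1))) := by
    rw [Finset.sum_product, Δ, map_neg, map_sum, ← Finset.sum_neg_distrib]
    refine Finset.sum_congr rfl fun x _ => ?_
    rw [linearCombination_single, Δ, smul_neg, neg_neg, Finset.smul_sum]
    exact Finset.sum_congr rfl fun x' _ => smul_single _ _ _
  rw [e]
  refine Finset.sum_involution (fun p _ => p.swap) (fun p _ => ?_) (fun p _ h e' => h ?_)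
    (fun p hp => ?_) fun p _ => Prod.swap_swap p
  · rw [Prod.fst_swap, Prod.snd_swap, mv_comm y p.2 p.1, ← single_add,
      hK.ξ_ξ p.1 p.2 _ (y.mv {p.2} (-1)), neg_add_cancel, single_zero]
  · rw [show p.2 = p.1 from congrArg Prod.fst e', hK.ξ_sq, single_zero]
  · exact Finset.mem_product.2 (Finset.mem_product.1 hp).symm

theorem Δ_smul (hK : KP S ξ ent) (g : G) (y y' : Str D k) :
    S.i (.single g 1) * Δ ξ y y' = Δ ξ (g • y) (g • y') * S.i (.single g 1) := by
  classical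
  rw [Δ_apply, Δ_apply, mul_neg, neg_mul, Finset.mul_sum, Finset.sum_mul, Str.smul_I,
    Finset.smul_finset_def, Finset.sum_image fun _ _ _ _ e => MulAction.injective g e]
  refine congrArg _ (Finset.sum_congr rfl fun x _ => ?_)
  rw [← Finset.smul_finset_singleton, ← Str.smul_mv]
  by_cases h : y.mv {x} (-1) = y'
  · rw [if_pos h, if_pos (congrArg _ h), hK.ξ_i]
  · rw [if_neg h, if_neg fun e => h (MulAction.injective g e), mul_zero, zero_mul]

theorem single_mem (g : G) (y : Str D k) :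
    (MonoidAlgebra.single g 1 : RG G) ∈ gfam G (Str D k) (g • y) y := fun g' h => by
  by_contra e
  refine h ?_
  rw [MonoidAlgebra.coeff_single]
  exact single_eq_of_ne fun e' => e (by rw [e'])

theorem bmΨ (hK : KP S ξ ent) : IsBM (T1 G D) (S.cat (gfam G (Str D k))) (ΨB S.i ξ) := by
  classical
  have hG := hK.sys.good
  refine isBM_pact (Δ := Δ ξ) hG S.i (fun _ => rfl) (fun _ _ _ => rfl) hK.sys.d_i (fun _ _ => rfl)
    (fun g _ _ y _ => hK.sys.i_mem (single_mem g y) hK.sys.deg_u)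
    (fun _ => hG.obj_of_basis (fun y y' => ?_) fun y => ?_)
    fun g y y' => congrArg _ (Δ_smul hK g y y')
  · rw [lc_single, Δ_apply]
    refine neg_mem (sum_mem fun x hx => ?_)
    split_ifs with h
    · subst h
      have := hK.ξ_mem (y.mv {x} (-1)) x hx
      rwa [mv_mv] at this
    · exact zero_mem _
  · rw [lc_single, Cat.D_apply]
    refine (congrArg₂ (· + ·) (Δ_Δ hK y) (Finsupp.ext fun y' => ?_)).trans (add_zero 0)
    rw [Raw.tw_apply]
    change _ • S.d _ = 0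
    rw [hK.d, AddMonoidHom.zero_apply, smul_zero]

theorem r1_of {y y' : Str D k} {o o' : Finset D × Pt D} {g : G} (e : g • y' = y)
    (h : r1 y.lb o) (h' : r1 o (g • o')) : r1 y'.lb o' := by
  have h2 := isRel1.smul g⁻¹ ((isRel1 (G := G)).trans h h')
  rw [inv_smul_smul] at h2
  rw [eq_inv_smul_iff.2 e]
  exact (isRel1 (G := G)).trans (o' := g⁻¹ • y.lb)
    ⟨rfl, fun i hi => (Str.smul_c g⁻¹ y hi).le⟩ h2

theorem Ψ_cl {n : ℤ} {V W : Raw (RG G) (Finset D × Pt D)} {f : Lin V W} (hf : (T1 G D).Hom n V W f)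
    {z : V.ι} {z' : W.ι} {y y' : Str D k} (h : r1 y.lb (V.lab z))
    (hne : S.i (pent (fun _ _ => 1) y y' (f (single z 1) z')) ≠ 0) : r1 y'.lb (W.lab z') := by
  obtain ⟨g, hg⟩ := ex_coeff (a := pent (fun _ _ => 1) y y' (f (single z 1) z'))
    fun e => hne (by rw [e, map_zero])
  obtain ⟨e, hg⟩ := pent_supp hg
  exact r1_of e h (rc_hom.1 hf z z' g hg).1

theorem Φ_cl (hK : KP S ξ ent) {n : ℤ} {o o' : Str D k} {a : E}
    (ha : a ∈ (S.cat (gfam G (Str D k))).H n o o') {A A' : Finset D} (h : A ⊆ o.I)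
    (hne : ent A A' a ≠ 0) : A' ⊆ o'.I := by
  obtain ⟨g, hg⟩ := ex_coeff hne
  have h1 : o.I = g • o'.I := ((mem_rc.1 (hK.bm.mem ha A A')).1 g hg).1
  exact Finset.smul_finset_subset_smul_finset_iff.1 (h1 ▸ (hK.ent_sub A A' a g hg).trans h)

end PSI

open PSI in
theorem st_psi : St_PSI := by
  intro G D _ _ _ _ _ _ k E Λ _ S ξ ent hK
  classical
  have hG := hK.sys.good
  have h1 : (T1 G D).Good := isRel1.good
  have h0 : ∀ y, (ΨB S.i ξ).act 0 y = 0 := (bmΨ hK).act_zero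
  refine ⟨bmΨ hK, isFn_res ((bmΨ hK).isFn h1 hG) hG (fun V p => r1 p.2.lb (V.lab p.1)) ?_ ?_,
    isFn_res (hK.bm.isFn hG h1) h1 (fun Y p => p.2 ⊆ (Y.lab p.1).I) ?_ ?_, ?_, ?_⟩
  · rintro V hV ⟨z, y⟩ ⟨z', y'⟩ h hne
    rw [bm_δ h0] at hne
    by_cases e : (ΨB S.i ξ).act (V.δ (single z 1) z') y y' = 0
    · rw [e, zero_add] at hne
      split_ifs at hne with hz
      · subst hz
        obtain ⟨x, rfl⟩ := Δ_supp (ξ := ξ) (y := y) (y' := y') fun e' =>
          hne ((congrArg _ e').trans (smul_zero _))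
        refine (isRel1 (G := G)).trans (o' := y.lb) ⟨rfl, fun i hi => ?_⟩ h
        change (y.mv {x} (-1)).c i ≤ y.c i
        rw [Str.mv_c y _ _ hi]
        split_ifs <;> omega
      · exact (hne rfl).elim
    · exact Ψ_cl hV.1 h fun e' =>
        e ((pact_apply S.i (fun (_ : G) (_ : Str D k) => 1) _ _ _).trans e')
  · rintro n V W f hf ⟨z, y⟩ ⟨z', y'⟩ h hne
    exact Ψ_cl hf h fun e' =>
      hne ((bmL_pact S.i (fun (_ : G) (_ : Str D k) => 1) f z y z' y').trans e')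
  · rintro Y hY ⟨u, A⟩ ⟨u', A'⟩ h hne
    rw [bm_δ hK.bm.act_zero] at hne
    by_cases e : ent A A' (Y.δ (single u 1) u') = 0
    · have e' : (ΦB k ent).act (Y.δ (single u 1) u') A A' = 0 := e
      rw [e', zero_add] at hne
      split_ifs at hne with hz
      · subst hz
        obtain ⟨x, -, rfl⟩ := kz_supp (A := A) (A' := A') fun e' => hne (by
          change _ • zc (RG G) (kz A) A' = 0
          rw [zc_apply, e', Int.cast_zero, smul_zero])
        exact (Finset.erase_subset _ _).trans h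
      · exact (hne rfl).elim
    · exact Φ_cl hK (hY.1 u u') h e
  · rintro n Y Y' f hf ⟨u, A⟩ ⟨u', A'⟩ h hne
    rw [bmL_single hK.bm.act_zero] at hne
    exact Φ_cl hK (hf u u') h hne
  · rintro V ⟨c, hc⟩
    exact ⟨c, fun p => (hc p.1.1).trans_eq (add_zero _).symm⟩
  · rintro Y ⟨hf, hw⟩
    refine ⟨inferInstanceAs (Finite {p : Y.ι × Finset D // _}),
      (bm_wf hK.bm.act_zero ?_ hw).res _⟩
    refine Subrelation.wf (fun {A' A} h => ?_) (InvImage.wf Finset.card Nat.lt_wfRel.wf)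
    obtain ⟨x, hx, rfl⟩ := kz_supp (A := A) (A' := A') fun e' => h (by
      change zc (RG G) (kz A) A' = 0
      rw [zc_apply, e', Int.cast_zero])
    exact Finset.card_erase_lt_of_mem hx

end Pool.Agent.Lib.NIL.EA
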