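import Pool.Agent.Lib.NIL.EA.Blue
import Pool.Agent.Lib.NIL.B_H1
import Pool.Agent.Lib.NIL.B_WT

/-! Block WN: `K`-flatness under affine permutation actions. -/

namespace Pool.Agent.Lib.NIL.EA

open Pointwise

namespace WN

/-- all point stabilisers are flat -/
def Pst {G ι : Type} [Group G] [MulAction G ι] (a : G → ι → ℤ) : Prop :=
  ∀ (d : ι → ℤ) (H : Subgroup G), (∀ g, g ∈ H ↔ ∀ i, d (g⁻¹ • i) + a g i = d i) → KF H

theorem kf_of_fix {G H ι : Type} [Group G] [Group H] [MulAction G ι] {a : G → ι → ℤ}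
    (ha : ∀ g h i, a (g * h) i = a g i + a h (g⁻¹ • i)) (hP : Pst a) (f : H →* G)
    (hf : Function.Injective f) (d : ι → ℤ)
    (h : ∀ g i, d ((f g)⁻¹ • i) + a (f g) i = d i) : KF H :=
  (hP d (affStab ha d) fun _ => Iff.rfl).of_injective (f.codRestrict (affStab ha d) h)
    fun _ _ e => hf (congrArg Subtype.val e)

/-- the action on the complement of an invariant set -/
@[reducible] def compl {G H ι : Type} [Group G] [Group H] [MulAction G ι] (f : H →* G)
    (I : Finset ι) (hI : ∀ g i, f g • i ∈ I ↔ i ∈ I) : MulAction H {i // i ∉ I} where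
  smul g i := ⟨f g • i.1, fun h => i.2 ((hI g i.1).1 h)⟩
  one_smul i := Subtype.ext (by change f 1 • i.1 = i.1; rw [map_one, one_smul])
  mul_smul g h i := Subtype.ext (by
    change f (g * h) • i.1 = f g • f h • i.1
    rw [map_mul, mul_smul])

end WN

open WN WT in
theorem st_wn (hM : St_MAIN) (hD : St_DBL) (hO : St_ORBQ) (hQ : St_QB) : St_WN := by
  classical
  intro N hN
  suffices key : ∀ (m : ℕ) (G ι : Type) [Group G] [Fintype ι] [MulAction G ι] (a : G → ι → ℤ),
      Fintype.card ι = m → (∀ g h i, a (g * h) i = a g i + a h (g⁻¹ • i)) → N G → Pst a →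
      KFlat G by
    intro G ι _ _ _ a ha hG hP H _ f hf
    let _ : MulAction H ι := MulAction.compHom ι f
    have e : ∀ (g : H) (i : ι), g⁻¹ • i = (f g)⁻¹ • i := fun g i => by rw [← map_inv]; rfl
    exact key _ H ι (fun g => a (f g)) rfl (fun g h i => by rw [map_mul, ha, e])
      (hN.inj _ _ f hf hG) fun d K hK => kf_of_fix ha hP (f.comp K.subtype)
        (hf.comp K.subtype_injective) d fun g i => e g i ▸ (hK g).1 g.2 i
  intro m
  induction m using Nat.strong_induction_on with
  | _ m ih =>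
  intro G ι _ _ _ a hm ha hG hP n
  obtain ⟨D, _, _, _, _, _, h1, h2, h3⟩ := hD G ι a ha
  let A := Multiplicative (Fin n → ℤ)
  let _ : MulAction (G × A) D := MulAction.compHom D (MonoidHom.fst G A)
  let _ : MulAction (G × A) (Pt D) := MulAction.compHom (Pt D) (MonoidHom.fst G A)
  have _ : Aff (G × A) D := ⟨fun g => Aff.aff g.1⟩
  refine hM (G × A) D (fun g => h1 g.1) (fun c => ?_) fun k hk => ?_
  · obtain ⟨d, hd⟩ := h2 c
    obtain ⟨e⟩ := exists_equiv (MulAction.stabilizer G c) (MulAction.stabilizer (G × A) c)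
      fun _ => Iff.rfl
    have := kf_of_fix ha hP (MulAction.stabilizer G c).subtype Subtype.val_injective d
      (fun g => hd g.1 g.2) _ (MonoidHom.id _) (fun _ _ h => h) n
    exact wh_of_equiv e
  · have key : ∀ y : Str D k, QG (MulAction.stabilizer (G × A) y) ℤ ∧
        N (MulAction.stabilizer (G × A) y) := by
      intro y
      obtain ⟨I, d, ⟨i₀, hi₀⟩, hI⟩ := h3 k hk y
      obtain ⟨e⟩ := exists_equiv (MulAction.stabilizer G y) (MulAction.stabilizer (G × A) y)
        fun _ => Iff.rfl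
      have hK := hN.inj _ _ (MulAction.stabilizer G y).subtype Subtype.val_injective hG
      let _ := compl (MulAction.stabilizer G y).subtype I fun g i => (hI g.1 g.2 i).1
      have hk : KFlat (MulAction.stabilizer G y) :=
        ih _ (hm ▸ Fintype.card_subtype_lt (p := fun i => i ∉ I) (not_not.2 hi₀)) _ {i // i ∉ I}
          (fun g i => a g.1 i.1) rfl (fun g h i => ha g.1 h.1 i.1) hK fun d' K hK =>
          kf_of_fix ha hP ((MulAction.stabilizer G y).subtype.comp K.subtype)
            (Subtype.val_injective.comp Subtype.val_injective)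
            (fun i => if h : i ∈ I then d i else d' ⟨i, h⟩) fun g i => by
              have h4 : (g.1.1)⁻¹ • i ∈ I ↔ i ∈ I := (hI g.1⁻¹.1 g.1⁻¹.2 i).1
              change (if h : (g.1.1)⁻¹ • i ∈ I then d ((g.1.1)⁻¹ • i)
                else d' ⟨(g.1.1)⁻¹ • i, h⟩) + a g.1.1 i = _
              by_cases hi : i ∈ I
              · rw [dif_pos hi, dif_pos (h4.2 hi)]
                exact (hI g.1.1 g.1.2 i).2 hi
              · rw [dif_neg hi, dif_neg (mt h4.1 hi)]
                exact (hK g.1).1 g.2 ⟨i, hi⟩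
      exact ⟨hQ.2.1 _ _ e ℤ (hQ.2.2.1 _ n hk).2,
        hN.inj _ _ e.symm.toMonoidHom e.symm.injective (hN.prod _ n hK)⟩
    exact ⟨hN.good _ _ (fun y => (key y).2) ℤ, hO _ _ ℤ fun y => (key y).1⟩

theorem st_wa (hI : St_IND) (hW : St_WN) : St_WA := fun G ι _ _ _ a ha h =>
  hW _ (nilLike hI) G ι a ha (.act G ι a ha fun d H hH => (h d H hH).1) fun d H hH => (h d H hH).2

end Pool.Agent.Lib.NIL.EA
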