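import Pool.Agent.Lib.NIL.EA.B_A
import Pool.Agent.Lib.NIL.EA.B_A1
import Pool.Agent.Lib.NIL.EA.B_B
import Pool.Agent.Lib.NIL.EA.B_C
import Pool.Agent.Lib.NIL.EA.B_C1
import Pool.Agent.Lib.NIL.EA.B_DBL
import Pool.Agent.Lib.NIL.EA.B_KS
import Pool.Agent.Lib.NIL.EA.B_KZ
import Pool.Agent.Lib.NIL.EA.B_LAM
import Pool.Agent.Lib.NIL.EA.B_MAIN
import Pool.Agent.Lib.NIL.EA.B_PP
import Pool.Agent.Lib.NIL.EA.B_PSI
import Pool.Agent.Lib.NIL.EA.B_WN

/-! Closure of `K`-flatness under affine permutation actions. -/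

namespace Pool.Agent.Lib.NIL.EA

theorem main : St_MAIN :=
  st_main st_ks st_lam
    (st_b st_lam st_psi (st_pp st_psi) (st_kz st_lam st_psi) (st_a (st_a1 st_lam)))
    (st_c st_lam st_psi (st_c1 st_lam st_psi))

theorem wa (hI : St_IND) (hO : St_ORBQ) (hQ : St_QB) : St_WA :=
  st_wa hI (st_wn main st_dbl hO hQ)

end Pool.Agent.Lib.NIL.EA
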