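import Pool.Agent.Lib.NIL.EA.Blue
import Pool.Agent.Lib.NIL.EA.G1
import Pool.Agent.Lib.NIL.EA.G3

/-! Block A: the stratum is a retract of a Koszul complex. -/

noncomputable section

namespace Pool.Agent.Lib.NIL.EA

open Finsupp Pointwise

namespace BA

theorem dec {R α : Type} [Ring R] (q : α → Prop) (v : α →₀ R) :
    v = inc Subtype.val (prj (Subtype.val : {i // q i} → α) Subtype.val_injective v) +
      inc Subtype.val (prj (Subtype.val : {i // ¬ q i} → α) Subtype.val_injective v) := by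
  ext i
  rw [Finsupp.add_apply]
  by_cases hi : q i
  · rw [inc_val_apply _ ⟨i, hi⟩, inc_apply_out (f := (Subtype.val : {i // ¬ q i} → α)) _
      fun a (e : a.1 = i) => a.2 (e ▸ hi), add_zero]
    rfl
  · rw [inc_val_apply (p := fun i => ¬ q i) _ ⟨i, hi⟩, inc_apply_out
      (f := (Subtype.val : {i // q i} → α)) _ fun a (e : a.1 = i) => hi (e ▸ a.2), zero_add]
    rfl

theorem prj_inc_not {R α : Type} [Ring R] (q : α → Prop) (x : {i // q i} →₀ R) :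
    prj (Subtype.val : {i // ¬ q i} → α) Subtype.val_injective (inc Subtype.val x) = 0 := by
  ext i
  exact inc_apply_out _ fun a e => i.2 (e ▸ a.2)

theorem alg {R A B V : Type} [Ring R] [AddCommGroup A] [AddCommGroup B] [AddCommGroup V]
    [Module R A] [Module R B] [Module R V] {i : A →ₗ[R] V} {j : B →ₗ[R] V} {θ : B →ₗ[R] A}
    {H a : A →ₗ[R] A} {b : B →ₗ[R] B} {d : V →ₗ[R] V} (hi : ∀ x y, i x = i y → x = y)
    (h1 : ∀ x, i (a x) = d (i x)) (h5 : ∀ y, d (j y) = i (θ y) + j (b y)) (h0 : ∀ y, b (b y) = 0)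
    (hd : ∀ v, d (d v) = 0) (eH : ∀ x, x = a (H x) + H (a x)) (y : B) :
    d ((j - i ∘ₗ H ∘ₗ θ) y) = (j - i ∘ₗ H ∘ₗ θ) (b y) := by
  have h6 : a (θ y) = -θ (b y) := by
    have := hd (j y)
    rw [h5, map_add, h5, h0, map_zero, add_zero, ← h1, ← map_add] at this
    exact eq_neg_of_add_eq_zero_left (hi _ _ (this.trans (map_zero _).symm))
  have e := eH (θ y)
  rw [h6, map_neg, ← sub_eq_add_neg, eq_sub_iff_add_eq] at e
  simp only [LinearMap.sub_apply, LinearMap.comp_apply, map_sub]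
  rw [h5, ← h1, ← e, map_add]
  abel

/-- a strict section of the projection with contractible kernel -/
theorem sec {R O : Type} [Ring R] {Rf : O → O → AddSubgroup R} (hC : (bcat Rf).Good) {V : Raw R O}
    (hV : (bcat Rf).Obj V) {q : V.ι → Prop} (hq : V.Closed q) (hc : (bcat Rf).Ctr (V.res q)) :
    ∃ s : Lin (V.res fun i => ¬ q i) V, (bcat Rf).Hom 0 _ _ s ∧
      (∀ v, V.δ (s v) = s ((V.res fun i => ¬ q i).δ v)) ∧
      ∀ v, prj Subtype.val Subtype.val_injective (s v) = v := by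
  obtain ⟨H, hH, eH⟩ := hc
  refine ⟨inc Subtype.val - inc Subtype.val ∘ₗ H ∘ₗ rl _ _ V.δ, ?_, fun y => ?_, fun y => ?_⟩
  · exact (hC.hom_inc (V := V.res fun i => ¬ q i) (W := V) (fun _ => rfl) fun _ => rfl).sub
      (hC.hom_comp (hC.hom_comp (hC.hom_res hV.1 _ _) hH (n := 0) rfl)
        (hC.hom_inc (V := V.res q) (W := V) (fun _ => rfl) fun _ => rfl) rfl)
  · refine alg (a := (V.res q).δ) (fun _ _ => inc_val_inj) (fun x => ?_) (fun y => ?_)
      (fun y => ?_) (fun v => ?_) (fun x => ?_) y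
    · have := Cat.inc_D_res (C := bcat Rf) hq x
      rwa [bcat_D, bcat_D] at this
    · simp only [LinearMap.comp_apply]
      exact dec q (V.δ (inc Subtype.val y))
    · have := (hC.ses_res hV hq).2.2.1.2 y
      rwa [bcat_D, bcat_D] at this
    · have := hV.2 v
      rwa [bcat_D, bcat_D] at this
    · have := eH x
      rwa [bcat_D, bcat_D, LinearMap.zero_apply, sub_zero] at this
  · rw [LinearMap.sub_apply, map_sub, prj_inc, LinearMap.comp_apply, prj_inc_not, sub_zero]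

variable {G D : Type} [Group G] [LinearOrder D] [MulAction G D] [MulAction G (Pt D)]

/-- the Koszul functor with labels in the cover -/
@[reducible] def B2 (G D : Type) [Group G] [LinearOrder D] [MulAction G D] :
    BM (RG G) (Pt D) (RG G) (Finset D × Finset D × Pt D) (Finset D × Finset D) :=
  pB (fun g p => sg g p.2) (fun p => p.2.card) (fun c p => (p.1, p.2, c)) kw

theorem isBM2 [Aff G D] : IsBM (T0 G D) (T2 G D) (B2 G D) :=
  isBM_pB isRel2 (fun p => sg_one p.2) (fun g h p => sg_mul g h p.2)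
    (fun g p => congrArg _ (Finset.card_smul_finset g p.2))
    (fun _ _ _ _ h => ⟨rfl, subset_rfl, fun i _ _ => h i⟩)
    (fun p p' h => by
      obtain ⟨i, -, hi, rfl⟩ := kw_supp h
      exact ⟨by rw [Finset.card_insert_of_notMem hi]; rfl,
        fun _ => ⟨rfl, Finset.subset_insert _ _, fun _ _ _ => le_rfl⟩⟩)
    kw_kw kw_smul

omit [MulAction G (Pt D)] in
theorem supp2 {Z : Raw (RG G) (Pt D)} {p p' : Z.ι × Finset D × Finset D}
    (h : (Z.bm (B2 G D)).δ (single p 1) p' ≠ 0) : (∃ g : G, g • p'.2 = p.2) ∨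
      ∃ i ∈ p.2.1, p'.2 = (p.2.1, insert i p.2.2) := by
  obtain ⟨g, hg⟩ : ∃ g, ((Z.bm (B2 G D)).δ (single p 1) p').coeff g ≠ 0 := by
    by_contra hn
    push Not at hn
    exact h (MonoidAlgebra.ext (Finsupp.ext hn))
  rcases pB_supp hg with h' | ⟨-, -, h'⟩
  · exact .inl ⟨g, h'.1⟩
  · obtain ⟨i, hi, -, e⟩ := kw_supp h'
    exact .inr ⟨i, hi, e⟩

omit [MulAction G (Pt D)] in
theorem closed1 (k : ℕ) (Z : Raw (RG G) (Pt D)) :
    (Z.bm (B2 G D)).Closed fun p => p.2.1.card = k ∧ p.2.2 ⊆ p.2.1 := by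
  rintro ⟨z, I, J⟩ ⟨z', I', J'⟩ hp h
  rcases supp2 h with ⟨g, hg⟩ | ⟨i, hi, e⟩
  · obtain ⟨rfl, rfl⟩ : g • I' = I ∧ g • J' = J := Prod.ext_iff.1 hg
    exact ⟨(Finset.card_smul_finset g I').symm.trans hp.1,
      Finset.smul_finset_subset_smul_finset_iff.1 hp.2⟩
  · obtain ⟨rfl, rfl⟩ : I' = I ∧ J' = insert i J := Prod.ext_iff.1 e
    exact ⟨hp.1, Finset.insert_subset hi hp.2⟩

omit [MulAction G (Pt D)] in
theorem closed2 (Z : Raw (RG G) (Pt D)) : (Z.bm (B2 G D)).Closed fun p => p.2.2 ≠ ∅ := by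
  rintro ⟨z, I, J⟩ ⟨z', I', J'⟩ hp h
  rcases supp2 h with ⟨g, hg⟩ | ⟨i, -, e⟩
  · obtain ⟨rfl, rfl⟩ : g • I' = I ∧ g • J' = J := Prod.ext_iff.1 hg
    rintro (rfl : J' = ∅)
    exact hp (Finset.smul_finset_empty g)
  · obtain ⟨rfl, rfl⟩ : I' = I ∧ J' = insert i J := Prod.ext_iff.1 e
    exact Finset.insert_ne_empty _ _

theorem pert {E L ι : Type} [Ring E] {C : Cat E L} (hC : C.Good) (dg : ι → ℤ) (lb : ι → L)
    (δ δ₀ : (ι →₀ E) →ₗ[E] (ι →₀ E)) (hV : C.Obj ⟨ι, dg, lb, δ⟩) (h0 : C.Ctr ⟨ι, dg, lb, δ₀⟩)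
    (ρ : L → ℕ) (hρ : ∀ k o o' a, a ∈ C.H k o o' → a ≠ 0 → ρ o' ≤ ρ o)
    (hδ : ∀ i i', δ (single i 1) i' ≠ δ₀ (single i 1) i' → ρ (lb i') < ρ (lb i)) :
    C.Ctr ⟨ι, dg, lb, δ⟩ :=
  ctr_of_pert hC hV h0 ρ hρ fun i i' h => hδ i i' (sub_ne_zero.1 h)

omit [MulAction G (Pt D)] in
theorem Nn_δ {k : ℕ} {Z : Raw (RG G) (Pt D)} (Δ : Finset D × Finset D → Finset D × Finset D →₀ ℤ)
    (i i' : {p : Z.ι × Finset D × Finset D // (p.2.1.card = k ∧ p.2.2 ⊆ p.2.1) ∧ p.2.2 ≠ ∅})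
    (h : Δ i.1.2 i'.1.2 = 0) : (Nn k Δ Z).δ (single i 1) i' =
      pent (fun g p => sg g p.2) i.1.2 i'.1.2 (Z.δ (single i.1.1 1) i'.1.1) := by
  classical
  rw [Raw.res_δ, pB_δ, h]
  simp

theorem ctrN [Aff G D] [Fintype D] {k : ℕ} {Z : Raw (RG G) (Pt D)}
    {Δ : Finset D × Finset D → Finset D × Finset D →₀ ℤ} (hN : (T2 G D).Obj (Nn k Δ Z))
    (hΔ : ∀ p p', Δ p p' ≠ 0 → p.2.card < p'.2.card)
    (h : (T2 G D).Ctr (Nn k (fun _ => 0) Z)) : (T2 G D).Ctr (Nn k Δ Z) := by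
  refine pert (ι := {p : Z.ι × Finset D × Finset D //
      (p.2.1.card = k ∧ p.2.2 ⊆ p.2.1) ∧ p.2.2 ≠ ∅}) (isRel2 (G := G) (D := D)).good
    (fun p => Z.deg p.1.1 + p.1.2.2.card) (fun p => (p.1.2.1, p.1.2.2, Z.lab p.1.1))
    (Nn k Δ Z).δ (Nn k (fun _ => 0) Z).δ hN h
    (fun o => Fintype.card D - o.2.1.card) (fun n o o' a ha h0 => ?_) fun i i' h => ?_
  · obtain ⟨g, hg⟩ : ∃ g, a.coeff g ≠ 0 := by
      by_contra hn
      push Not at hn
      exact h0 (MonoidAlgebra.ext (Finsupp.ext hn))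
    have := Finset.card_le_card ((mem_rc.1 ha).1 g hg).2.1
    rw [show (g • o').2.1 = g • o'.2.1 from rfl, Finset.card_smul_finset] at this
    omega
  · have h1 := hΔ i.1.2 i'.1.2 fun e => h ((Nn_δ Δ i i' e).trans (Nn_δ _ i i' rfl).symm)
    have h2 := Finset.card_le_univ i'.1.2.2
    change Fintype.card D - i'.1.2.2.card < Fintype.card D - i.1.2.2.card
    omega

theorem ctrK [Aff G D] [Fintype D] {k : ℕ} {Z : Raw (RG G) (Pt D)} (hZ : (T0 G D).Obj Z)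
    (h : (T2 G D).Ctr (Nn k (fun _ => 0) Z)) : (T2 G D).Ctr (Nn k kw Z) := by
  have g2 := (isRel2 (G := G) (D := D)).good
  have hB := (isBM2.isFn isRel0.good g2).obj hZ
  refine ctrN (g2.ses_res hB
    fun p p' hp h => ⟨closed1 k Z p p' hp.1 h, closed2 Z p p' hp.2 h⟩).1 (fun p p' h => ?_) h
  obtain ⟨i, -, hi, rfl⟩ := kw_supp h
  rw [Finset.card_insert_of_notMem hi]
  exact Nat.lt_succ_self _

theorem mv_empty (c : Pt D) (m : ℤ) (x : D) : mv c ∅ m x = c x := if_neg (Finset.notMem_empty x)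

end BA

open BA in
theorem st_a (h1 : St_A1) : St_A := by
  intro G D _ _ _ _ _ _
  intro k Z hZ hf hH
  classical
  have g1 := (isRel1 (G := G) (D := D)).good
  have g2 := (isRel2 (G := G) (D := D)).good
  have hB := (isBM2.isFn isRel0.good g2).obj hZ
  have hK := (g2.ses_res hB (closed1 k Z)).1
  let q : {p : Z.ι × Finset D × Finset D // p.2.1.card = k ∧ p.2.2 ⊆ p.2.1} → Prop :=
    fun i => i.1.2.2 ≠ ∅
  have hq : ((Z.bm (B2 G D)).res fun p => p.2.1.card = k ∧ p.2.2 ⊆ p.2.1).Closed q :=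
    fun i i' hi h => closed2 Z i.1 i'.1 hi (by rwa [Raw.res_δ] at h)
  have e1 := eqv_res_of_emb (A := Nn k kw Z)
    (V := (Z.bm (B2 G D)).res fun p => p.2.1.card = k ∧ p.2.2 ⊆ p.2.1) g2 q
    (fun i => ⟨i.1, i.2.1⟩) (fun a b e => Subtype.ext (congrArg (fun i => i.1) e))
    (fun i => ⟨fun h => ⟨⟨i.1, i.2, h⟩, rfl⟩, by rintro ⟨a, rfl⟩; exact a.2.2⟩) (fun _ => rfl)
    (fun _ => ⟨g2.one_mem _, g2.one_mem _⟩) fun i i' => by rw [Raw.res_δ, Raw.res_δ]
  obtain ⟨s, hs, hs1, hs2⟩ := sec g2 hK hq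
    (g2.ctr_of_retr e1.symm.retr (ctrK hZ (h1 G D k Z hZ hH)))
  obtain ⟨m, hm⟩ := Finite.exists_le fun t : {i // ¬ q i} × _ × D =>
    (s (single t.1 1) t.2.1).coeff.support.sup fun g =>
      (Z.lab t.1.1.1.1 t.2.2 - (g • Z.lab t.2.1.1.1) t.2.2).toNat
  refine ⟨m, g1.retr_trans (V := (Kz k m Z).res fun i => ¬ q i) (Cat.Eqv.retr ?_)
    ⟨s, prj Subtype.val Subtype.val_injective, ⟨rc_hom.2 fun i i' g hg => ?_, fun v => ?_⟩,
      ⟨g1.hom_prj (V := (Kz k m Z).res fun i => ¬ q i) _ (fun _ => rfl) fun _ => rfl,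
        Cat.D_res_prj (V := Kz k m Z) hq⟩, ?_⟩⟩
  · refine eqv_res_of_emb g1 _
      (fun i => ⟨(i.1.1, i.1.2, ∅), i.2, Finset.empty_subset _⟩) (fun a b e => ?_) (fun i => ?_)
      (fun _ => rfl) (fun i => ⟨one_mem_rc ⟨rfl, fun x _ => ?_⟩, one_mem_rc ⟨rfl, fun x _ => ?_⟩⟩)
      fun i i' => ?_
    · have := congrArg Subtype.val e
      simp only [Prod.mk.injEq, and_true] at this
      exact Subtype.ext (Prod.ext this.1 this.2)
    · obtain ⟨⟨z, I, J⟩, hp⟩ := i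
      refine ⟨fun h => ?_, ?_⟩
      · obtain rfl : J = ∅ := not_not.1 h
        exact ⟨⟨(z, I), hp.1⟩, rfl⟩
      · rintro ⟨a, e⟩ h
        exact h (congrArg (fun i => i.1.2.2) e).symm
    · exact (mv_empty (Z.lab i.1.1) m x).ge
    · exact (mv_empty (Z.lab i.1.1) m x).le
    · obtain ⟨⟨z, I⟩, hp⟩ := i
      obtain ⟨⟨z', I'⟩, hp'⟩ := i'
      have h0 : kw (I, (∅ : Finset D)) (I', ∅) = 0 := by
        by_contra h
        obtain ⟨i, -, -, e⟩ := kw_supp h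
        exact Finset.insert_ne_empty _ _ (congrArg Prod.snd e).symm
      rw [Raw.res_δ, Raw.res_δ, pB_δ, pB_δ, h0]
      congr 1
      refine MonoidAlgebra.ext (Finsupp.ext fun g => ?_)
      rw [pent_coeff, pent_coeff]
      simp [sg_empty]
  · obtain ⟨⟨a1, -, a3⟩, a4⟩ := rc_hom.1 hs i i' g hg
    refine ⟨⟨a1, fun x hx => ?_⟩, a4⟩
    have h2 : (Z.lab i.1.1.1 x - (g • Z.lab i'.1.1) x).toNat ≤ m :=
      (Finset.le_sup (f := fun g : G => (Z.lab i.1.1.1 x - (g • Z.lab i'.1.1) x).toNat)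
        (mem_support_iff.2 hg)).trans (hm (i, i', x))
    have h3 : i.1.1.2.2 = ∅ := not_not.1 i.2
    change mv (Z.lab i.1.1.1) i.1.1.2.2 m x ≤ (g • mv (Z.lab i'.1.1) i'.1.2.2 m) x
    rw [h3, smul_mv]
    simp only [mv, Finset.notMem_empty, if_false]
    split_ifs with h4
    · omega
    · exact a3 x hx h4
  · rw [bcat_D, bcat_D]
    exact hs1 v
  · rw [show prj Subtype.val Subtype.val_injective ∘ₗ s = LinearMap.id from LinearMap.ext hs2]
    exact Cat.Ht.refl _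

end Pool.Agent.Lib.NIL.EA
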