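import Pool.Agent.Lib.NIL.EA.Defs

/-! The statements of the blocks. -/

noncomputable section

namespace Pool.Agent.Lib.NIL.EA

open Finsupp Pointwise

/-- a property of affine actions -/
def All (P : ∀ (G D : Type) [Group G] [LinearOrder D] [MulAction G D] [MulAction G (Pt D)]
    [Aff G D] [Fintype D], Prop) : Prop :=
  ∀ (G D : Type) [Group G] [LinearOrder D] [MulAction G D] [MulAction G (Pt D)] [Aff G D]
    [Fintype D], P G D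

/-- a property of Koszul packages -/
def AllK (P : ∀ (G D : Type) [Group G] [LinearOrder D] [MulAction G D] [MulAction G (Pt D)]
    [Aff G D] [Fintype D] (k : ℕ) (E Λ : Type) [Ring E] (_ : Sys (RG G) E Λ (Str D k))
    (_ : D → Str D k → E) (_ : Finset D → Finset D → E →+ RG G), Prop) : Prop :=
  ∀ (G D : Type) [Group G] [LinearOrder D] [MulAction G D] [MulAction G (Pt D)] [Aff G D]
    [Fintype D] (k : ℕ) (E Λ : Type) [Ring E] (S : Sys (RG G) E Λ (Str D k))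
    (ξ : D → Str D k → E) (ent : Finset D → Finset D → E →+ RG G), KP S ξ ent →
    P G D k E Λ S ξ ent

def St_KS : Prop := All fun G D _ _ _ _ _ _ => ∀ k : ℕ, k ≤ Fintype.card D →
  ∃ (E Λ : Type) (_ : Ring E) (S : Sys (RG G) E Λ (Str D k)) (ξ : D → Str D k → E)
    (ent : Finset D → Finset D → E →+ RG G), KP S ξ ent

/-- the transfer and the Koszul complexes are functors -/
def St_LAM : Prop := All fun G D _ _ _ _ _ _ =>
  IsBM (T0 G D) (T1 G D) (ΛB G D) ∧ (∀ m : ℕ, IsBM (T0 G D) (T1 G D) (KB G D m)) ∧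
  ∀ Z, (T0 G D).Obj Z → (∀ q : Finset D → Prop, (∀ (g : G) I, q (g • I) → q I) →
      (Z.bm (ΛB G D)).Closed fun p => q p.2) ∧
    (∀ k, (T1 G D).Obj (Mk k Z) ∧ (Z.Fin1 → (Mk k Z).Fin1)) ∧
    (∀ k (m : ℕ), (T1 G D).Obj (Kz k m Z)) ∧
    (Hk (Fintype.card D + 1) Z → (T0 G D).Ctr Z) ∧
    ((tcat (RG G) Unit).Ctr (Z.relab fun _ => ()) → Hk 1 Z)

def St_PSI : Prop := AllK fun G D _ _ _ _ _ _ k _ _ _ S ξ ent =>
  IsBM (T1 G D) (S.cat (gfam G (Str D k))) (ΨB S.i ξ) ∧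
  IsFn (T1 G D) (S.cat (gfam G (Str D k))) (Ψ S.i ξ)
    (fun _ _ f => rl _ _ (bmL (ΨB S.i ξ).act f)) ∧
  IsFn (S.cat (gfam G (Str D k))) (T1 G D) (Φ ent)
    (fun _ _ f => rl _ _ (bmL (ΦB k ent).act f)) ∧
  (∀ V : Raw (RG G) (Finset D × Pt D), V.Bdd → (Ψ S.i ξ V).Bdd) ∧
  ∀ Y : Raw _ (Str D k), Y.Fin1 → (Φ ent Y).Fin1

/-- the Koszul resolution -/
def St_PP : Prop := AllK fun G D _ _ _ _ _ _ k _ _ _ S ξ ent =>
  ∀ V, (T1 G D).Obj V → V.Fin1 → (∀ i, (V.lab i).1.card = k) →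
    (T1 G D).Eqv (Φ ent (Ψ S.i ξ V)) V

def St_KZ : Prop := AllK fun G D _ _ _ _ _ _ k _ _ _ S ξ _ =>
  ∀ (Z : Raw (RG G) (Pt D)) (m : ℕ), (T0 G D).Obj Z → Z.Fin1 →
    (S.cat (gfam G (Str D k))).InO (Ψ S.i ξ (Kz k m Z))

/-- the object of the cover by the coordinate localisations -/
@[reducible] def Nn {G D : Type} [Group G] [LinearOrder D] [MulAction G D] (k : ℕ)
    (Δ : Finset D × Finset D → Finset D × Finset D →₀ ℤ) (Z : Raw (RG G) (Pt D)) :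
    Raw (RG G) (Finset D × Finset D × Pt D) :=
  (Z.bm (pB (fun g p => sg g p.2) (fun p => p.2.card) (fun c p => (p.1, p.2, c)) Δ)).res
    fun p => (p.2.1.card = k ∧ p.2.2 ⊆ p.2.1) ∧ p.2.2 ≠ ∅

def St_A1 : Prop := All fun G D _ _ _ _ _ _ => ∀ (k : ℕ) (Z : Raw (RG G) (Pt D)),
  (T0 G D).Obj Z → Hk k Z → (T2 G D).Ctr (Nn k (fun _ => 0) Z)

def St_A : Prop := All fun G D _ _ _ _ _ _ => ∀ (k : ℕ) (Z : Raw (RG G) (Pt D)),
  (T0 G D).Obj Z → Finite Z.ι → Hk k Z → ∃ m : ℕ, (T1 G D).Retr (Mk k Z) (Kz k m Z)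

def St_B : Prop := AllK fun G D _ _ _ _ _ _ k _ _ _ S _ ent =>
  Lev (gfam G (Str D k)) ℤ 1 → QO G (Str D k) ℤ → ∀ Z : Raw (RG G) (Pt D), (T0 G D).Obj Z →
    Z.Fin1 → Hk k Z → ∃ Y, (S.cat (gfam G (Str D k))).Obj Y ∧ Y.Fin1 ∧
      (T1 G D).Eqv (Φ ent Y) (Mk k Z)

/-- the Koszul complexes with complete labels -/
@[reducible] def Up {G D E : Type} [Group G] [LinearOrder D] [Fintype D] {k : ℕ} [Ring E]
    (ent : Finset D → Finset D → E →+ RG G) (Y : Raw E (Str D k)) (pos : (Φ ent Y).ι → Pt D) :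
    Raw (RG G) (Pt D) := ⟨(Φ ent Y).ι, (Φ ent Y).deg, pos, (Φ ent Y).δ⟩

/-- the labels agree on the strata and depend only on the block elsewhere -/
def Pos {G D E : Type} [Group G] [LinearOrder D] [Fintype D] {k : ℕ} [Ring E]
    (ent : Finset D → Finset D → E →+ RG G) (Y : Raw E (Str D k)) (pos : (Φ ent Y).ι → Pt D) :
    Prop := (∀ i, ∀ x ∈ (Y.lab i.1.1).I, pos i x = mv (Y.lab i.1.1).c i.1.2 (-1) x) ∧
  ∀ i i', i.1.1 = i'.1.1 → ∀ x, x ∉ (Y.lab i.1.1).I → pos i x = pos i' x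

/-- away from the diagonal the Koszul complexes are contractible -/
def St_C1 : Prop := AllK fun G D _ _ _ _ _ _ k _ _ _ S _ ent =>
  ∀ Y pos, (S.cat (gfam G (Str D k))).Obj Y → Y.Fin1 → Pos ent Y pos →
    (T0 G D).Obj (Up ent Y pos) →
    (1 ≤ k → Tors (whQ G) (Up ent Y pos)) ∧
    (((Up ent Y pos).bm (ΛB G D)).Closed fun p => p.2 = (Y.lab p.1.1.1).I) ∧
    (T1 G D).Ctr (((Up ent Y pos).bm (ΛB G D)).res
      fun p => p.2.card < k + 1 ∧ ¬ p.2 = (Y.lab p.1.1.1).I)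

def St_C : Prop := AllK fun G D _ _ _ _ _ _ k _ _ _ S _ ent =>
  1 ≤ k → ∀ (Z : Raw (RG G) (Pt D)) Y, (T0 G D).Obj Z → Z.Fin1 → Hk k Z →
    (S.cat (gfam G (Str D k))).Obj Y → Y.Fin1 → (T1 G D).Eqv (Φ ent Y) (Mk k Z) →
    ∃ Z' : Raw (RG G) (Pt D), (T0 G D).Obj Z' ∧ Z'.Fin1 ∧ Hk (k + 1) Z' ∧
      (Tors (whQ G) Z' → Tors (whQ G) Z)

def St_MAIN : Prop := All fun G D _ _ _ _ _ _ =>
  (∀ (g : G) (c : Pt D), ∑ i, (g • c) i = ∑ i, c i) →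
  (∀ c : Pt D, Subsingleton (WhDet.Wh (MulAction.stabilizer G c))) →
  (∀ k, 1 ≤ k → Lev (gfam G (Str D k)) ℤ 1 ∧ QO G (Str D k) ℤ) → Subsingleton (WhDet.Wh G)

/-- the doubled action -/
def St_DBL : Prop :=
  ∀ (G ι : Type) [Group G] [Fintype ι] [MulAction G ι] (a : G → ι → ℤ),
    (∀ g h i, a (g * h) i = a g i + a h (g⁻¹ • i)) →
    ∃ (D : Type) (_ : LinearOrder D) (_ : MulAction G D) (_ : MulAction G (Pt D)) (_ : Aff G D)
      (_ : Fintype D), (∀ (g : G) (c : Pt D), ∑ i, (g • c) i = ∑ i, c i) ∧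
      (∀ c : Pt D, ∃ d : ι → ℤ, ∀ g : G, g • c = c → ∀ i, d (g⁻¹ • i) + a g i = d i) ∧
      ∀ k, 1 ≤ k → ∀ y : Str D k, ∃ (I : Finset ι) (d : ι → ℤ), I.Nonempty ∧
        ∀ g : G, g • y = y → ∀ i, (g • i ∈ I ↔ i ∈ I) ∧ (i ∈ I → d (g⁻¹ • i) + a g i = d i)

def St_WN : Prop :=
  ∀ (N : ∀ (G : Type) [Group G], Prop), NilLike N →
    ∀ (G ι : Type) [Group G] [Fintype ι] [MulAction G ι] (a : G → ι → ℤ),
      (∀ g h i, a (g * h) i = a g i + a h (g⁻¹ • i)) → N G →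
      (∀ (d : ι → ℤ) (H : Subgroup G), (∀ g, g ∈ H ↔ ∀ i, d (g⁻¹ • i) + a g i = d i) → KF H) →
      KF G

end Pool.Agent.Lib.NIL.EA
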