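import Pool.Agent.Lib.NIL.Blue2
import Pool.Agent.Lib.NIL.A6

/-! Actions on `ℤ ^ D` by permutations of the coordinates and translations: definitions. -/

noncomputable section

namespace Pool.Agent.Lib.NIL.EA

open Finsupp Pointwise

abbrev RG (G : Type) [Group G] : Type := MonoidAlgebra ℤ G

theorem ex_smul {G X : Type} [Group G] [MulAction G X] (g : G) (x : X) : ∃ y : X, g • y = x :=
  ⟨g⁻¹ • x, smul_inv_smul g x⟩

/-! ### Families given by an invariant preorder -/

section

variable {L L' κ E' : Type} [Ring E']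

/-- the span of the `g` with `r o (g o')` -/
def rf (G : Type) [Group G] [MulAction G L] (r : L → L → Prop) (o o' : L) : AddSubgroup (RG G) :=
  sfam fun g => r o (g • o')

abbrev rc (G : Type) [Group G] [MulAction G L] (r : L → L → Prop) : Cat (RG G) L := bcat (rf G r)

structure IsRel (G : Type) [Group G] [MulAction G L] (r : L → L → Prop) : Prop where
  refl : ∀ o, r o o
  trans : ∀ {o o' o''}, r o o' → r o' o'' → r o o''
  smul : ∀ (g : G) {o o'}, r o o' → r (g • o) (g • o')

variable {G : Type} [Group G] [MulAction G L] [MulAction G κ]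

theorem IsRel.bas {r : L → L → Prop} (h : IsRel G r) : IsBas (rf G r) where
  one_mem o := single_mem_sfam (p := fun g => r o (g • o)) (g := 1)
    (by rw [one_smul]; exact h.refl o) 1
  mul_mem ha hb := sfam_mul (fun g g' h1 h2 => by
    rw [mul_smul]
    exact h.trans h1 (h.smul g h2)) ha hb

theorem IsRel.good {r : L → L → Prop} (h : IsRel G r) : (rc G r).Good := h.bas.good

open Classical in
/-- the part of `a` that carries `k'` to `k`, with signs -/
def pent (s : G → κ → ℤ) (k k' : κ) : RG G →+ RG G :=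
  (liftAddHom fun g => (MonoidAlgebra.singleAddHom g).comp
    (AddMonoidHom.mulLeft (if g • k' = k then s g k' else 0))).comp
    (MonoidAlgebra.coeffAddEquiv (R := ℤ) (M := G)).toAddMonoidHom

/-- the signed permutation action -/
def pact (i : RG G →+* E') (s : G → κ → ℤ) (a : RG G) (k : κ) : κ →₀ E' :=
  a.coeff.sum fun g n => single (g⁻¹ • k) (i (MonoidAlgebra.single g (s g (g⁻¹ • k) * n)))

/-- integer vectors -/
def zc (E' : Type) [Ring E'] (v : κ →₀ ℤ) : κ →₀ E' := mapRange Int.cast Int.cast_zero v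

/-- tensoring with a signed permutation complex -/
@[reducible] def pB (s : G → κ → ℤ) (dg : κ → ℤ) (lb : L → κ → L') (Δ : κ → κ →₀ ℤ) :
    BM (RG G) L (RG G) L' κ := ⟨pact (RingHom.id _) s, dg, lb, fun k => zc _ (Δ k)⟩

/-- the restriction of a map to sets of generators -/
abbrev rl {α β : Type} (p : α → Prop) (q : β → Prop) (f : (α →₀ E') →ₗ[E'] (β →₀ E')) :
    ({i // p i} →₀ E') →ₗ[E'] ({i // q i} →₀ E') :=
  prj Subtype.val Subtype.val_injective ∘ₗ f ∘ₗ inc Subtype.val

/-- a matching of the generators in `q` -/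
structure Mt {α : Type} [Preorder α] (C : Cat E' L') (V : Raw E' L') (q up : V.ι → Prop)
    (m : V.ι → V.ι) (ρ : V.ι → α) : Prop where
  qm : ∀ i, q i → q (m i)
  mm : ∀ i, q i → m (m i) = i
  um : ∀ i, q i → (up (m i) ↔ ¬ up i)
  ρm : ∀ i, q i → ρ (m i) = ρ i
  deg : ∀ i, q i → up i → V.deg (m i) = V.deg i + 1
  lab : ∀ i, q i → up i → (1 : E') ∈ C.H 0 (V.lab (m i)) (V.lab i)
  unit : ∀ i, q i → up i → ∃ s : ℤˣ, V.δ (single i 1) (m i) = s • 1
  low : ∀ i i', q i → q i' → V.δ (single i 1) i' ≠ 0 → ρ i' < ρ i ∨ up i ∧ i' = m i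

end

/-! ### Signs -/

section

variable {G D : Type} [Group G] [LinearOrder D] [MulAction G D]

def τ (i j : D) : ℤ := if j < i then -1 else if j = i then 0 else 1

/-- the sign of the shuffle -/
def w (J K : Finset D) : ℤ := ∏ i ∈ J, ∏ j ∈ K, τ i j

/-- the sign of `g : J → g J` -/
def sg (g : G) (J : Finset D) : ℤ := ∏ i ∈ J, ∏ j ∈ J, if i < j ∧ g • j < g • i then -1 else 1

/-- interior multiplication by the sum of the generators -/
def kz (A : Finset D) : Finset D →₀ ℤ := ∑ i ∈ A, single (A.erase i) (w {i} (A.erase i))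

/-- exterior multiplication by the sum of the generators in `I` -/
def kw (p : Finset D × Finset D) : Finset D × Finset D →₀ ℤ :=
  ∑ i ∈ p.1, single (p.1, insert i p.2) (w {i} p.2)

end

/-! ### Points and strata -/

/-- the lattice -/
abbrev Pt (D : Type) : Type := D → ℤ

/-- the action permutes the coordinates up to translation -/
class Aff (G D : Type) [Group G] [MulAction G D] [MulAction G (Pt D)] : Prop where
  aff : ∀ (g : G) (c c' : Pt D) (i : D), (g • c) (g • i) - (g • c') (g • i) = c i - c' i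

section

variable {G D : Type} [Group G] [LinearOrder D] [MulAction G D] [MulAction G (Pt D)]

/-- add `m` to the coordinates in `J` -/
def mv (c : Pt D) (J : Finset D) (m : ℤ) : Pt D := fun i => if i ∈ J then c i + m else c i

/-- forget the coordinates outside `I` -/
def cut (I : Finset D) (c : Pt D) : Pt D := fun i => if i ∈ I then c i else 0

def r0 (c c' : Pt D) : Prop := ∀ i, c i ≤ c' i

def r1 (p p' : Finset D × Pt D) : Prop := p.1 = p'.1 ∧ ∀ i ∈ p.1, p.2 i ≤ p'.2 i

def r2 (p p' : Finset D × Finset D × Pt D) : Prop :=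
  p.1 = p'.1 ∧ p.2.1 ⊆ p'.2.1 ∧ ∀ i ∈ p.1, i ∉ p'.2.1 → p.2.2 i ≤ p'.2.2 i

omit [LinearOrder D] in
theorem smul_le [Aff G D] (g : G) {c c' : Pt D} {i : D} :
    (g • c) (g • i) ≤ (g • c') (g • i) ↔ c i ≤ c' i := by
  have := Aff.aff g c c' i
  omega

omit [LinearOrder D] in
theorem smul_eq [Aff G D] (g : G) {c c' : Pt D} {i : D} :
    (g • c) (g • i) = (g • c') (g • i) ↔ c i = c' i := by
  have := Aff.aff g c c' i
  omega

theorem smul_mv [Aff G D] (g : G) (c : Pt D) (J : Finset D) (m : ℤ) :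
    g • mv c J m = mv (g • c) (g • J) m := by
  funext i
  obtain ⟨i, rfl⟩ := ex_smul g i
  have := Aff.aff g (mv c J m) c i
  simp only [mv, Finset.smul_mem_smul_finset_iff] at this ⊢
  split_ifs at this ⊢ <;> omega

omit [LinearOrder D] in
theorem isRel0 [Aff G D] : IsRel G (r0 (D := D)) where
  refl _ _ := le_rfl
  trans h h' i := (h i).trans (h' i)
  smul g _ _ h i := by
    obtain ⟨i, rfl⟩ := ex_smul g i
    exact (smul_le g).2 (h i)

theorem isRel1 [Aff G D] : IsRel G (r1 (D := D)) where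
  refl _ := ⟨rfl, fun _ _ => le_rfl⟩
  trans h h' := ⟨h.1.trans h'.1, fun i hi => (h.2 i hi).trans (h'.2 i (h.1 ▸ hi))⟩
  smul g _ _ h := ⟨congrArg (g • ·) h.1, fun i hi => by
    obtain ⟨i, rfl⟩ := ex_smul g i
    exact (smul_le g).2 (h.2 i (Finset.smul_mem_smul_finset_iff g |>.1 hi))⟩

theorem isRel2 [Aff G D] : IsRel G (r2 (D := D)) where
  refl _ := ⟨rfl, subset_rfl, fun _ _ _ => le_rfl⟩
  trans h h' := ⟨h.1.trans h'.1, h.2.1.trans h'.2.1, fun i hi hj =>
    (h.2.2 i hi fun e => hj (h'.2.1 e)).trans (h'.2.2 i (h.1 ▸ hi) hj)⟩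
  smul g _ _ h := ⟨congrArg (g • ·) h.1, Finset.smul_finset_subset_smul_finset h.2.1,
    fun i hi hj => by
      obtain ⟨i, rfl⟩ := ex_smul g i
      exact (smul_le g).2 (h.2.2 i (Finset.smul_mem_smul_finset_iff g |>.1 hi)
        fun e => hj (Finset.smul_mem_smul_finset e))⟩

/-- points with `k` coordinates -/
@[ext] structure Str (D : Type) (k : ℕ) where
  I : Finset D
  c : Pt D
  card : I.card = k
  out : ∀ i, i ∉ I → c i = 0

namespace Str

variable {k : ℕ}

def of (I : Finset D) (h : I.card = k) (c : Pt D) : Str D k :=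
  ⟨I, cut I c, h, fun _ hi => if_neg hi⟩

theorem of_c {I : Finset D} (h : I.card = k) (c : Pt D) {i : D} (hi : i ∈ I) :
    (of I h c).c i = c i := if_pos hi

omit [LinearOrder D] in
theorem ext' {y y' : Str D k} (h : y.I = y'.I) (h' : ∀ i ∈ y.I, y.c i = y'.c i) : y = y' :=
  Str.ext h (funext fun i => by
    by_cases hi : i ∈ y.I
    · exact h' i hi
    · rw [y.out i hi, y'.out i (h ▸ hi)])

instance [Aff G D] : MulAction G (Str D k) where
  smul g y := of (g • y.I) ((Finset.card_smul_finset g _).trans y.card) (g • y.c)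
  one_smul y := ext' (one_smul _ _) fun i hi => (of_c _ _ hi).trans (by rw [one_smul])
  mul_smul g g' y := ext' (mul_smul _ _ _) fun i hi => by
    have hi' : i ∈ g • g' • y.I := mul_smul g g' y.I ▸ hi
    refine (of_c _ _ hi).trans (Eq.trans ?_ (of_c _ _ hi').symm)
    obtain ⟨i, rfl⟩ := ex_smul g i
    rw [mul_smul]
    exact (smul_eq g).2 (of_c _ _ (Finset.smul_mem_smul_finset_iff g |>.1 hi')).symm

theorem smul_I [Aff G D] (g : G) (y : Str D k) : (g • y).I = g • y.I := rfl

theorem smul_c [Aff G D] (g : G) (y : Str D k) {i : D} (hi : i ∈ g • y.I) :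
    (g • y).c i = (g • y.c) i := of_c _ _ hi

/-- add `m` to the coordinates in `J` -/
def mv (y : Str D k) (J : Finset D) (m : ℤ) : Str D k := of y.I y.card (EA.mv y.c J m)

theorem mv_I (y : Str D k) (J : Finset D) (m : ℤ) : (y.mv J m).I = y.I := rfl

theorem mv_c (y : Str D k) (J : Finset D) (m : ℤ) {i : D} (hi : i ∈ y.I) :
    (y.mv J m).c i = if i ∈ J then y.c i + m else y.c i := of_c _ _ hi

theorem smul_mv [Aff G D] (g : G) (y : Str D k) (J : Finset D) (m : ℤ) :
    g • y.mv J m = (g • y).mv (g • J) m := ext' rfl fun i hi => by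
  obtain ⟨i, rfl⟩ := ex_smul g i
  have hi' : i ∈ y.I := (Finset.smul_mem_smul_finset_iff g).1 hi
  have := Aff.aff g (y.mv J m).c y.c i
  rw [mv_c _ _ _ hi'] at this
  rw [smul_c _ _ hi, mv_c (g • y) _ _ hi, smul_c g y hi]
  simp only [Finset.smul_mem_smul_finset_iff]
  split_ifs at this ⊢ <;> omega

/-- the label in the category of the strata -/
def lb (y : Str D k) : Finset D × Pt D := (y.I, y.c)

end Str

/-! ### The functors -/

variable (G D)

abbrev T0 : Cat (RG G) (Pt D) := rc G r0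

abbrev T1 : Cat (RG G) (Finset D × Pt D) := rc G r1

abbrev T2 : Cat (RG G) (Finset D × Finset D × Pt D) := rc G r2

/-- the transfer to the strata -/
@[reducible] def ΛB : BM (RG G) (Pt D) (RG G) (Finset D × Pt D) (Finset D) :=
  pB (fun _ _ => 1) (fun _ => 0) (fun c I => (I, c)) fun _ => 0

/-- tensoring with the Koszul complex of the `m`-th powers -/
@[reducible] def KB (m : ℤ) : BM (RG G) (Pt D) (RG G) (Finset D × Pt D) (Finset D × Finset D) :=
  pB (fun g p => sg g p.2) (fun p => p.2.card) (fun c p => (p.1, mv c p.2 m)) kw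

variable {G D}

/-- the localisations that keep less than `k` coordinates are contractible -/
def Hk (k : ℕ) (Z : Raw (RG G) (Pt D)) : Prop :=
  (T1 G D).Ctr ((Z.bm (ΛB G D)).res fun p => p.2.card < k)

@[reducible] def Mk (k : ℕ) (Z : Raw (RG G) (Pt D)) : Raw (RG G) (Finset D × Pt D) :=
  (Z.bm (ΛB G D)).res fun p => p.2.card = k

@[reducible] def Kz (k : ℕ) (m : ℤ) (Z : Raw (RG G) (Pt D)) : Raw (RG G) (Finset D × Pt D) :=
  (Z.bm (KB G D m)).res fun p => p.2.1.card = k ∧ p.2.2 ⊆ p.2.1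

variable [Aff G D] [Fintype D] {k : ℕ} {E Λ : Type} [Ring E]

@[reducible] def ΨB (i : RG G →+* E) (ξ : D → Str D k → E) :
    BM (RG G) (Finset D × Pt D) E (Str D k) (Str D k) :=
  ⟨pact i fun _ _ => 1, fun _ => 0, fun _ y => y,
    fun y => -∑ x ∈ y.I, single (y.mv {x} (-1)) (ξ x (y.mv {x} (-1)))⟩

/-- the module of maps from the Koszul complexes -/
@[reducible] def Ψ (i : RG G →+* E) (ξ : D → Str D k → E) (V : Raw (RG G) (Finset D × Pt D)) :
    Raw E (Str D k) := (V.bm (ΨB i ξ)).res fun p => r1 p.2.lb (V.lab p.1)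

@[reducible] def ΦB (k : ℕ) (ent : Finset D → Finset D → E →+ RG G) :
    BM E (Str D k) (RG G) (Finset D × Pt D) (Finset D) :=
  ⟨fun a A => equivFunOnFinite.symm fun A' => ent A A' a, fun A => -(A.card : ℤ),
    fun y A => (y.I, mv y.c A (-1)), fun A => zc _ (kz A)⟩

/-- tensoring with the Koszul complexes -/
@[reducible] def Φ (ent : Finset D → Finset D → E →+ RG G) (Y : Raw E (Str D k)) :
    Raw (RG G) (Finset D × Pt D) := (Y.bm (ΦB k ent)).res fun p => p.2 ⊆ (Y.lab p.1).I

/-- the exterior algebra over the strata -/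
structure KP (S : Sys (RG G) E Λ (Str D k)) (ξ : D → Str D k → E)
    (ent : Finset D → Finset D → E →+ RG G) : Prop where
  sys : S.IsSys (gfam G (Str D k)) 1
  d : S.d = 0
  ξ_mem : ∀ y, ∀ x ∈ y.I, ξ x y ∈ (S.cat (gfam G (Str D k))).H 1 (y.mv {x} 1) y
  ξ_i : ∀ x y (g : G), ξ (g • x) (g • y) * S.i (.single g 1) = S.i (.single g 1) * ξ x y
  ξ_ξ : ∀ x x' y₁ y₂ y, ξ x y₁ * ξ x' y = -(ξ x' y₂ * ξ x y)
  ξ_sq : ∀ x y₁ y, ξ x y₁ * ξ x y = 0
  ξ_aug : ∀ x y, S.aug (ξ x y) = 0
  bm : IsBM (S.cat (gfam G (Str D k))) (T1 G D) (ΦB k ent)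
  ent_i : ∀ A A' r, ent A A' (S.i r) = pent sg A A' r
  ent_ξ : ∀ A A' x y, ent A A' (ξ x y) =
    if x ∈ A ∧ A' = A.erase x then (w {x} A' : RG G) else 0
  ent_sub : ∀ A A' a g, (ent A A' a).coeff g ≠ 0 → g • A' ⊆ A

end

end Pool.Agent.Lib.NIL.EA
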