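import Pool.Agent.Lib.NIL.EA.Defs

/-! G2: signed permutation functors, restriction of functors, reindexing. -/

set_option linter.unusedVariables false

namespace Pool.Agent.Lib.NIL.EA

open Finsupp Pointwise

variable {G L L' κ E E' : Type} [Group G] [MulAction G κ] [Ring E] [Ring E']

theorem pent_single (s : G → κ → ℤ) (k k' : κ) (g : G) (n : ℤ) [Decidable (g • k' = k)] :
    pent s k k' (.single g n) = if g • k' = k then .single g (s g k' * n) else 0 := by
  refine (liftAddHom_apply_single _ g n).trans ?_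
  by_cases h : g • k' = k <;> simp [h]

theorem pent_coeff (s : G → κ → ℤ) (k k' : κ) (a : RG G) (g : G) [Decidable (g • k' = k)] :
    (pent s k k' a).coeff g = if g • k' = k then s g k' * a.coeff g else 0 := by
  classical
  induction a using MonoidAlgebra.induction_linear with
  | zero => simp
  | add a b ha hb =>
    rw [map_add, MonoidAlgebra.coeff_add, MonoidAlgebra.coeff_add, Finsupp.add_apply,
      Finsupp.add_apply, ha, hb]
    split_ifs <;> ring
  | single h n =>
    rw [pent_single]
    by_cases e : h = g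
    · subst e
      by_cases e' : h • k' = k <;> simp [e']
    · split_ifs <;> simp [e]

theorem pent_supp {s : G → κ → ℤ} {k k' : κ} {a : RG G} {g : G} (h : (pent s k k' a).coeff g ≠ 0) :
    g • k' = k ∧ a.coeff g ≠ 0 := by
  classical
  rw [pent_coeff] at h
  split_ifs at h with e
  · exact ⟨e, right_ne_zero_of_mul h⟩
  · exact absurd rfl h

theorem pact_zero (i : RG G →+* E') (s : G → κ → ℤ) (k : κ) : pact i s 0 k = 0 := rfl

theorem pact_add (i : RG G →+* E') (s : G → κ → ℤ) (a b : RG G) (k : κ) :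
    pact i s (a + b) k = pact i s a k + pact i s b k := by
  unfold pact
  rw [MonoidAlgebra.coeff_add]
  exact sum_add_index' (fun g => by simp) fun g m n => by
    rw [mul_add, MonoidAlgebra.single_add, map_add, single_add]

theorem pact_single (i : RG G →+* E') (s : G → κ → ℤ) (g : G) (n : ℤ) (k : κ) :
    pact i s (.single g n) (g • k) = single k (i (.single g (s g k * n))) := by
  unfold pact
  rw [MonoidAlgebra.coeff_single, sum_single_index (by simp), inv_smul_smul]

theorem pact_apply (i : RG G →+* E') (s : G → κ → ℤ) (a : RG G) (k k' : κ) :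
    pact i s a k k' = i (pent s k k' a) := by
  classical
  induction a using MonoidAlgebra.induction_linear with
  | zero => rw [pact_zero, map_zero, map_zero, Finsupp.zero_apply]
  | add a b ha hb => rw [pact_add, map_add, map_add, Finsupp.add_apply, ha, hb]
  | single g n =>
    obtain ⟨k, rfl⟩ := ex_smul g k
    rw [pact_single, pent_single, single_apply]
    by_cases e : k = k'
    · rw [if_pos e, if_pos (by rw [e]), e]
    · rw [if_neg e, if_neg fun e' => e (MulAction.injective g e').symm, map_zero]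

theorem zc_apply (v : κ →₀ ℤ) (k : κ) : zc E' v k = (v k : E') := rfl

theorem coeff_intCast {n : ℤ} {g : G} (h : (n : RG G).coeff g ≠ 0) : g = 1 ∧ n ≠ 0 := by
  rw [MonoidAlgebra.intCast_def, MonoidAlgebra.coeff_single] at h
  obtain ⟨h1, h2⟩ := single_apply_ne_zero.1 h
  exact ⟨h1, h2⟩

theorem mem_rc [MulAction G L] {r : L → L → Prop} {k : ℤ} {o o' : L} {a : RG G} :
    a ∈ (rc G r).H k o o' ↔ (∀ g, a.coeff g ≠ 0 → r o (g • o')) ∧ (a ≠ 0 → k = 0) := mem_bcat

theorem rc_hom [MulAction G L] {r : L → L → Prop} {k : ℤ} {V W : Raw (RG G) L} {f : Lin V W} :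
    (rc G r).Hom k V W f ↔ ∀ i i' g, (f (single i 1) i').coeff g ≠ 0 →
      r (V.lab i) (g • W.lab i') ∧ W.deg i' = V.deg i + k := by
  refine forall₂_congr fun i i' => mem_rc.trans ⟨fun h g hg => ⟨h.1 g hg, ?_⟩,
    fun h => ⟨fun g hg => (h g hg).1, fun h0 => ?_⟩⟩
  · have := h.2 fun e => hg (by rw [e]; rfl)
    omega
  · by_contra hk
    refine h0 (MonoidAlgebra.ext (Finsupp.ext fun g => ?_))
    by_contra hg
    have := (h g hg).2
    omega

theorem one_mem_rc [MulAction G L] {r : L → L → Prop} {o o' : L} (h : r o o') :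
    (1 : RG G) ∈ (rc G r).H 0 o o' :=
  mem_bcat.2 ⟨single_mem_sfam (p := fun g => r o (g • o')) (g := 1) (by rwa [one_smul]) 1,
    fun _ => rfl⟩

theorem map_single (i : RG G →+* E') (g : G) (n : ℤ) : i (.single g n) = n • i (.single g 1) := by
  rw [← map_zsmul, MonoidAlgebra.smul_single, smul_eq_mul, mul_one]

theorem lc_pact_zero (i : RG G →+* E') (s : G → κ → ℤ) (v : κ →₀ E') : lc (pact i s 0) v = 0 :=
  LinearMap.congr_fun lc_zero v

theorem lc_pact_add (i : RG G →+* E') (s : G → κ → ℤ) (a b : RG G) (v : κ →₀ E') :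
    lc (pact i s (a + b)) v = lc (pact i s a) v + lc (pact i s b) v := by
  rw [show pact i s (a + b) = fun k => pact i s a k + pact i s b k from funext (pact_add i s a b)]
  exact lc_add _ _ v

theorem lc_pact_single (i : RG G →+* E') (s : G → κ → ℤ) (g : G) (n : ℤ) (v : κ →₀ E') (k : κ) :
    lc (pact i s (.single g n)) v k = v (g • k) * i (.single g (s g k * n)) := by
  induction v using Finsupp.induction_linear with
  | zero => simp
  | add a b ha hb => rw [map_add, Finsupp.add_apply, Finsupp.add_apply, ha, hb, add_mul]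
  | single j e =>
    obtain ⟨j, rfl⟩ := ex_smul g j
    rw [linearCombination_single, pact_single, smul_single, smul_eq_mul]
    by_cases h : j = k
    · rw [h, single_eq_same, single_eq_same]
    · rw [single_eq_of_ne' h, single_eq_of_ne' fun e => h (MulAction.injective g e), zero_mul]

theorem pact_mul (i : RG G →+* E') {s : G → κ → ℤ}
    (hs : ∀ g h k, s (g * h) k = s g (h • k) * s h k) (a b : RG G) (k : κ) :
    pact i s (a * b) k = lc (pact i s b) (pact i s a k) := by
  induction a using MonoidAlgebra.induction_linear with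
  | zero => rw [zero_mul, pact_zero, map_zero]
  | add a a' ha ha' => rw [add_mul, pact_add, pact_add, map_add, ha, ha']
  | single g n =>
    induction b using MonoidAlgebra.induction_linear with
    | zero => rw [mul_zero, pact_zero, lc_pact_zero]
    | add b b' hb hb' => rw [mul_add, pact_add, lc_pact_add, hb, hb']
    | single h m =>
      obtain ⟨k, rfl⟩ := ex_smul (g * h) k
      rw [MonoidAlgebra.single_mul_single, pact_single, mul_smul, pact_single,
        linearCombination_single, pact_single, smul_single, smul_eq_mul, ← map_mul,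
        MonoidAlgebra.single_mul_single, hs, mul_mul_mul_comm]

theorem isBM_pact [MulAction G L] {r : L → L → Prop} {C' : Cat E' L'} (hC' : C'.Good)
    (i : RG G →+* E') {s : G → κ → ℤ} (hs1 : ∀ k, s 1 k = 1)
    (hs : ∀ g h k, s (g * h) k = s g (h • k) * s h k) {dg : κ → ℤ} {lb : L → κ → L'}
    {Δ : κ → κ →₀ E'} (hd : ∀ a, C'.d (i a) = 0) (hdg : ∀ (g : G) k, dg (g • k) = dg k)
    (hmem : ∀ g o o' k, r o (g • o') → i (.single g 1) ∈ C'.H 0 (lb o (g • k)) (lb o' k))
    (hpt : ∀ o, C'.Obj ⟨κ, dg, lb o, lc Δ⟩)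
    (hΔ : ∀ g k k', s g k • (i (.single g 1) * Δ k k') =
      s g k' • (Δ (g • k) (g • k') * i (.single g 1))) :
    IsBM (rc G r) C' ⟨pact i s, dg, lb, Δ⟩ where
  add := pact_add i s
  one k := by
    have := pact_single i s 1 1 k
    rwa [one_smul, hs1, mul_one, ← MonoidAlgebra.one_def, map_one] at this
  mul _ _ := pact_mul i hs _ _
  mem {n o o' a} ha k := by
    by_cases h0 : a = 0
    · rw [h0]; exact zero_mem _
    obtain rfl := (mem_rc.1 ha).2 h0
    refine sfam_induction (p := fun g => r o (g • o'))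
      (P := fun a => pact i s a k ∈ C'.M ⟨κ, dg, lb o', lc Δ⟩ (0 + dg k) (lb o k))
      (mem_bcat.1 ha).1 (fun g m hg => ?_) (zero_mem _) fun x y _ _ hx hy => ?_
    · obtain ⟨k, rfl⟩ := ex_smul g k
      rw [pact_single]
      refine Cat.single_mem_M ?_
      rw [map_single]
      refine zsmul_mem ?_ _
      rw [hdg, zero_add, sub_self]
      exact hmem g o o' k hg
    · rw [pact_add]; exact add_mem hx hy
  pt := hpt
  d {n o o' a} ha k := by
    have h1 : lc Δ (pact i s a k) = lc (pact i s a) (Δ k) := by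
      clear ha
      induction a using MonoidAlgebra.induction_linear with
      | zero => rw [pact_zero, map_zero, lc_pact_zero]
      | add a b ha hb => rw [pact_add, map_add, lc_pact_add, ha, hb]
      | single g m =>
        obtain ⟨k, rfl⟩ := ex_smul g k
        ext k'
        rw [pact_single, linearCombination_single, lc_pact_single, Finsupp.smul_apply, smul_eq_mul,
          map_single, map_single i g (_ * m), smul_mul_assoc, mul_smul_comm, mul_comm _ m,
          mul_comm _ m, mul_smul, mul_smul, hΔ]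
    have h2 : Raw.tw ⟨κ, dg, lb o', lc Δ⟩ C'.d (pact i s a k) = 0 := by
      ext k'
      rw [Raw.tw_apply, pact_apply, hd, smul_zero, Finsupp.zero_apply]
    change lc Δ (pact i s a k) + Raw.tw ⟨κ, dg, lb o', lc Δ⟩ C'.d (pact i s a k) =
      0 + n.negOnePow • lc (pact i s a) (Δ k)
    rw [h2, add_zero, zero_add, h1]
    by_cases h0 : a = 0
    · rw [h0, lc_pact_zero, smul_zero]
    · rw [(mem_rc.1 ha).2 h0, Int.negOnePow_zero, one_smul]

theorem lc_zc {κ' : Type} (Δ : κ → κ' →₀ ℤ) (v : κ →₀ ℤ) :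
    lc (fun k => zc E' (Δ k)) (zc E' v) = zc E' (linearCombination ℤ Δ v) := by
  have ha : ∀ {α : Type} (a b : α →₀ ℤ), zc E' (a + b) = zc E' a + zc E' b := fun a b =>
    Finsupp.ext fun _ => Int.cast_add _ _
  induction v using Finsupp.induction_linear with
  | zero => simp [zc]
  | add a b h1 h2 => rw [ha, map_add, map_add, ha, h1, h2]
  | single k n =>
    rw [zc, mapRange_single, linearCombination_single, linearCombination_single]
    exact Finsupp.ext fun _ => (Int.cast_mul _ _).symm

theorem isBM_pB [MulAction G L] [MulAction G L'] {r : L → L → Prop} {r' : L' → L' → Prop}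
    (hr' : IsRel G r') {s : G → κ → ℤ} (hs1 : ∀ k, s 1 k = 1)
    (hs : ∀ g h k, s (g * h) k = s g (h • k) * s h k) {dg : κ → ℤ} {lb : L → κ → L'}
    {Δ : κ → κ →₀ ℤ} (hdg : ∀ (g : G) k, dg (g • k) = dg k)
    (hlb : ∀ (g : G) o o' k, r o (g • o') → r' (lb o (g • k)) (g • lb o' k))
    (h1 : ∀ k k', Δ k k' ≠ 0 → dg k' = dg k + 1 ∧ ∀ o, r' (lb o k) (lb o k'))
    (h2 : ∀ k, linearCombination ℤ Δ (Δ k) = 0)
    (h3 : ∀ (g : G) k k', s g k * Δ k k' = s g k' * Δ (g • k) (g • k')) :
    IsBM (rc G r) (rc G r') (pB s dg lb Δ) := by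
  refine isBM_pact hr'.good (RingHom.id _) hs1 hs (fun _ => rfl) hdg
    (fun g o o' k h => mem_bcat.2 ⟨single_mem_sfam (p := fun h => r' _ (h • _)) (hlb g o o' k h) 1,
      fun _ => rfl⟩) (fun o => ?_) fun g k k' => ?_
  · refine hr'.good.obj_of_basis (rc_hom.2 fun k k' g hg => ?_) fun k => ?_
    · rw [lc_single, zc_apply] at hg
      obtain ⟨rfl, h⟩ := coeff_intCast hg
      rw [one_smul]
      exact ⟨(h1 k k' h).2 o, (h1 k k' h).1⟩
    · rw [bcat_D, lc_single, lc_zc, h2]
      exact mapRange_zero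
  · rw [zc_apply, zc_apply, ← zsmul_eq_mul, ← zsmul_eq_mul', smul_smul, smul_smul, h3]

theorem bmL_pact {ι ι' : Type} (i : RG G →+* E') (s : G → κ → ℤ)
    (f : (ι →₀ RG G) →ₗ[RG G] (ι' →₀ RG G)) (y : ι) (k : κ) (y' : ι') (k' : κ) :
    bmL (pact i s) f (single (y, k) 1) (y', k') = i (pent s k k' (f (single y 1) y')) := by
  rw [bmL_single (pact_zero i s), pact_apply]

theorem pB_δ (s : G → κ → ℤ) (dg : κ → ℤ) (lb : L → κ → L') (Δ : κ → κ →₀ ℤ) (V : Raw (RG G) L)
    (y y' : V.ι) (k k' : κ) [Decidable (y = y')] :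
    (V.bm (pB s dg lb Δ)).δ (single (y, k) 1) (y', k') = pent s k k' (V.δ (single y 1) y') +
      if y = y' then (V.deg y).negOnePow • (Δ k k' : RG G) else 0 := by
  rw [bm_δ (T := pB s dg lb Δ) (pact_zero (RingHom.id _) s)]
  exact congrArg (· + _) (pact_apply (RingHom.id _) s _ k k')

/-- the support of the differential -/
theorem pB_supp {s : G → κ → ℤ} {dg : κ → ℤ} {lb : L → κ → L'} {Δ : κ → κ →₀ ℤ}
    {V : Raw (RG G) L} {y y' : V.ι} {k k' : κ} {g : G}
    (h : ((V.bm (pB s dg lb Δ)).δ (single (y, k) 1) (y', k')).coeff g ≠ 0) :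
    g • k' = k ∧ (V.δ (single y 1) y').coeff g ≠ 0 ∨ y = y' ∧ g = 1 ∧ Δ k k' ≠ 0 := by
  classical
  rw [pB_δ, MonoidAlgebra.coeff_add, Finsupp.add_apply] at h
  by_cases h1 : (pent s k k' (V.δ (single y 1) y')).coeff g = 0
  · rw [h1, zero_add] at h
    split_ifs at h with e
    · refine Or.inr ⟨e, coeff_intCast fun h2 => h ?_⟩
      rw [Units.smul_def, MonoidAlgebra.coeff_smul, Finsupp.smul_apply, h2, smul_zero]
    · exact absurd rfl h
  · exact Or.inl (pent_supp h1)

theorem rl_apply {α β : Type} (p : α → Prop) (q : β → Prop) (f : (α →₀ E') →ₗ[E'] (β →₀ E'))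
    (i : {i // p i}) (j : {i // q i}) : rl p q f (single i 1) j = f (single i.1 1) j.1 := by
  rw [LinearMap.comp_apply, LinearMap.comp_apply, lmapDomain_apply, mapDomain_single]
  rfl

end Pool.Agent.Lib.NIL.EA
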