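import Pool.Agent.Lib.NIL.EA.G1
import Pool.Agent.Lib.NIL.EA.Blue

/-! The exterior algebra over the strata: the ring and the system of letters. -/

noncomputable section

namespace Pool.Agent.Lib.NIL.EA

open Finsupp Pointwise

/-- a monoid with a two-cocycle -/
structure Tw (M : Type) where
  mul : M → M → M
  one : M
  κ : M → M → ℤ
  mul_assoc : ∀ a b c, mul (mul a b) c = mul a (mul b c)
  one_mul : ∀ a, mul one a = a
  mul_one : ∀ a, mul a one = a
  κ_left : ∀ a, κ one a = 1
  κ_right : ∀ a, κ a one = 1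
  coc : ∀ a b c, κ a b * κ (mul a b) c = κ b c * κ a (mul b c)

namespace Tw

variable {M X : Type} (T : Tw M)

/-- the twisted monoid ring -/
def A (_ : Tw M) : Type := M →₀ ℤ

def bil : (M →₀ ℤ) →ₗ[ℤ] (M →₀ ℤ) →ₗ[ℤ] (M →₀ ℤ) :=
  linearCombination ℤ fun p => linearCombination ℤ fun q => single (T.mul p q) (T.κ p q)

theorem bil_single (p q : M) (m n : ℤ) :
    T.bil (single p m) (single q n) = single (T.mul p q) (m * n * T.κ p q) := by
  rw [bil, linearCombination_single, LinearMap.smul_apply, linearCombination_single, smul_single,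
    smul_single, smul_eq_mul, smul_eq_mul, _root_.mul_assoc]

theorem bil_assoc (a b c : M →₀ ℤ) : T.bil (T.bil a b) c = T.bil a (T.bil b c) := by
  induction a using Finsupp.induction_linear with
  | zero => simp
  | add x y hx hy => simp only [map_add, LinearMap.add_apply, hx, hy]
  | single p m =>
    induction b using Finsupp.induction_linear with
    | zero => simp
    | add x y hx hy => simp only [map_add, LinearMap.add_apply, hx, hy]
    | single q n =>
      induction c using Finsupp.induction_linear with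
      | zero => simp
      | add x y hx hy => simp only [map_add, hx, hy]
      | single r l =>
        simp only [bil_single, T.mul_assoc]
        exact congrArg _ (by linear_combination m * n * l * T.coc p q r)

theorem one_bil (a : M →₀ ℤ) : T.bil (single T.one 1) a = a := by
  induction a using Finsupp.induction_linear with
  | zero => simp
  | add x y hx hy => simp only [map_add, hx, hy]
  | single p m => simp [bil_single, T.one_mul, T.κ_left]

theorem bil_one (a : M →₀ ℤ) : T.bil a (single T.one 1) = a := by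
  induction a using Finsupp.induction_linear with
  | zero => simp
  | add x y hx hy => simp only [map_add, LinearMap.add_apply, hx, hy]
  | single p m => simp [bil_single, T.mul_one, T.κ_right]

instance : AddCommGroup T.A := inferInstanceAs (AddCommGroup (M →₀ ℤ))

instance : Ring T.A :=
  { (inferInstance : AddCommGroup T.A) with
    mul := fun a b => T.bil a b
    one := single T.one 1
    left_distrib := fun a b c => (T.bil a).map_add b c
    right_distrib := fun a b c => LinearMap.map_add₂ T.bil a b c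
    zero_mul := fun a => LinearMap.map_zero₂ T.bil a
    mul_zero := fun a => (T.bil a).map_zero
    mul_assoc := T.bil_assoc
    one_mul := T.one_bil
    mul_one := T.bil_one }

/-- the basis elements -/
def e (p : M) : T.A := single p 1

/-- the coordinates -/
def co : T.A ≃+ (M →₀ ℤ) := AddEquiv.refl _

theorem co_e (p : M) : T.co (T.e p) = single p 1 := rfl

theorem e_one : T.e T.one = 1 := rfl

theorem e_mul (p q : M) : T.e p * T.e q = T.κ p q • T.e (T.mul p q) :=
  T.co.injective (by
    rw [map_zsmul, co_e, smul_single, smul_eq_mul, _root_.mul_one]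
    exact (T.bil_single p q 1 1).trans (by rw [_root_.one_mul, _root_.one_mul]))

/-- additive extension -/
def lift [AddCommGroup X] (f : M → X) : T.A →+ X :=
  (linearCombination ℤ f).toAddMonoidHom.comp T.co.toAddMonoidHom

theorem lift_e [AddCommGroup X] (f : M → X) (p : M) : T.lift f (T.e p) = f p :=
  (linearCombination_single ℤ 1 p).trans (one_smul _ _)

theorem ind {P : T.A → Prop} (a : T.A) (h0 : P 0) (h1 : ∀ (n : ℤ) p, P (n • T.e p))
    (ha : ∀ x y, P x → P y → P (x + y)) : P a :=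
  Finsupp.induction_linear (motive := fun a => P (T.co.symm a)) a h0 ha fun p n => by
    have := h1 n p
    rwa [← T.co.symm_apply_apply (n • _), map_zsmul, co_e, smul_single, smul_eq_mul,
      _root_.mul_one] at this

theorem hom_ext [AddCommGroup X] {f g : T.A →+ X} (h : ∀ p, f (T.e p) = g (T.e p)) (a : T.A) :
    f a = g a :=
  T.ind (P := fun a => f a = g a) a (by rw [map_zero, map_zero])
    (fun n p => by rw [map_zsmul, map_zsmul, h]) fun x y hx hy => by rw [map_add, map_add, hx, hy]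

end Tw

namespace KS

variable (G D : Type) [Group G] [LinearOrder D] [MulAction G D] [MulAction G (Pt D)] [Aff G D]
  (k : ℕ)

/-- the letters -/
abbrev Lt (D : Type) (k : ℕ) : Type := Finset D × Option (Str D k)

def tw : Tw (G × Lt D k) where
  mul p q := (p.1 * q.1, q.1⁻¹ • p.2.1 ∪ q.2.1, q.2.2.or (p.2.2.map (q.1⁻¹ • ·)))
  one := (1, ∅, none)
  κ p q := sg q.1⁻¹ p.2.1 * w (q.1⁻¹ • p.2.1) q.2.1
  mul_assoc := by
    rintro ⟨g, J, o⟩ ⟨g', J', o'⟩ ⟨g'', J'', o''⟩
    refine Prod.ext (mul_assoc _ _ _) (Prod.ext ?_ ?_)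
    · simp only [Finset.smul_finset_union, mul_inv_rev, mul_smul, Finset.union_assoc]
    · cases o <;> cases o' <;> cases o'' <;> simp [mul_smul]
  one_mul := by
    rintro ⟨g, J, o⟩
    simp
  mul_one := by
    rintro ⟨g, J, o⟩
    cases o <;> simp
  κ_left a := by simp [sg_empty, w_empty_left]
  κ_right a := by simp [sg_one, w_empty_right]
  coc := by
    rintro ⟨g, J, o⟩ ⟨g', J', o'⟩ ⟨g'', J'', o''⟩
    simp only [Finset.smul_finset_union, mul_inv_rev, mul_smul, sg_mul]
    have h1 := w_smul g''⁻¹ (g'⁻¹ • J) J'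
    have h2 := w_cocycle (g''⁻¹ • g'⁻¹ • J) (g''⁻¹ • J') J''
    linear_combination sg g'⁻¹ J * w (g''⁻¹ • g'⁻¹ • J ∪ g''⁻¹ • J') J'' * h1 +
      sg g'⁻¹ J * sg g''⁻¹ (g'⁻¹ • J) * sg g''⁻¹ J' * h2

/-- the ring -/
abbrev E : Type := (tw G D k).A

variable {G D k}

/-- the basis element `g ξ_J` -/
def e (g : G) (J : Finset D) (o : Option (Str D k)) : E G D k := (tw G D k).e (g, J, o)

theorem e_mul (g g' : G) (J J' : Finset D) (o o' : Option (Str D k)) :
    e g J o * e g' J' o' = (sg g'⁻¹ J * w (g'⁻¹ • J) J') •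
      e (g * g') (g'⁻¹ • J ∪ J') (o'.or (o.map (g'⁻¹ • ·))) := (tw G D k).e_mul _ _

theorem e_one : e (1 : G) (∅ : Finset D) (none : Option (Str D k)) = 1 := rfl

theorem e_mul_left (g g' : G) (J : Finset D) (o : Option (Str D k)) :
    e g ∅ none * e g' J o = e (g * g') J o := by
  simp [e_mul, sg_empty, w_empty_left]

theorem e_mul_right (g g' : G) (J : Finset D) (o : Option (Str D k)) :
    e g J o * e g' ∅ none = sg g'⁻¹ J • e (g * g') (g'⁻¹ • J) (o.map (g'⁻¹ • ·)) := by
  simp [e_mul, w_empty_right]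

theorem e_mul_one (g : G) (J J' : Finset D) (o : Option (Str D k)) (y : Str D k) :
    e g J o * e 1 J' (some y) = w J J' • e g (J ∪ J') (some y) := by
  simp [e_mul, sg_one]

def ι : RG G →+* E G D k :=
  (MonoidAlgebra.lift ℤ (E G D k) G
    ⟨⟨fun g => e g ∅ none, e_one⟩, fun g g' => (e_mul_left g g' _ _).symm⟩).toRingHom

theorem ι_single (g : G) (n : ℤ) : (ι (.single g n) : E G D k) = n • e g ∅ none :=
  MonoidAlgebra.lift_single _ _ _

def cE : E G D k ≃+ (Lt D k →₀ RG G) :=
  (tw G D k).co.trans ((Finsupp.domCongr (Equiv.prodComm _ _)).trans (curryAddEquiv.trans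
    (mapRange.addEquiv MonoidAlgebra.coeffAddEquiv.symm)))

theorem cE_e (g : G) (J : Finset D) (o : Option (Str D k)) :
    cE (e g J o) = single (J, o) (.single g 1) := by
  simp [cE, e, Tw.co_e]

theorem cE_mul (g : G) (n : ℤ) (a : E G D k) :
    cE (ι (.single g n) * a) = (MonoidAlgebra.single g n : RG G) • cE a := by
  refine (tw G D k).ind (P := fun a => cE (ι (.single g n) * a) =
    (MonoidAlgebra.single g n : RG G) • cE a) a (by rw [mul_zero, map_zero, smul_zero])
    (fun m ⟨g', J, o⟩ => ?_) fun x y hx hy => by rw [mul_add, map_add, map_add, hx, hy, smul_add]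
  change cE (ι (.single g n) * m • e g' J o) = (MonoidAlgebra.single g n : RG G) • cE (m • e g' J o)
  rw [mul_smul_comm, map_zsmul, map_zsmul, smul_comm, ι_single, smul_mul_assoc, e_mul_left,
    map_zsmul, cE_e, cE_e]
  simp

/-- the system of letters -/
def S (y₀ : Str D k) : Sys (RG G) (E G D k) (Lt D k) (Str D k) where
  σ := (tw G D k).lift fun p => (p.2.1.card : ℤ).negOnePow • (tw G D k).e p
  d := 0
  i := ι
  c := cE
  u := (∅, none)
  ok l := l.1.Nonempty ∧ ∃ y, l.2 = some y ∧ l.1 ⊆ y.I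
  s l := (l.2.getD y₀).mv l.1 1
  t l := l.2.getD y₀
  deg l := l.1.card
  ρ l := l.1.card

def ξ (x : D) (y : Str D k) : E G D k := e 1 {x} (some y)

variable (y₀ : Str D k)

theorem S_i (g : G) (n : ℤ) : (S y₀).i (.single g n) = n • e g ∅ none := ι_single g n

theorem S_ε (l : Lt D k) : (S (G := G) y₀).ε l = e 1 l.1 l.2 :=
  cE.symm_apply_eq.2 (cE_e _ _ _).symm

theorem S_σ (g : G) (J : Finset D) (o : Option (Str D k)) :
    (S y₀).σ (e g J o) = (J.card : ℤ).negOnePow • e g J o := (tw G D k).lift_e _ _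

theorem i_ε (g : G) (n : ℤ) (l : Lt D k) :
    (S y₀).i (.single g n) * (S y₀).ε l = n • e g l.1 l.2 := by
  rw [S_i, S_ε, smul_mul_assoc, e_mul_left, mul_one]

theorem e_mem {T : Lt D k → Prop} {g : G} {J : Finset D} {y o : Str D k} (hJ : J.Nonempty)
    (hy : J ⊆ y.I) (hT : T (J, some y)) (h : g • y.mv J 1 = o) :
    e g J (some y) ∈ (S y₀).Sp (gfam G (Str D k)) T o y := fun l => by
  change cE _ l ∈ _ ∧ (cE _ l ≠ 0 → _)
  rw [cE_e]
  by_cases hl : (J, some y) = l
  · subst hl
    rw [single_eq_same, Sys.src, if_neg fun e => hJ.ne_empty (congrArg Prod.fst e)]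
    exact ⟨single_mem_sfam (p := fun g => g • y.mv J 1 = o) h 1,
      fun _ => ⟨.inr ⟨⟨hJ, y, rfl, hy⟩, rfl⟩, hT⟩⟩
  · rw [single_eq_of_ne' hl]
    exact ⟨zero_mem _, fun h => absurd rfl h⟩

theorem σ_mul (a b : E G D k) : (S y₀).σ (a * b) = (S y₀).σ a * (S y₀).σ b := by
  refine (tw G D k).hom_ext (f := (S y₀).σ.comp (.mulRight b))
    (g := (AddMonoidHom.mulRight ((S y₀).σ b)).comp (S y₀).σ) (fun ⟨g, J, o⟩ => ?_) a
  refine (tw G D k).hom_ext (f := (S y₀).σ.comp (.mulLeft (e g J o)))
    (g := (AddMonoidHom.mulLeft ((S y₀).σ (e g J o))).comp (S y₀).σ) (fun ⟨g', J', o'⟩ => ?_) b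
  change (S y₀).σ (e g J o * e g' J' o') = (S y₀).σ (e g J o) * (S y₀).σ (e g' J' o')
  rw [S_σ, S_σ, smul_mul_smul_comm, e_mul, map_zsmul, S_σ]
  by_cases h : Disjoint (g'⁻¹ • J) J'
  · rw [Finset.card_union_of_disjoint h, Finset.card_smul_finset, Nat.cast_add, Int.negOnePow_add,
      smul_comm]
  · rw [w_eq_zero h, mul_zero, zero_smul, zero_smul, smul_zero]

theorem isSys : (S (G := G) y₀).IsSys (gfam G (Str D k)) 1 where
  bas := gfam_bas G _
  dg := ⟨(S_σ y₀ (1 : G) ∅ none).trans (one_smul _ _), σ_mul y₀,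
    (tw G D k).hom_ext (f := (S y₀).σ.comp (S y₀).σ) (g := .id _) fun ⟨g, J, o⟩ => by
      change (S y₀).σ ((S y₀).σ (e g J o)) = e g J o
      rw [S_σ, Units.smul_def, map_zsmul, S_σ, ← Units.smul_def, smul_smul, Int.units_mul_self,
        one_smul],
    fun _ => by
      change 0 = -(S y₀).σ 0
      rw [map_zero, neg_zero],
    fun _ => rfl, fun a b => by
      change 0 = a * 0 + 0 * _
      rw [mul_zero, zero_mul, add_zero]⟩
  σ_i r := by
    induction r using MonoidAlgebra.induction_linear with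
    | zero => rw [map_zero, map_zero]
    | add x y hx hy => rw [map_add, map_add, hx, hy]
    | single g n => rw [S_i, map_zsmul, S_σ]; exact congrArg _ (one_smul _ _)
  d_i _ := rfl
  c_mul r a := by
    induction r using MonoidAlgebra.induction_linear with
    | zero => rw [map_zero, zero_mul, map_zero, zero_smul]
    | add x y hx hy => rw [map_add, add_mul, map_add, hx, hy, add_smul]
    | single g n =>
      exact cE_mul g n a
  c_one := cE_e 1 ∅ none
  deg_u := rfl
  ρ_u := rfl
  ne_u l h e := h.1.ne_empty (congrArg Prod.fst e)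
  deg_ge l h := Int.natCast_pos.2 h.1.card_pos
  ρ_pos l h := h.1.card_pos
  σ_ε l _ := by rw [S_ε, S_σ]; rfl
  mulR := by
    rintro ⟨J, _⟩ o r ⟨hJ, y, rfl, hy⟩ hr
    refine sfam_induction (P := fun r => (S y₀).ε _ * (S y₀).i r ∈ _) hr (fun g n hg => ?_)
      (by rw [map_zero, mul_zero]; exact zero_mem _)
      fun x y _ _ hx hy => by rw [map_add, mul_add]; exact add_mem hx hy
    obtain rfl : g • o = y := hg
    rw [S_i, S_ε, mul_smul_comm, e_mul_right, Option.map_some, inv_smul_smul, one_mul]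
    have hJ' : (g⁻¹ • J).Nonempty := hJ.smul_finset
    refine zsmul_mem (zsmul_mem (e_mem y₀ hJ' ?_ ⟨fun e => hJ'.ne_empty (congrArg Prod.fst e),
      congrArg Nat.cast (Finset.card_smul_finset _ _), (Finset.card_smul_finset _ _).le⟩ ?_) _) _
    · exact Finset.subset_smul_finset_iff.1 hy
    · rw [Str.smul_mv, smul_inv_smul]
      rfl
  mul := by
    rintro ⟨J, _⟩ ⟨J', _⟩ ⟨hJ, y, rfl, hy⟩ ⟨hJ', y', rfl, hy'⟩ h
    obtain rfl : y = y'.mv J' 1 := h
    rw [S_ε, S_ε, e_mul_one]
    by_cases hd : Disjoint J J'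
    · have hn : (J ∪ J').Nonempty := hJ.inl
      have hy : J ⊆ y'.I := hy
      have hc : (J ∪ J').card ≤ J.card + J'.card := Finset.card_union_le _ _
      have hc' : ((J ∪ J').card : ℤ) = J.card + J'.card := by
        rw [Finset.card_union_of_disjoint hd, Nat.cast_add]
      refine zsmul_mem (e_mem y₀ hn (Finset.union_subset hy hy')
        ⟨fun e => hn.ne_empty (congrArg Prod.fst e), hc', hc⟩ ?_) _
      rw [one_smul]
      refine Str.ext' rfl fun i hi => ?_
      change _ = ((y'.mv J' 1).mv J 1).c i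
      rw [Str.mv_c y' (J ∪ J') _ hi, Str.mv_c (y'.mv J' 1) _ _ hi, Str.mv_c y' J' _ hi]
      have : i ∈ J → i ∉ J' := fun h => Finset.disjoint_left.1 hd h
      by_cases h1 : i ∈ J <;> by_cases h2 : i ∈ J' <;> simp_all
    · rw [w_eq_zero hd, zero_smul]
      exact zero_mem _
  d_ε _ _ := zero_mem _

theorem ξ_mem (y : Str D k) (x : D) (hx : x ∈ y.I) :
    ξ x y ∈ ((S y₀).cat (gfam G (Str D k))).H 1 (y.mv {x} 1) y :=
  e_mem y₀ (Finset.singleton_nonempty x) (Finset.singleton_subset_iff.2 hx) rfl (one_smul _ _)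

theorem ξ_i (x : D) (y : Str D k) (g : G) :
    ξ (g • x) (g • y) * (S y₀).i (.single g 1) = (S y₀).i (.single g 1) * ξ x y := by
  simp [ξ, S_i, e_mul_left, e_mul_right, sg_singleton]

theorem ξ_ξ (x x' : D) (y₁ y₂ y : Str D k) :
    (ξ x y₁ * ξ x' y : E G D k) = -(ξ x' y₂ * ξ x y) := by
  rw [ξ, ξ, ξ, ξ, e_mul_one, e_mul_one, w_swap_single, neg_smul, Finset.union_comm]

theorem ξ_sq (x : D) (y₁ y : Str D k) : (ξ x y₁ * ξ x y : E G D k) = 0 := by
  rw [ξ, ξ, e_mul_one, w_eq_zero (by simp), zero_smul]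

theorem ξ_aug (x : D) (y : Str D k) : (S (G := G) y₀).aug (ξ x y) = 0 := by
  change cE _ _ = 0
  rw [ξ, cE_e]
  exact single_eq_of_ne' fun e => Finset.singleton_ne_empty x (congrArg Prod.fst e)

end KS

end Pool.Agent.Lib.NIL.EA
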